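import Pool.Agent.U841.SN.Defs

set_option autoImplicit false

/-! # Points of one of the hypersurfaces only -/

namespace Pool.Agent.U841.SN

open MvPolynomial

variable {n : ℕ}

/-- a polynomial which divides two variables -/
theorem dvd_vars (hn : 2 ≤ n) (q : MvPolynomial (Fin n) ℂ) (hq : Prime q)
    (h : ∀ i : Fin n, q ∣ X i) : False := by
  obtain ⟨a, ha⟩ := h ⟨0, by omega⟩
  obtain ⟨b, hb⟩ := h ⟨1, by omega⟩
  have h2 : Prime (X (⟨0, by omega⟩ : Fin n) : MvPolynomial (Fin n) ℂ) := X_prime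
  have h3 : Associated q (X (⟨0, by omega⟩ : Fin n)) :=
    (hq.irreducible.dvd_symm h2.irreducible ⟨a, ha⟩) |> fun h => associated_of_dvd_dvd ⟨a, ha⟩ h
  have h4 : X (⟨0, by omega⟩ : Fin n) ∣ (X (⟨1, by omega⟩ : Fin n) : MvPolynomial (Fin n) ℂ) :=
    h3.symm.dvd.trans ⟨b, hb⟩
  rw [X_dvd_X] at h4
  simp at h4

theorem null (q G : MvPolynomial (Fin n) ℂ) (hq : Prime q)
    (h : ∀ x, eval x q = 0 → eval x G = 0) : q ∣ G := by
  have h1 : G ∈ vanishingIdeal ℂ (zeroLocus ℂ (Ideal.span {q})) := by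
    rw [mem_vanishingIdeal_iff]
    intro x hx
    rw [mem_zeroLocus_iff] at hx
    exact h x (hx q (Ideal.subset_span rfl))
  rw [vanishingIdeal_zeroLocus_eq_radical] at h1
  obtain ⟨k, hk⟩ := h1
  rw [Ideal.mem_span_singleton] at hk
  exact hq.dvd_of_dvd_pow hk

variable {T : Type} (f : T → MvPolynomial (Fin n) ℂ) (δ : T → ℕ)
  (hf : ∀ t, (f t).IsHomogeneous (δ t)) (hδ : ∀ t, 0 < δ t) (hNC : NormalCrossings f)

theorem NormalCrossings.grad_ne {f : T → MvPolynomial (Fin n) ℂ} (hNC : NormalCrossings f)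
    (x : Fin n → ℂ) (hx : x ≠ 0) (t : T) (h : eval x (f t) = 0) :
    ∃ j, eval x (pderiv j (f t)) ≠ 0 := by
  have h1 := (hNC x hx).ne_zero ⟨t, h⟩
  by_contra h2
  push Not at h2
  exact h1 (funext h2)

theorem NormalCrossings.ne (hn : 2 ≤ n) {f : T → MvPolynomial (Fin n) ℂ}
    (hNC : NormalCrossings f) (t : T) : f t ≠ 0 := by
  intro h
  obtain ⟨j, hj⟩ := hNC.grad_ne (fun _ => 1) (fun h => by
    have := congrFun h ⟨0, by omega⟩
    simp at this) t (by rw [h, map_zero])
  rw [h, map_zero, map_zero] at hj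
  exact hj rfl

include hf hδ hNC in
/-- **A point of one of the hypersurfaces only.** -/
theorem exists_point [Fintype T] (hn : 2 ≤ n) (t : T) : ∃ p : Fin n → ℂ,
    p ≠ 0 ∧ eval p (f t) = 0 ∧ ∀ s, s ≠ t → eval p (f s) ≠ 0 := by
  classical
  by_contra hcon
  push Not at hcon
  have hft : f t ≠ 0 := hNC.ne hn t
  have hfu : ¬ IsUnit (f t) := by
    intro h
    have h1 := h.map (eval (0 : Fin n → ℂ))
    have h2 : eval (0 : Fin n → ℂ) (f t) = 0 := by
      rw [eval_zero, constantCoeff_eq]
      by_contra h3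
      have h4 := hf t h3
      rw [map_zero] at h4
      have := hδ t
      omega
    rw [h2] at h1
    exact not_isUnit_zero h1
  obtain ⟨q, hqi, hqt⟩ := WfDvdMonoid.exists_irreducible_factor hfu hft
  have hq : Prime q := hqi.prime
  obtain ⟨h, hh⟩ := hqt
  have key : ∀ i : Fin n, q ∣ X i := by
    intro i
    have h1 : q ∣ X i * ∏ s ∈ Finset.univ.erase t, f s := by
      refine null q _ hq fun x hx => ?_
      by_cases hx0 : x = 0
      · rw [map_mul, eval_X, hx0, Pi.zero_apply, zero_mul]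
      · obtain ⟨s, hs, hs0⟩ := hcon x hx0 (by rw [hh, map_mul, hx, zero_mul])
        rw [map_mul, map_prod, Finset.prod_eq_zero (Finset.mem_erase.2 ⟨hs, Finset.mem_univ s⟩) hs0,
          mul_zero]
    rcases hq.dvd_or_dvd h1 with h2 | h2
    · exact h2
    · exfalso
      obtain ⟨s, hs, h', hh'⟩ := (hq.dvd_finsetProd_iff _).1 h2
      have hst : s ≠ t := (Finset.mem_erase.1 hs).1
      obtain ⟨p, hp0, hp⟩ : ∃ p : Fin n → ℂ, p ≠ 0 ∧ eval p q = 0 := by
        by_contra h3
        push Not at h3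
        refine dvd_vars hn q hq fun i => null q _ hq fun x hx => ?_
        have hx0 : x = 0 := by
          by_contra h4
          exact h3 x h4 hx
        rw [eval_X, hx0, Pi.zero_apply]
      have ht0 : eval p (f t) = 0 := by rw [hh, map_mul, hp, zero_mul]
      have hs0 : eval p (f s) = 0 := by rw [hh', map_mul, hp, zero_mul]
      have hgt : ∀ j, eval p (pderiv j (f t)) = eval p h * eval p (pderiv j q) := by
        intro j
        rw [hh, Derivation.leibniz, map_add, smul_eq_mul, smul_eq_mul, map_mul, map_mul, hp,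
          zero_mul, zero_add]
      have hgs : ∀ j, eval p (pderiv j (f s)) = eval p h' * eval p (pderiv j q) := by
        intro j
        rw [hh', Derivation.leibniz, map_add, smul_eq_mul, smul_eq_mul, map_mul, map_mul, hp,
          zero_mul, zero_add]
      have h5 := Fintype.linearIndependent_iff.1 (hNC p hp0)
        (fun r => if r = ⟨t, ht0⟩ then eval p h' else if r = ⟨s, hs0⟩ then -eval p h else 0) (by
          rw [Finset.sum_eq_add_of_mem ⟨t, ht0⟩ ⟨s, hs0⟩ (Finset.mem_univ _) (Finset.mem_univ _)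
            (fun h => hst (Subtype.ext_iff.1 h).symm)]
          · funext j
            rw [if_pos rfl, if_neg (fun h => hst (Subtype.ext_iff.1 h)), if_pos rfl]
            change eval p h' * eval p (pderiv j (f t)) + -eval p h * eval p (pderiv j (f s)) = 0
            rw [hgt, hgs]
            ring
          · intro r _ hr
            rw [if_neg hr.1, if_neg hr.2, zero_smul]) ⟨s, hs0⟩
      rw [if_neg (fun h => hst (Subtype.ext_iff.1 h)), if_pos rfl, neg_eq_zero] at h5
      obtain ⟨j, hj⟩ := hNC.grad_ne p hp0 t ht0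
      rw [hgt, h5, zero_mul] at hj
      exact hj rfl
  exact dvd_vars hn q hq key

end Pool.Agent.U841.SN
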