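import Pool.Agent.R852.SC.Main

set_option autoImplicit false

/-! # The roots of the components at their smooth points -/

namespace Pool.Agent.U841.SN

open MvPolynomial Pool.Agent.W574.SM Pool.Agent.W574.LM Pool.Agent.H628R4.TP
  Pool.Agent.TH192.DT Pool.Agent.Y231.RF Pool.Agent.R852.SC

variable {σ : Type} [Fintype σ] [DecidableEq σ]

omit [Fintype σ] [DecidableEq σ] in
/-- a functional equation for one function -/
theorem functionalEq_unique {ι : Type} [Fintype ι] [DecidableEq ι] [Unique ι]
    (f : MvPolynomial σ ℂ) (b : Polynomial ℂ) (hb : IsBFunction f b) :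
    IsFunctionalEq (fun _ : ι => f) b := by
  classical
  have hb' : ∃ P : ℕ →₀ weyl σ, ∀ s : ℕ, C (b.eval (s : ℂ)) * f ^ s =
    P.sum fun m Q => ((s : ℂ) ^ m) • (Q : Module.End ℂ (MvPolynomial σ ℂ)) (f ^ (s + 1)) := hb
  obtain ⟨P, hP⟩ := hb'
  refine ⟨{fun _ => 1}, fun _ => P.mapDomain (fun m => Finsupp.single default m), ?_, ?_⟩
  · intro c hc
    rw [Finset.mem_singleton] at hc
    subst hc
    simp
  · intro s
    rw [Finset.sum_singleton]
    simp only [Finset.univ_unique, Finset.sum_singleton, Finset.prod_singleton]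
    rw [hP (s default)]
    have h1 : ((if (1 : ℤ) < 0 then (s default).choose (-1 : ℤ).toNat else 1 : ℕ) : ℂ) = 1 := by
      norm_num
    have h2 : ((s default : ℤ) + 1).toNat = s default + 1 := by omega
    rw [h1, h2, map_one, one_mul, applyAt]
    rw [Finsupp.sum_mapDomain_index]
    · refine Finsupp.sum_congr fun m _ => ?_
      simp only [Finset.univ_unique, Finset.prod_singleton, Finsupp.single_eq_same]
    · intro β
      simp
    · intro β Q1 Q2
      simp [smul_add]

/-- a determinant -/
theorem det_upd (v : σ → ℂ) (s : σ) :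
    ((1 : Matrix σ σ ℂ).updateCol s v).det = v s := by
  have h := Matrix.cramer_apply (1 : Matrix σ σ ℂ) v s
  rw [Matrix.cramer_one] at h
  exact h.symm

/-- the family of the two principal ideals -/
noncomputable def two (q F : MvPolynomial σ ℂ) : Bool → Unit → MvPolynomial σ ℂ :=
  fun t _ => if t then q else F

theorem powersOfSmooth_two (F q v : MvPolynomial σ ℂ) (M : ℕ) (hF : F = q ^ M * v) (p : σ → ℂ)
    (hq : eval p q = 0) (s : σ) (hs : eval p (pderiv s q) ≠ 0) (hv : eval p v ≠ 0) :
    PowersOfSmooth (two q F) 1 (fun t => if t then 1 else M) p := by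
  classical
  have hspan : Ideal.span ((fun r : σ => if r = s then q else X r) '' (({s} : Finset σ) : Set σ)) =
      Ideal.span {q} := by
    rw [Finset.coe_singleton, Set.image_singleton]
    simp
  refine ⟨fun r => if r = s then q else X r, {s}, v, ?_, Finset.singleton_nonempty s,
    Finset.card_singleton s, fun r hr => ?_, hv, fun t => ⟨fun _ => ?_, fun x hx => ?_⟩⟩
  · have h1 : (Matrix.of fun i r => eval p (pderiv i (if r = s then q else X r))) =
        (1 : Matrix σ σ ℂ).updateCol s fun i => eval p (pderiv i q) := by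
      ext i r
      rw [Matrix.of_apply, Matrix.updateCol_apply]
      by_cases h : r = s
      · rw [if_pos h, if_pos h]
      · rw [if_neg h, if_neg h, pderiv_X, Matrix.one_apply, Pi.single_apply]
        by_cases h2 : i = r
        · rw [if_pos h2.symm, if_pos h2, map_one]
        · rw [if_neg (fun h => h2 h.symm), if_neg h2, map_zero]
    rw [h1, det_upd]
    exact hs
  · rw [Finset.mem_singleton] at hr
    change eval p (if r = s then q else X r) = 0
    rw [if_pos hr]
    exact hq
  · rw [hspan, Ideal.span_singleton_pow, Ideal.mem_span_singleton]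
    cases t
    · change q ^ M ∣ v * F
      rw [hF]
      exact ⟨v * v, by ring⟩
    · change q ^ 1 ∣ v * q
      exact ⟨v, by ring⟩
  · rw [hspan, Ideal.span_singleton_pow, Ideal.mem_span_singleton] at hx
    cases t
    · change q ^ M ∣ x at hx
      obtain ⟨y, rfl⟩ := hx
      change v * (q ^ M * y) ∈ Ideal.span (Set.range fun _ : Unit => F)
      rw [Set.range_const, Ideal.mem_span_singleton, hF]
      exact ⟨y, by ring⟩
    · change q ^ 1 ∣ x at hx
      obtain ⟨y, rfl⟩ := hx
      change v * (q ^ 1 * y) ∈ Ideal.span (Set.range fun _ : Unit => q)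
      rw [Set.range_const, Ideal.mem_span_singleton]
      exact ⟨v * y, by ring⟩

/-- **The roots at a smooth point of a component.** -/
theorem smooth_root (F q v : MvPolynomial σ ℂ) (M : ℕ) (hF : F = q ^ M * v) (p : σ → ℂ)
    (hq : eval p q = 0) (s : σ) (hs : eval p (pderiv s q) ≠ 0) (hv : eval p v ≠ 0)
    (b : Polynomial ℂ) (hb : IsBFunction F b) (l : ℕ) (hl : l < M) :
    b.eval (-((l : ℂ) + 1) / M) = 0 := by
  classical
  have hM : 0 < M := by omega
  set a : Bool → ℕ := fun t => if t then 0 else 1 with ha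
  have hPS := powersOfSmooth_two F q v M hF p hq s hs hv
  obtain ⟨E, hk, hm, hR, hc⟩ := smooth_chart (two q F) 1 (fun t => if t then 1 else M) p
    hPS (fun t => a t ≠ 0) ⟨false, one_ne_zero, hM⟩
  have hk0 : E.k = 0 := by omega
  have hmul : E.mul a = M := by
    rw [Chart.mul, hm, Fintype.sum_bool]
    simp [ha]
  have hb' : IsLocEq 1 (prodFam fun q' : Σ t, Fin (a t) => two q F q'.1) b := by
    have h1 : (prodFam fun q' : Σ t, Fin (a t) => two q F q'.1) = fun _ => F := by
      funext j
      rw [prodFam]
      have h2 : ∀ q' : Σ t, Fin (a t), two q F q'.1 (j q') = two q F q'.1 () := fun _ => rfl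
      rw [Finset.prod_congr rfl fun q' _ => h2 q', Fintype.prod_sigma, Fintype.prod_bool]
      simp [ha, two]
    rw [h1]
    exact isLocEq_of_isFunctionalEq (functionalEq_unique F b hb)
  obtain ⟨w, hwU, hw⟩ := E.attained true
  rw [hm] at hw
  change aeval E.ξ q = MvPowerSeries.X E.z ^ 1 * w at hw
  rw [pow_one] at hw
  have h := rees_prod a (two q F) b 1 hb' E hR
    (by rw [map_one, map_one]; exact one_ne_zero) l (by rw [hmul]; exact hl) (q ^ l)
    ⟨w ^ l, by rw [map_pow]; exact pow_ne_zero _ hwU, by rw [map_pow, hw, mul_pow]⟩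
  rw [hmul, hk0, Nat.cast_zero, zero_add, add_comm (1 : ℂ)] at h
  exact h

end Pool.Agent.U841.SN
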