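import Pool.Agent.U841.SN.Root
import Pool.Agent.U841.SN.Point
import Pool.Agent.U841.SN.Strict

set_option autoImplicit false

/-! # The roots of the `b`-function of a product of powers of forms with normal crossings -/

namespace Pool.Agent.U841.SN

open MvPolynomial Pool.Agent.H628R4.TP

variable {n : ℕ} {T : Type} [Fintype T] (f : T → MvPolynomial (Fin n) ℂ) (δ : T → ℕ)
  (hf : ∀ t, (f t).IsHomogeneous (δ t)) (hδ : ∀ t, 0 < δ t) (hNC : NormalCrossings f)
  (hn : 2 ≤ n) (a : T → ℕ) (ha : ∀ t, 0 < a t)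

/-- an enumeration of a finite set which starts with a given element -/
theorem exists_enum (t0 : T) : ∃ (r : ℕ) (e : Fin (r + 1) ≃ T), e 0 = t0 := by
  classical
  obtain ⟨r, hr⟩ : ∃ r, Fintype.card T = r + 1 :=
    ⟨Fintype.card T - 1, by have := Fintype.card_pos_iff.2 ⟨t0⟩; omega⟩
  let e0 : Fin (r + 1) ≃ T := (finCongr hr.symm).trans (Fintype.equivFin T).symm
  exact ⟨r, (Equiv.swap 0 (e0.symm t0)).trans e0, by simp⟩

include hf hδ hNC hn ha in
/-- **The roots from the exceptional divisor.** -/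
theorem root_exc (b : Polynomial ℂ) (hb : IsBFunction (prodPow f a) b) (k : ℕ) (t0 : T)
    (hk : (k = 0 ∧ 2 ≤ δ t0) ∨ k + 3 ≤ δ t0) :
    b.eval (-(((n : ℂ) + k) / (∑ t, a t * δ t : ℕ))) = 0 := by
  classical
  obtain ⟨r, e, he⟩ := exists_enum t0
  let e' : ℕ → T := fun i => if h : i < r + 1 then e ⟨i, h⟩ else t0
  have he' : ∀ i : Fin (r + 1), e' i = e i := fun i => dif_pos i.2
  have he0 : e' 0 = t0 := by
    have := he' 0
    rw [he] at this
    exact this
  have hprod : prodPow f a = ∏ i ∈ Finset.range (r + 1), f (e' i) ^ a (e' i) := by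
    rw [prodPow, Finset.prod_range]
    refine (Fintype.prod_equiv e _ _ fun i => ?_).symm
    rw [he']
  have hsum : ∑ t, a t * δ t = ∑ i ∈ Finset.range (r + 1), a (e' i) * δ (e' i) := by
    rw [Finset.sum_range]
    refine (Fintype.sum_equiv e _ _ fun i => ?_).symm
    rw [he']
  have hNC' : NC (fun i => f (e' i)) r := by
    intro x hx y h1 h2 i hi
    have h3 := hNC x hx
    rw [Fintype.linearIndependent_iff] at h3
    have h4 : ∀ t, y (e.symm t) ≠ 0 → eval x (f t) = 0 := by
      intro t ht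
      have h5 := h1 (e.symm t) (by have := (e.symm t).2; omega)
      beta_reduce at h5
      rw [he', e.apply_symm_apply] at h5
      exact (mul_eq_zero.1 h5).resolve_left ht
    have h5 := h3 (fun t => y (e.symm t.1)) (by
      funext j
      rw [Finset.sum_apply, Pi.zero_apply]
      refine Eq.trans ?_ (h2 j)
      have h6 : ∑ i ∈ Finset.range (r + 1), y i * eval x (pderiv j (f (e' i))) =
          ∑ t, y (e.symm t) * eval x (pderiv j (f t)) := by
        rw [Finset.sum_range]
        refine Fintype.sum_equiv e _ _ fun i => ?_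
        rw [he', e.symm_apply_apply]
      rw [h6, ← Fintype.sum_subtype_add_sum_subtype (fun t => eval x (f t) = 0)]
      have h7 : ∑ t : {t // ¬ eval x (f t) = 0}, y (e.symm t.1) * eval x (pderiv j (f t.1)) = 0 := by
        refine Finset.sum_eq_zero fun t _ => ?_
        by_cases h8 : y (e.symm t.1) = 0
        · rw [h8, zero_mul]
        · exact absurd (h4 _ h8) t.2
      rw [h7, add_zero]
      rfl)
    by_contra hne
    have h8 : eval x (f (e' i)) = 0 := (mul_eq_zero.1 (h1 i hi)).resolve_left hne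
    have h9 := h5 ⟨e' i, h8⟩
    have h10 : e' i = e ⟨i, by omega⟩ := he' ⟨i, by omega⟩
    apply hne
    have h11 : ((e.symm (e' i) : Fin (r + 1)) : ℕ) = i := by rw [h10, e.symm_apply_apply]
    beta_reduce at h9
    rwa [h11] at h9
  have h := root (fun i => f (e' i)) (fun i => δ (e' i)) (fun i => hf _) (fun i => hδ _) r hNC' hn k
    (by rw [he0]; exact hk) (fun i => a (e' i)) (fun i _ => ha _) _ hprod _ hsum b hb
  exact h

include hf hδ hNC hn in
/-- **The roots from the components.** -/
theorem root_str (b : Polynomial ℂ) (hb : IsBFunction (prodPow f a) b) (t : T) (l : ℕ)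
    (hl : l < a t) : b.eval (-((l : ℂ) + 1) / a t) = 0 := by
  classical
  obtain ⟨p, hp0, hp, hps⟩ := exists_point f δ hf hδ hNC hn t
  obtain ⟨s, hs⟩ := hNC.grad_ne p hp0 t hp
  refine smooth_root (prodPow f a) (f t) (∏ r ∈ Finset.univ.erase t, f r ^ a r) (a t) ?_ p hp s hs
    ?_ b hb l hl
  · rw [prodPow, Finset.mul_prod_erase _ (fun t => f t ^ a t) (Finset.mem_univ t)]
  · rw [map_prod]
    refine Finset.prod_ne_zero_iff.2 fun r hr => ?_
    rw [map_pow]
    exact pow_ne_zero _ (hps r (Finset.mem_erase.1 hr).1)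

include hf hδ hNC hn ha in
/-- **All candidates are roots.** -/
theorem cand_root (h2 : ∃ t, 2 ≤ δ t) (b : Polynomial ℂ) (hb : IsBFunction (prodPow f a) b)
    (o : Option T) : b.eval (-(nuB n T o : ℂ) / mulB δ a o) = 0 := by
  rcases o with _ | t
  · obtain ⟨t0, ht0⟩ := h2
    have h := root_exc f δ hf hδ hNC hn a ha b hb 0 t0 (Or.inl ⟨rfl, ht0⟩)
    rw [Nat.cast_zero, add_zero, ← neg_div] at h
    exact h
  · have h := root_str f δ hf hδ hNC hn a b hb t 0 (ha t)
    rw [Nat.cast_zero, zero_add] at h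
    change b.eval (-((1 : ℕ) : ℂ) / a t) = 0
    rw [Nat.cast_one]
    exact h

include hf hNC hn in
theorem prodPow_hom : (prodPow f a).IsHomogeneous (∑ t, a t * δ t) ∧ prodPow f a ≠ 0 := by
  refine ⟨IsHomogeneous.prod _ _ _ fun t _ => ?_, Finset.prod_ne_zero_iff.2 fun t _ =>
    pow_ne_zero _ (hNC.ne hn t)⟩
  rw [mul_comm]
  exact (hf t).pow _

end Pool.Agent.U841.SN
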