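import Pool.Agent.U841.SN.Defs

set_option autoImplicit false

/-! # Tangent cones with normal crossings -/

namespace Pool.Agent.U841.SN

open MvPolynomial

/-- The polynomial `F(x + p)`. -/
noncomputable def shiftP {σ : Type} (p : σ → ℂ) : MvPolynomial σ ℂ →ₐ[ℂ] MvPolynomial σ ℂ :=
  aeval fun i => X i + C (p i)

/-- The multiplicity of `F` at the point `p`: the least degree of a nonzero homogeneous component of
`F(x + p)`. -/
noncomputable def multAt {σ : Type} (p : σ → ℂ) (F : MvPolynomial σ ℂ) : ℕ :=
  sInf {i | homogeneousComponent i (shiftP p F) ≠ 0}

/-- The initial form of `F` at the point `p`: the homogeneous component of `F(x + p)` of the least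
degree. It is the equation of the tangent cone of the hypersurface `F = 0` at `p`. -/
noncomputable def initAt {σ : Type} (p : σ → ℂ) (F : MvPolynomial σ ℂ) : MvPolynomial σ ℂ :=
  homogeneousComponent (multAt p F) (shiftP p F)

/-- The hypersurfaces `f t = 0` are smooth and cross normally at `p`: the gradients at `p` of those
`f t` which vanish at `p` are linearly independent. -/
def CrossAt {σ T : Type} (f : T → MvPolynomial σ ℂ) (p : σ → ℂ) : Prop :=
  LinearIndependent ℂ fun t : {t : T // eval p (f t) = 0} => fun j : σ => eval p (pderiv j (f t.1))

/-- The tangent cones at `p` of those hypersurfaces `f t = 0` which contain `p` cross normally away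
from the vertex: the corresponding hypersurfaces of the projective space of the lines through `p` are
smooth and cross normally. -/
def ConesCrossAt {σ T : Type} (f : T → MvPolynomial σ ℂ) (p : σ → ℂ) : Prop :=
  NormalCrossings fun t : {t : T // eval p (f t) = 0} => initAt p (f t.1)

/-- The numbers `ν` after the blow-up of the points of `S`: `n` for the exceptional divisors, `1` for
the strict transforms. -/
def nuS {σ : Type} (n : ℕ) (S : Finset (σ → ℂ)) (T : Type) : S ⊕ T → ℕ :=
  Sum.elim (fun _ => n) fun _ => 1

/-- The multiplicities of `∏ t, f t ^ a t` after the blow-up of the points of `S`: the multiplicity at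
`p` of this product along the exceptional divisor over `p`, and `a t` along the strict transform
of `f t = 0`. -/
noncomputable def mulS {σ T : Type} [Fintype T] (S : Finset (σ → ℂ)) (f : T → MvPolynomial σ ℂ)
    (a : T → ℕ) : S ⊕ T → ℕ :=
  Sum.elim (fun p => ∑ t, a t * multAt p.1 (f t)) a

/-- The component meets the fibre over the point `p`: it is the exceptional divisor over `p`, or the
strict transform of a hypersurface `f t = 0` which contains `p`. -/
def MeetsFibre {σ T : Type} (S : Finset (σ → ℂ)) (f : T → MvPolynomial σ ℂ) (p : σ → ℂ) :
    S ⊕ T → Prop :=
  Sum.elim (fun q => q.1 = p) fun t => eval p (f t) = 0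

/-- The multiplicities of `∏ t, f t ^ a t` after the blow-up of the point `p`: the multiplicity at `p`
of this product along the exceptional divisor (`none`), and `a t` along the strict transform
of `f t = 0` (`some t`). -/
noncomputable def mulP {σ T : Type} [Fintype T] (p : σ → ℂ) (f : T → MvPolynomial σ ℂ)
    (a : T → ℕ) : Option T → ℕ :=
  fun o => o.elim (∑ t, a t * multAt p (f t)) a

/-- The component occurs near the fibre over the point `p`: the strict transforms of the hypersurfaces
`f t = 0` which contain `p`, and, unless these cross normally at `p`, the exceptional divisor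
over `p`. -/
def OverP {σ T : Type} (p : σ → ℂ) (f : T → MvPolynomial σ ℂ) : Option T → Prop :=
  fun o => o.elim (¬ CrossAt f p) fun t => eval p (f t) = 0

end Pool.Agent.U841.SN
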