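import Pool.Agent.U841.SN.Final
import Pool.Agent.Y228.RR.Top
import Pool.Agent.W574.MO.Homog
import Pool.Agent.R852.BM.Defs

set_option autoImplicit false

/-! # The zeta functions of a product of powers of forms with normal crossings -/

namespace Pool.Agent.U841.SN

open MvPolynomial Pool.Agent.H628R4.TP Pool.Agent.TH192.DT Pool.Agent.R852.BM

variable {n : ℕ} {T : Type} [Fintype T] (f : T → MvPolynomial (Fin n) ℂ) (δ : T → ℕ)
  (hf : ∀ t, (f t).IsHomogeneous (δ t)) (hδ : ∀ t, 0 < δ t) (hNC : NormalCrossings f)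
  (hn : 2 ≤ n) (a : T → ℕ) (ha : ∀ t, 0 < a t) (h2 : ∃ t, 2 ≤ δ t)

theorem nuB_pos (hn : 2 ≤ n) (o : Option T) : 0 < nuB n T o := by
  rcases o with _ | t
  · change 0 < n
    omega
  · exact one_pos

include hf hδ hNC hn ha h2 in
/-- **The poles of the topological zeta function.** -/
theorem top_root (b : Polynomial ℂ) (hb : IsBFunction (prodPow f a) b)
    (χ : Finset (Option T) → ℤ) (s₀ : ℂ)
    (hs : (topZ (nuB n T) (mulB δ a) χ).denom.eval s₀ = 0) : b.eval s₀ = 0 := by
  obtain ⟨J, _, o, _, _, rfl⟩ := Pool.Agent.Y228.RR.pole_topZ' _ _ χ (nuB_pos hn) s₀ hs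
  exact cand_root f δ hf hδ hNC hn a ha h2 b hb o

include hf hNC hn in
/-- **Local functional equations at the origin are global.** -/
theorem global_of_local' (b : Polynomial ℂ) (hb : IsLocalBFunction (prodPow f a) b) :
    IsBFunction (prodPow f a) b := by
  obtain ⟨h1, h3⟩ := prodPow_hom f δ hf hNC hn a
  exact Pool.Agent.W574.MO.global_of_local _ h3 _ h1 b hb

include hf hδ hNC hn ha h2 in
/-- **The denominators of the motivic zeta function.** -/
theorem mot_mem (b : Polynomial ℂ) (hb : IsBFunction (prodPow f a) b) {R : Type} [CommRing R]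
    (u : Rˣ) (c : Finset {o // 0 < mulB δ a o} → R) :
    dlZ u (nuB n T) (mulB δ a) c ∈ ratU u (RootPairs b) := by
  refine dlZ_mem_of u _ _ c _ fun J _ o _ => ⟨?_, ?_, ?_⟩
  · have := nuB_pos (T := T) hn o.1
    change -(nuB n T o.1 : ℤ) < 0
    omega
  · change (0 : ℤ) < (mulB δ a o.1 : ℤ)
    exact_mod_cast o.2
  · have h := cand_root f δ hf hδ hNC hn a ha h2 b hb o.1
    change b.eval (((-(nuB n T o.1 : ℤ) : ℤ) : ℂ) / ((mulB δ a o.1 : ℤ) : ℂ)) = 0
    push_cast
    exact h

end Pool.Agent.U841.SN
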