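import Pool.Agent.U841.SN.Assem
import Pool.Agent.U841.SN.Top

set_option autoImplicit false

/-! # The roots of the Bernstein-Sato polynomials of hypersurfaces whose tangent cones have normal
crossings -/

namespace Pool.Agent.U841.SN

open MvPolynomial Pool.Agent.H628R4.TP Pool.Agent.TH192.DT Pool.Agent.R852.BM

variable {n : ℕ} {T : Type} [Fintype T] {f : T → MvPolynomial (Fin n) ℂ} (hn : 2 ≤ n)
  {a : T → ℕ} (ha : ∀ t, 0 < a t) (hcone : ∀ p, ConesCrossAt f p) (S : Finset (Fin n → ℂ))
  (hS : ∀ p, p ∈ S → ¬ CrossAt f p)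

/-- the zeros of a polynomial -/
theorem exists_zero' (F : MvPolynomial (Fin n) ℂ) (hF : ¬ IsUnit F) : ∃ p, eval p F = 0 := by
  by_cases h0 : F = 0
  · exact ⟨0, by rw [h0, map_zero]⟩
  · obtain ⟨q, hq, r, hr⟩ := WfDvdMonoid.exists_irreducible_factor hF h0
    by_contra h
    push Not at h
    have h1 := null q 1 hq.prime fun x hx => absurd (by rw [hr, map_mul, hx, zero_mul]) (h x)
    exact hq.not_isUnit (isUnit_of_dvd_one h1)

include hn ha hcone hS in
/-- **Global: all candidates are roots.** -/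
theorem glob_cand (hu : ∀ t, ¬ IsUnit (f t)) (b : Polynomial ℂ)
    (hb : IsBFunction (prodPow f a) b) (o : S ⊕ T) :
    b.eval (-(nuS n S T o : ℂ) / mulS S f a o) = 0 := by
  rcases o with p | t
  · have h := pt_exc hn p.1 ha (hcone p.1) (hS p.1 p.2) b
      (algLoc_of_global (bfun_shift p.1 _ b hb))
    rw [← neg_div] at h
    exact h
  · obtain ⟨p, hp⟩ := exists_zero' (f t) (hu t)
    have h := pt_str hn p (hcone p) b (algLoc_of_global (bfun_shift p _ b hb)) t hp 0 (ha t)
    rw [Nat.cast_zero, zero_add] at h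
    change b.eval (-((1 : ℕ) : ℂ) / a t) = 0
    rw [Nat.cast_one]
    exact h

omit [Fintype T] in
theorem prodPow_ne [Fintype T] (hn : 2 ≤ n) (p : Fin n → ℂ) (hcone : ConesCrossAt f p) :
    shiftP p (prodPow f a) ≠ 0 := by
  intro h
  have h1 : prodPow f a = 0 := shiftP_inj p (by rw [h, map_zero])
  rw [prodPow, Finset.prod_eq_zero_iff] at h1
  obtain ⟨t, _, ht⟩ := h1
  have h2 := eq_zero_of_pow_eq_zero ht
  have h3 := hcone.ne hn ⟨t, by rw [h2, map_zero]⟩
  apply h3
  change initAt p (f t) = 0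
  rw [initAt, h2, map_zero, map_zero]

include hn ha in
/-- **Local: all candidates are roots.** -/
theorem loc_cand' (p : Fin n → ℂ) (hcone : ConesCrossAt f p) (b : Polynomial ℂ)
    (hb : IsLocalBFunction (shiftP p (prodPow f a)) b) (o : Option T) (ho : OverP p f o) :
    b.eval (-(nuB n T o : ℂ) / mulP p f a o) = 0 := by
  have hb' : AlgLoc (shiftP p (prodPow f a)) b := algLoc_of_local (prodPow_ne hn p hcone) hb
  rcases o with _ | t
  · have h := pt_exc hn p ha hcone ho b hb'
    rw [← neg_div] at h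
    exact h
  · have h := pt_str hn p hcone b hb' t ho 0 (ha t)
    rw [Nat.cast_zero, zero_add] at h
    change b.eval (-((1 : ℕ) : ℂ) / a t) = 0
    rw [Nat.cast_one]
    exact h

include hn ha hcone hS in
/-- **Local: all candidates are roots.** -/
theorem loc_cand (p : Fin n → ℂ) (b : Polynomial ℂ)
    (hb : IsLocalBFunction (shiftP p (prodPow f a)) b) (o : S ⊕ T) (ho : MeetsFibre S f p o) :
    b.eval (-(nuS n S T o : ℂ) / mulS S f a o) = 0 := by
  have hb' : AlgLoc (shiftP p (prodPow f a)) b := algLoc_of_local (prodPow_ne hn p (hcone p)) hb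
  rcases o with q | t
  · have hqp : q.1 = p := ho
    subst hqp
    have h := pt_exc hn q.1 ha (hcone q.1) (hS q.1 q.2) b hb'
    rw [← neg_div] at h
    exact h
  · have h := pt_str hn p (hcone p) b hb' t ho 0 (ha t)
    rw [Nat.cast_zero, zero_add] at h
    change b.eval (-((1 : ℕ) : ℂ) / a t) = 0
    rw [Nat.cast_one]
    exact h

theorem nuS_pos (hn : 2 ≤ n) (o : S ⊕ T) : 0 < nuS n S T o := by
  rcases o with p | t
  · change 0 < n
    omega
  · exact one_pos

end Pool.Agent.U841.SN
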