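import Mathlib

set_option autoImplicit false

/-! # Forms with normal crossings -/

namespace Pool.Agent.U841.SN

open MvPolynomial

/-- **Normal crossings away from the origin**: at every point `x ≠ 0` the gradients of those `f t`
which vanish at `x` are linearly independent. For forms `f t` of positive degrees in `n ≥ 2` variables
this says that the hypersurfaces `f t = 0` of the projective space `ℙ^(n-1)` are smooth, and that their
union is a divisor with normal crossings. -/
def NormalCrossings {σ T : Type} (f : T → MvPolynomial σ ℂ) : Prop :=
  ∀ x : σ → ℂ, x ≠ 0 → LinearIndependent ℂ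
    fun t : {t : T // eval x (f t) = 0} => fun j : σ => eval x (pderiv j (f t.1))

/-- The product `∏ t, f t ^ a t`. -/
noncomputable def prodPow {σ T : Type} [Fintype T] (f : T → MvPolynomial σ ℂ) (a : T → ℕ) :
    MvPolynomial σ ℂ :=
  ∏ t, f t ^ a t

/-- The numbers `ν` of the components of the total transform after the blow-up of the origin of
`ℂ ^ n`: `n` for the exceptional divisor (`none`), `1` for the strict transforms. -/
def nuB (n : ℕ) (T : Type) : Option T → ℕ := fun o => o.elim n fun _ => 1

/-- The multiplicities of `∏ t, f t ^ a t` after the blow-up of the origin, where `δ t` is the degree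
of `f t`: `∑ t, a t * δ t` along the exceptional divisor (`none`), and `a t` along the strict transform
of `f t = 0`. -/
def mulB {T : Type} [Fintype T] (δ a : T → ℕ) : Option T → ℕ := fun o => o.elim (∑ t, a t * δ t) a

end Pool.Agent.U841.SN
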