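import Pool.Agent.U841.SN.Top

set_option autoImplicit false

/-! # Principal ideals, and forms over subfields -/

namespace Pool.Agent.U841.SN

open MvPolynomial Pool.Agent.H628R4.TP Pool.Agent.TH192.DT Pool.Agent.W574.SM

/-- a functional equation of a principal ideal -/
theorem bfunction_of_unit {σ : Type} (F : MvPolynomial σ ℂ) (b : Polynomial ℂ)
    (hb : IsFunctionalEq (fun _ : Unit => F) b) : IsBFunction F b := by
  classical
  obtain ⟨S, P, hS, h⟩ := hb
  have hone : ∀ c ∈ S, c = fun _ => 1 := by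
    intro c hc
    funext x
    have := hS c hc
    simpa using this
  let P' : ℕ →₀ weyl σ := ∑ c ∈ S, (P c).mapDomain fun β => β ()
  have hP' : ∀ s : ℕ, P'.sum (fun m Q => ((s : ℂ) ^ m) • (Q : Module.End ℂ (MvPolynomial σ ℂ))
      (F ^ (s + 1))) = ∑ c ∈ S, applyAt (P c) (fun _ => s) (F ^ (s + 1)) := by
    intro s
    let H : ℕ → weyl σ → MvPolynomial σ ℂ := fun m Q =>
      ((s : ℂ) ^ m) • (Q : Module.End ℂ (MvPolynomial σ ℂ)) (F ^ (s + 1))
    have hz : ∀ m : ℕ, H m 0 = 0 := fun m => by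
      change ((s : ℂ) ^ m) • ((0 : weyl σ) : Module.End ℂ (MvPolynomial σ ℂ)) (F ^ (s + 1)) = 0
      simp
    have hadd : ∀ (m : ℕ) (Q1 Q2 : weyl σ), H m (Q1 + Q2) = H m Q1 + H m Q2 := fun m Q1 Q2 => by
      change ((s : ℂ) ^ m) • ((Q1 + Q2 : weyl σ) : Module.End ℂ (MvPolynomial σ ℂ))
        (F ^ (s + 1)) = ((s : ℂ) ^ m) • (Q1 : Module.End ℂ (MvPolynomial σ ℂ)) (F ^ (s + 1)) +
        ((s : ℂ) ^ m) • (Q2 : Module.End ℂ (MvPolynomial σ ℂ)) (F ^ (s + 1))
      simp [smul_add]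
    change P'.sum H = _
    have h1 : P'.sum H = ∑ c ∈ S, ((P c).mapDomain fun β => β ()).sum H :=
      (Finsupp.sum_finsetSum_index (h := H) hz hadd).symm
    rw [h1]
    refine Finset.sum_congr rfl fun c _ => ?_
    rw [Finsupp.sum_mapDomain_index (h := H) hz hadd, applyAt]
    refine Finsupp.sum_congr fun β _ => ?_
    change ((s : ℂ) ^ β ()) • ((P c β : weyl σ) : Module.End ℂ (MvPolynomial σ ℂ))
      (F ^ (s + 1)) = _
    simp
  refine ⟨P', fun s => ?_⟩
  have h1 := h fun _ => s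
  simp only [Finset.univ_unique, Finset.sum_singleton, Finset.prod_singleton] at h1
  rw [h1]
  refine Eq.trans ?_ (hP' s).symm
  refine Finset.sum_congr rfl fun c hc => ?_
  rw [hone c hc]
  have h2 : ((s : ℤ) + 1).toNat = s + 1 := by omega
  rw [h2, if_neg (by norm_num), Nat.cast_one, C_1, one_mul]

/-- the pairs, for forms over a subfield -/
theorem pairs_good (k : Type) [Field k] [Algebra k ℂ] {n : ℕ} {T : Type} [Fintype T] (hn : 2 ≤ n)
    (f : T → MvPolynomial (Fin n) k) (δ : T → ℕ) (hf : ∀ t, (f t).IsHomogeneous (δ t))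
    (hδ : ∀ t, 0 < δ t) (hNC : NormalCrossings fun t => map (algebraMap k ℂ) (f t))
    (h2 : ∃ t, 2 ≤ δ t) (a : T → ℕ) (ha : ∀ t, 0 < a t) :
    (∀ q ∈ pairs (nuB n T) (mulB δ a), q.1 < 0 ∧ 0 < q.2 ∧ ∀ b : Polynomial ℂ,
        IsBFunction (map (algebraMap k ℂ) (∏ t, f t ^ a t)) b → b.eval ((q.1 : ℂ) / q.2) = 0) ∧
      ∀ (R : Type) [CommRing R] (u : Rˣ) (c : Finset {o // 0 < mulB δ a o} → R),
        dlZ u (nuB n T) (mulB δ a) c ∈ ratU u (pairs (nuB n T) (mulB δ a) : Set (ℤ × ℤ)) := by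
  refine ⟨fun q hq => ?_, fun R _ u c => dlZ_mem u _ _ c⟩
  obtain ⟨h3, h4⟩ := pairs_sign (nuB n T) (mulB δ a) (nuB_pos hn) q hq
  refine ⟨h3, h4, fun b hb => ?_⟩
  obtain ⟨o, ho, rfl⟩ := Finset.mem_image.1 hq
  have he : map (algebraMap k ℂ) (∏ t, f t ^ a t) =
      prodPow (fun t => map (algebraMap k ℂ) (f t)) a := by
    rw [prodPow, map_prod]
    exact Finset.prod_congr rfl fun t _ => map_pow _ _ _
  rw [he] at hb
  have h := cand_root (fun t => map (algebraMap k ℂ) (f t)) δ (fun t => (hf t).map _) hδ hNC hn a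
    ha h2 b hb o
  push_cast
  exact h

end Pool.Agent.U841.SN
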