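import Pool.Agent.U841.SN.Glob2
import Pool.Agent.U841.SN.Unit

set_option autoImplicit false

/-! # Zeta functions of hypersurfaces whose tangent cones have normal crossings -/

namespace Pool.Agent.U841.SN

open MvPolynomial Pool.Agent.H628R4.TP Pool.Agent.TH192.DT Pool.Agent.R852.BM

variable {n : ℕ} {T : Type} [Fintype T] {f : T → MvPolynomial (Fin n) ℂ} (hn : 2 ≤ n)
  {a : T → ℕ} (ha : ∀ t, 0 < a t) (hcone : ∀ p, ConesCrossAt f p) (S : Finset (Fin n → ℂ))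
  (hS : ∀ p, p ∈ S → ¬ CrossAt f p)

include hn ha hcone hS in
/-- **The poles of the topological zeta function.** -/
theorem glob_top (hu : ∀ t, ¬ IsUnit (f t)) (b : Polynomial ℂ) (hb : IsBFunction (prodPow f a) b)
    (χ : Finset (S ⊕ T) → ℤ) (s₀ : ℂ)
    (hs : (topZ (nuS n S T) (mulS S f a) χ).denom.eval s₀ = 0) : b.eval s₀ = 0 := by
  obtain ⟨J, _, o, _, _, rfl⟩ := Pool.Agent.Y228.RR.pole_topZ' _ _ χ (nuS_pos S hn) s₀ hs
  exact glob_cand hn ha hcone S hS hu b hb o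

include hn ha in
/-- **The poles of the local topological zeta function.** -/
theorem loc_top' (p : Fin n → ℂ) (hcone : ConesCrossAt f p) (b : Polynomial ℂ)
    (hb : IsLocalBFunction (shiftP p (prodPow f a)) b) (χ : Finset (Option T) → ℤ)
    (hχ : ∀ J, χ J ≠ 0 → ∀ o ∈ J, OverP p f o) (s₀ : ℂ)
    (hs : (topZ (nuB n T) (mulP p f a) χ).denom.eval s₀ = 0) : b.eval s₀ = 0 := by
  obtain ⟨J, hJ, o, ho, _, rfl⟩ := Pool.Agent.Y228.RR.pole_topZ' _ _ χ (nuB_pos hn) s₀ hs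
  exact loc_cand' hn ha p hcone b hb o (hχ J hJ o ho)

include hn ha hcone hS in
/-- **The poles of the local topological zeta function.** -/
theorem loc_top (p : Fin n → ℂ) (b : Polynomial ℂ)
    (hb : IsLocalBFunction (shiftP p (prodPow f a)) b) (χ : Finset (S ⊕ T) → ℤ)
    (hχ : ∀ J, χ J ≠ 0 → ∀ o ∈ J, MeetsFibre S f p o) (s₀ : ℂ)
    (hs : (topZ (nuS n S T) (mulS S f a) χ).denom.eval s₀ = 0) : b.eval s₀ = 0 := by
  obtain ⟨J, hJ, o, ho, _, rfl⟩ := Pool.Agent.Y228.RR.pole_topZ' _ _ χ (nuS_pos S hn) s₀ hs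
  exact loc_cand hn ha hcone S hS p b hb o (hχ J hJ o ho)

include hn ha hcone hS in
/-- **The denominators of the motivic zeta function.** -/
theorem glob_mot (hu : ∀ t, ¬ IsUnit (f t)) (b : Polynomial ℂ) (hb : IsBFunction (prodPow f a) b)
    {R : Type} [CommRing R] (u : Rˣ) (c : Finset {o // 0 < mulS S f a o} → R) :
    dlZ u (nuS n S T) (mulS S f a) c ∈ ratU u (RootPairs b) := by
  refine dlZ_mem_of u _ _ c _ fun J _ o _ => ⟨?_, ?_, ?_⟩
  · have := nuS_pos (T := T) S hn o.1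
    change -(nuS n S T o.1 : ℤ) < 0
    omega
  · change (0 : ℤ) < (mulS S f a o.1 : ℤ)
    exact_mod_cast o.2
  · have h := glob_cand hn ha hcone S hS hu b hb o.1
    change b.eval (((-(nuS n S T o.1 : ℤ) : ℤ) : ℂ) / ((mulS S f a o.1 : ℤ) : ℂ)) = 0
    push_cast
    exact h

include hn ha hcone hS in
/-- **The denominators of the local motivic zeta function.** -/
theorem loc_mot (p : Fin n → ℂ) (b : Polynomial ℂ)
    (hb : IsLocalBFunction (shiftP p (prodPow f a)) b)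
    {R : Type} [CommRing R] (u : Rˣ) (c : Finset {o // 0 < mulS S f a o} → R)
    (hc : ∀ J, c J ≠ 0 → ∀ o ∈ J, MeetsFibre S f p o.1) :
    dlZ u (nuS n S T) (mulS S f a) c ∈ ratU u (RootPairs b) := by
  refine dlZ_mem_of u _ _ c _ fun J hJ o ho => ⟨?_, ?_, ?_⟩
  · have := nuS_pos (T := T) S hn o.1
    change -(nuS n S T o.1 : ℤ) < 0
    omega
  · change (0 : ℤ) < (mulS S f a o.1 : ℤ)
    exact_mod_cast o.2
  · have h := loc_cand hn ha hcone S hS p b hb o.1 (hc J hJ o ho)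
    change b.eval (((-(nuS n S T o.1 : ℤ) : ℤ) : ℂ) / ((mulS S f a o.1 : ℤ) : ℂ)) = 0
    push_cast
    exact h

/-- the pairs, for polynomials over subfields -/
theorem pairs_good2 (k : Type) [Field k] [Algebra k ℂ] {n : ℕ} {T : Type} [Fintype T] (hn : 2 ≤ n)
    (f : T → MvPolynomial (Fin n) k)
    (hcone : ∀ p, ConesCrossAt (fun t => map (algebraMap k ℂ) (f t)) p)
    (hu : ∀ t, ¬ IsUnit (map (algebraMap k ℂ) (f t))) (S : Finset (Fin n → ℂ))
    (hS : ∀ p, p ∈ S → ¬ CrossAt (fun t => map (algebraMap k ℂ) (f t)) p) (a : T → ℕ)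
    (ha : ∀ t, 0 < a t) :
    ∀ q ∈ pairs (nuS n S T) (mulS S (fun t => map (algebraMap k ℂ) (f t)) a),
      q.1 < 0 ∧ 0 < q.2 ∧ ∀ b : Polynomial ℂ,
        IsBFunction (map (algebraMap k ℂ) (∏ t, f t ^ a t)) b → b.eval ((q.1 : ℂ) / q.2) = 0 := by
  intro q hq
  obtain ⟨h3, h4⟩ := pairs_sign (nuS n S T) (mulS S (fun t => map (algebraMap k ℂ) (f t)) a)
    (nuS_pos S hn) q hq
  refine ⟨h3, h4, fun b hb => ?_⟩
  obtain ⟨o, ho, rfl⟩ := Finset.mem_image.1 hq
  have he : map (algebraMap k ℂ) (∏ t, f t ^ a t) =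
      prodPow (fun t => map (algebraMap k ℂ) (f t)) a := by
    rw [prodPow, map_prod]
    exact Finset.prod_congr rfl fun t _ => map_pow _ _ _
  rw [he] at hb
  have h := glob_cand hn ha hcone S hS hu b hb o
  push_cast
  exact h

/-- a series with several components of the same numbers -/
theorem dlZ_pull {I ι : Type} [Fintype I] [Fintype ι] (κ : I → ι) (ν N : ι → ℕ) {R : Type}
    [CommRing R] (u : Rˣ) (c : Finset {i // 0 < (N ∘ κ) i} → R) :
    dlZ u (ν ∘ κ) (N ∘ κ) c ∈ ratU u (pairs ν N : Set (ℤ × ℤ)) :=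
  dlZ_mem_of u _ _ c _ fun _ _ i _ => mem_pairs ν N (κ i.1) i.2

end Pool.Agent.U841.SN
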