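import Pool.Agent.U841.SN.Shift

set_option autoImplicit false

/-! # The roots at a point at which the tangent cones have normal crossings -/

namespace Pool.Agent.U841.SN

open MvPolynomial Pool.Agent.H628R4.TP

variable {n : ℕ} {T : Type} [Fintype T] (f : T → MvPolynomial (Fin n) ℂ) (hn : 2 ≤ n)
  (a : T → ℕ) (p : Fin n → ℂ)

/-- the splitting of the product -/
theorem split_prod : ∃ U : MvPolynomial (Fin n) ℂ, constantCoeff U ≠ 0 ∧
    shiftP p (prodPow f a) = U * prodPow (fun t : {t : T // eval p (f t) = 0} =>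
      shiftP p (f t.1)) fun t => a t.1 := by
  classical
  refine ⟨∏ t : {t : T // ¬ eval p (f t) = 0}, shiftP p (f t.1) ^ a t.1, ?_, ?_⟩
  · rw [map_prod]
    refine Finset.prod_ne_zero_iff.2 fun t _ => ?_
    rw [map_pow, cc_shiftP]
    exact pow_ne_zero _ t.2
  · rw [prodPow, map_prod, prodPow, mul_comm, Fintype.prod_subtype_mul_prod_subtype
      (fun t => eval p (f t) = 0) (fun t => shiftP p (f t) ^ a t)]
    exact Finset.prod_congr rfl fun t _ => map_pow _ _ _

theorem sum_mult : ∑ t, a t * multAt p (f t) =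
    ∑ t : {t : T // eval p (f t) = 0}, a t.1 * multAt p (f t.1) := by
  classical
  rw [← Fintype.sum_subtype_add_sum_subtype (fun t => eval p (f t) = 0)]
  have h : ∑ t : {t : T // ¬ eval p (f t) = 0}, a t.1 * multAt p (f t.1) = 0 :=
    Finset.sum_eq_zero fun t _ => by rw [multAt_zero p _ t.2, mul_zero]
  rw [h, add_zero]

/-- the derivatives of the initial form of multiplicity one -/
theorem pderiv_init (F : MvPolynomial (Fin n) ℂ) (h : multAt p F = 1) (j : Fin n) :
    pderiv j (initAt p F) = C (eval p (pderiv j F)) := by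
  rw [initAt, h]
  have h1 := Pool.Agent.U184.hc_pderiv j (shiftP p F) 0
  rw [zero_add] at h1
  rw [← h1, homogeneousComponent_zero, pderiv_shiftP, ← constantCoeff_eq, cc_shiftP]

theorem eval_init (F : MvPolynomial (Fin n) ℂ) (h : multAt p F = 1) (x : Fin n → ℂ) :
    eval x (initAt p F) = ∑ j, x j * eval p (pderiv j F) := by
  have h0 : (initAt p F).IsHomogeneous 1 := by
    rw [initAt, h]
    exact homogeneousComponent_isHomogeneous _ _
  have h1 := congrArg (eval x) h0.sum_X_mul_pderiv
  rw [one_smul, map_sum] at h1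
  rw [← h1]
  refine Finset.sum_congr rfl fun j _ => ?_
  rw [map_mul, eval_X, pderiv_init p F h, eval_C]

variable {f}

/-- smooth points -/
theorem mult_of_grad (F : MvPolynomial (Fin n) ℂ) (h0 : eval p F = 0) (j : Fin n)
    (hj : eval p (pderiv j F) ≠ 0) : multAt p F = 1 := by
  have h1 : homogeneousComponent 1 (shiftP p F) ≠ 0 := by
    intro h
    have h2 := Pool.Agent.U184.hc_pderiv j (shiftP p F) 0
    rw [zero_add, h, map_zero, homogeneousComponent_zero, pderiv_shiftP, ← constantCoeff_eq,
      cc_shiftP, ← C_0 (R := ℂ) (σ := Fin n)] at h2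
    exact hj (C_injective _ _ h2)
  have h3 : multAt p F ≤ 1 :=
    Nat.sInf_le (show 1 ∈ {i | homogeneousComponent i (shiftP p F) ≠ 0} from h1)
  have h4 : homogeneousComponent (multAt p F) (shiftP p F) ≠ 0 :=
    Nat.sInf_mem (s := {i | homogeneousComponent i (shiftP p F) ≠ 0}) ⟨1, h1⟩
  have h5 := ord_pos h4 (by rw [cc_shiftP, h0])
  omega

/-- smooth hypersurfaces which cross normally -/
theorem cones_of_cross (h : CrossAt f p) : ConesCrossAt f p := by
  classical
  intro x hx
  have hm : ∀ t : {t : T // eval p (f t) = 0}, multAt p (f t.1) = 1 := by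
    intro t
    have h1 := LinearIndependent.ne_zero t h
    obtain ⟨j, hj⟩ : ∃ j, eval p (pderiv j (f t.1)) ≠ 0 := by
      by_contra h2
      push Not at h2
      exact h1 (funext h2)
    exact mult_of_grad p (f t.1) t.2 j hj
  have h1 := h.comp (fun t : {t : {t : T // eval p (f t) = 0} //
    eval x (initAt p (f t.1)) = 0} => t.1) Subtype.val_injective
  convert h1 using 1
  funext t j
  change eval x (pderiv j (initAt p (f t.1.1))) = eval p (pderiv j (f t.1.1))
  rw [pderiv_init p _ (hm t.1), eval_C]

/-- the points at which the hypersurfaces do not cross normally -/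
theorem cond_of_not_cross (hcone : ConesCrossAt f p) (h : ¬ CrossAt f p) (hn : 2 ≤ n) :
    (∃ t : {t : T // eval p (f t) = 0}, 2 ≤ multAt p (f t.1)) ∨
      n < Fintype.card {t : T // eval p (f t) = 0} := by
  classical
  by_contra hcon
  rw [not_or] at hcon
  obtain ⟨h1, h2⟩ := hcon
  push Not at h1 h2
  have hm : ∀ t : {t : T // eval p (f t) = 0}, multAt p (f t.1) = 1 := by
    intro t
    have h3 := h1 t
    have h4 := multAt_pos p (f t.1) (hcone.ne hn t) t.2
    omega
  apply h
  rw [CrossAt, Fintype.linearIndependent_iff]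
  intro c hc
  have hc' : ∀ j, ∑ t : {t : T // eval p (f t) = 0}, c t * eval p (pderiv j (f t.1)) = 0 := by
    intro j
    have h3 := congrFun hc j
    rw [Finset.sum_apply] at h3
    exact h3
  let A : (Fin n → ℂ) →ₗ[ℂ] ({t : T // eval p (f t) = 0} → ℂ) :=
    { toFun := fun x t => ∑ j, x j * eval p (pderiv j (f t.1))
      map_add' := fun v w => by
        funext t
        simp only [Pi.add_apply, add_mul, Finset.sum_add_distrib]
      map_smul' := fun c v => by
        funext t
        simp only [Pi.smul_apply, smul_eq_mul, RingHom.id_apply, Finset.mul_sum, mul_assoc] }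
  have hA : ∀ x t, A x t = ∑ j, x j * eval p (pderiv j (f t.1)) := fun _ _ => rfl
  by_cases hinj : Function.Injective A
  · have hsurj : Function.Surjective A := by
      have h3 : Module.finrank ℂ (Fin n → ℂ) =
          Module.finrank ℂ ({t : T // eval p (f t) = 0} → ℂ) := by
        refine le_antisymm (LinearMap.finrank_le_finrank_of_injective hinj) ?_
        rw [Module.finrank_fintype_fun_eq_card, Module.finrank_fintype_fun_eq_card,
          Fintype.card_fin]
        exact h2
      exact (LinearMap.injective_iff_surjective_of_finrank_eq_finrank h3).1 hinj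
    intro t0
    obtain ⟨x, hx⟩ := hsurj (Pi.single t0 1)
    have h3 : ∑ t, c t * A x t = 0 := by
      have h4 : ∀ t, c t * A x t = ∑ j, x j * (c t * eval p (pderiv j (f t.1))) := by
        intro t
        rw [hA, Finset.mul_sum]
        exact Finset.sum_congr rfl fun j _ => by ring
      rw [Finset.sum_congr rfl fun t _ => h4 t, Finset.sum_comm]
      refine Finset.sum_eq_zero fun j _ => ?_
      rw [← Finset.mul_sum, hc', mul_zero]
    rw [hx, Finset.sum_eq_single t0] at h3
    · rwa [Pi.single_eq_same, mul_one] at h3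
    · intro t _ ht
      rw [Pi.single_eq_of_ne ht, mul_zero]
    · intro h
      exact absurd (Finset.mem_univ _) h
  · obtain ⟨x, hx0, hx⟩ : ∃ x : Fin n → ℂ, x ≠ 0 ∧ A x = 0 := by
      rw [← LinearMap.ker_eq_bot] at hinj
      obtain ⟨x, hx, hx0⟩ := (Submodule.ne_bot_iff _).1 hinj
      exact ⟨x, hx0, hx⟩
    have hx1 : ∀ t : {t : T // eval p (f t) = 0}, eval x (initAt p (f t.1)) = 0 := by
      intro t
      rw [eval_init p _ (hm t)]
      exact congrFun hx t
    have h3 := hcone x hx0
    rw [Fintype.linearIndependent_iff] at h3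
    have h4 := h3 (fun t => c t.1) (by
      funext j
      rw [Finset.sum_apply, Pi.zero_apply]
      have h5 : ∑ t : {t : {t : T // eval p (f t) = 0} // eval x (initAt p (f t.1)) = 0},
          c t.1 * eval p (pderiv j (f t.1.1)) =
          ∑ t : {t : T // eval p (f t) = 0}, c t * eval p (pderiv j (f t.1)) := by
        refine Fintype.sum_equiv (Equiv.subtypeUnivEquiv hx1) _ _ fun t => rfl
      refine Eq.trans ?_ (h5.trans (hc' j))
      refine Finset.sum_congr rfl fun t _ => ?_
      change c t.1 * eval x (pderiv j (initAt p (f t.1.1))) = _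
      rw [pderiv_init p _ (hm t.1), eval_C])
    intro t
    exact h4 ⟨t, hx1 t⟩

variable {a}

include hn in
/-- **The root `-n/d` at a point.** -/
theorem pt_exc (ha : ∀ t, 0 < a t) (hcone : ConesCrossAt f p) (h : ¬ CrossAt f p)
    (b : Polynomial ℂ) (hb : AlgLoc (shiftP p (prodPow f a)) b) :
    b.eval (-((n : ℂ) / (∑ t, a t * multAt p (f t) : ℕ))) = 0 := by
  classical
  obtain ⟨U, hU, hU2⟩ := split_prod f a p
  rw [hU2] at hb
  rw [sum_mult]
  exact loc_exc (fun t : {t : T // eval p (f t) = 0} => shiftP p (f t.1))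
    (fun t => multAt p (f t.1)) (fun t => ordGe_multAt p _)
    (fun t => multAt_pos p _ (hcone.ne hn t) t.2) hcone hn (fun t => a t.1) (fun t => ha _) U hU
    (cond_of_not_cross p hcone h hn) b hb

include hn in
/-- **The roots of the components at a point.** -/
theorem pt_str (hcone : ConesCrossAt f p) (b : Polynomial ℂ)
    (hb : AlgLoc (shiftP p (prodPow f a)) b) (t : T) (ht : eval p (f t) = 0) (l : ℕ)
    (hl : l < a t) : b.eval (-((l : ℂ) + 1) / a t) = 0 := by
  classical
  obtain ⟨U, hU, hU2⟩ := split_prod f a p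
  rw [hU2] at hb
  exact loc_str (fun t : {t : T // eval p (f t) = 0} => shiftP p (f t.1))
    (fun t => multAt p (f t.1)) (fun t => ordGe_multAt p _)
    (fun t => multAt_pos p _ (hcone.ne hn t) t.2) hcone hn (fun t => a t.1) U hU b hb ⟨t, ht⟩ l hl

end Pool.Agent.U841.SN
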