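import Pool.Agent.U841.SN.Root2
import Pool.Agent.U841.SN.Final

set_option autoImplicit false

/-! # The root `-n/d` of the local Bernstein-Sato polynomial -/

namespace Pool.Agent.U841.SN

open MvPolynomial Pool.Agent.H628R4.TP

variable {n : ℕ}

/-- the two forms of normal crossings -/
theorem nc_of_enum {T : Type} (f : T → MvPolynomial (Fin n) ℂ) (hNC : NormalCrossings f)
    (r : ℕ) (e : Fin (r + 1) ≃ T) (e' : ℕ → T) (he' : ∀ i : Fin (r + 1), e' i = e i) :
    NC (fun i => f (e' i)) r := by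
  classical
  have : Fintype T := Fintype.ofEquiv _ e
  intro x hx y h1 h2 i hi
  have h3 := hNC x hx
  rw [Fintype.linearIndependent_iff] at h3
  have h4 : ∀ t, y (e.symm t) ≠ 0 → eval x (f t) = 0 := by
    intro t ht
    have h5 := h1 (e.symm t) (by have := (e.symm t).2; omega)
    beta_reduce at h5
    rw [he', e.apply_symm_apply] at h5
    exact (mul_eq_zero.1 h5).resolve_left ht
  have h5 := h3 (fun t => y (e.symm t.1)) (by
    funext j
    rw [Finset.sum_apply, Pi.zero_apply]
    refine Eq.trans ?_ (h2 j)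
    have h6 : ∑ i ∈ Finset.range (r + 1), y i * eval x (pderiv j (f (e' i))) =
        ∑ t, y (e.symm t) * eval x (pderiv j (f t)) := by
      rw [Finset.sum_range]
      refine Fintype.sum_equiv e _ _ fun i => ?_
      rw [he', e.symm_apply_apply]
    rw [h6, ← Fintype.sum_subtype_add_sum_subtype (fun t => eval x (f t) = 0)]
    have h7 : ∑ t : {t // ¬ eval x (f t) = 0}, y (e.symm t.1) * eval x (pderiv j (f t.1)) = 0 := by
      refine Finset.sum_eq_zero fun t _ => ?_
      by_cases h8 : y (e.symm t.1) = 0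
      · rw [h8, zero_mul]
      · exact absurd (h4 _ h8) t.2
    rw [h7, add_zero]
    rfl)
  by_contra hne
  have h8 : eval x (f (e' i)) = 0 := (mul_eq_zero.1 (h1 i hi)).resolve_left hne
  have h9 := h5 ⟨e' i, h8⟩
  have h10 : e' i = e ⟨i, by omega⟩ := he' ⟨i, by omega⟩
  apply hne
  have h11 : ((e.symm (e' i) : Fin (r + 1)) : ℕ) = i := by rw [h10, e.symm_apply_apply]
  beta_reduce at h9
  rwa [h11] at h9

section

variable {T : Type} [Fintype T] (f : T → MvPolynomial (Fin n) ℂ) (δ : T → ℕ)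
  (ho : ∀ t, OrdGe (δ t) (f t)) (hδ : ∀ t, 0 < δ t)
  (hNC : NormalCrossings fun t => homogeneousComponent (δ t) (f t))
  (hn : 2 ≤ n) (a : T → ℕ) (ha : ∀ t, 0 < a t) (U : MvPolynomial (Fin n) ℂ)
  (hU : constantCoeff U ≠ 0)

omit [Fintype T] in
theorem ord_prod (S : Finset T) (ho : ∀ t, OrdGe (δ t) (f t)) :
    OrdGe (∑ t ∈ S, a t * δ t) (∏ t ∈ S, f t ^ a t) ∧
      homogeneousComponent (∑ t ∈ S, a t * δ t) (∏ t ∈ S, f t ^ a t) =
        ∏ t ∈ S, homogeneousComponent (δ t) (f t) ^ a t := by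
  classical
  induction S using Finset.induction_on with
  | empty =>
    refine ⟨fun i hi => absurd hi (Nat.not_lt_zero i), ?_⟩
    rw [Finset.sum_empty, Finset.prod_empty, Finset.prod_empty]
    exact homogeneousComponent_eq_self (isHomogeneous_one _ _)
  | insert t S ht ih =>
    rw [Finset.sum_insert ht, Finset.prod_insert ht, Finset.prod_insert ht]
    have h1 := (ho t).pow (a t)
    rw [mul_comm (δ t)] at h1
    have h := h1.1.mul ih.1
    refine ⟨h.1, ?_⟩
    rw [h.2, ih.2, h1.2]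

include ho in
theorem ord_F : OrdGe (∑ t, a t * δ t) (U * prodPow f a) ∧
    homogeneousComponent (∑ t, a t * δ t) (U * prodPow f a) =
      C (constantCoeff U) * prodPow (fun t => homogeneousComponent (δ t) (f t)) a := by
  have h1 := ord_prod f δ a Finset.univ ho
  have hU0 : OrdGe 0 U := fun i hi => absurd hi (Nat.not_lt_zero i)
  have h := hU0.mul h1.1
  rw [zero_add] at h
  refine ⟨h.1, ?_⟩
  rw [prodPow, h.2, h1.2, homogeneousComponent_zero, prodPow]
  rfl

include ho hδ hNC hn ha hU in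
/-- **The root from the exceptional divisor.** -/
theorem loc_exc (hc : (∃ t, 2 ≤ δ t) ∨ n < Fintype.card T) (b : Polynomial ℂ)
    (hb : AlgLoc (U * prodPow f a) b) :
    b.eval (-((n : ℂ) / (∑ t, a t * δ t : ℕ))) = 0 := by
  classical
  set g : T → MvPolynomial (Fin n) ℂ := fun t => homogeneousComponent (δ t) (f t) with hg
  have hgh : ∀ t, (g t).IsHomogeneous (δ t) := fun t => homogeneousComponent_isHomogeneous _ _
  -- an enumeration
  obtain ⟨t0, ht0⟩ : ∃ t0 : T, 2 ≤ δ t0 ∨ ((∀ t, δ t = 1) ∧ n < Fintype.card T) := by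
    by_cases h2 : ∃ t, 2 ≤ δ t
    · obtain ⟨t, ht⟩ := h2
      exact ⟨t, Or.inl ht⟩
    · have h3 := hc.resolve_left h2
      have h4 : 0 < Fintype.card T := by omega
      obtain ⟨t⟩ := Fintype.card_pos_iff.1 h4
      refine ⟨t, Or.inr ⟨fun t => ?_, h3⟩⟩
      by_contra h5
      have := hδ t
      exact h2 ⟨t, by omega⟩
  obtain ⟨r, e, he⟩ := exists_enum t0
  let e' : ℕ → T := fun i => if h : i < r + 1 then e ⟨i, h⟩ else t0
  have he' : ∀ i : Fin (r + 1), e' i = e i := fun i => dif_pos i.2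
  have he0 : e' 0 = t0 := by
    have := he' 0
    rw [he] at this
    exact this
  have hcard : Fintype.card T = r + 1 := by
    rw [← Fintype.card_congr e, Fintype.card_fin]
  have hprod : prodPow g a = ∏ i ∈ Finset.range (r + 1), g (e' i) ^ a (e' i) := by
    rw [prodPow, Finset.prod_range]
    refine (Fintype.prod_equiv e _ _ fun i => ?_).symm
    rw [he']
  have hsum : ∑ t, a t * δ t = ∑ i ∈ Finset.range (r + 1), a (e' i) * δ (e' i) := by
    rw [Finset.sum_range]
    refine (Fintype.sum_equiv e _ _ fun i => ?_).symm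
    rw [he']
  have hdpos : 0 < ∑ t, a t * δ t :=
    Finset.sum_pos (fun t _ => Nat.mul_pos (ha t) (hδ t)) ⟨t0, Finset.mem_univ _⟩
  obtain ⟨hF1, hF2⟩ := ord_F f δ ho a U
  have hG0 : prodPow g a ≠ 0 :=
    Finset.prod_ne_zero_iff.2 fun t _ => pow_ne_zero _ (hNC.ne hn t)
  have hCU : (C (constantCoeff U) : MvPolynomial (Fin n) ℂ) ≠ 0 := by
    rw [Ne, ← C_0 (R := ℂ) (σ := Fin n)]
    exact fun h => hU (C_injective _ _ h)
  obtain ⟨c, N, V, hc0, hV, hid⟩ := ext_point_t (U * prodPow f a) (∑ t, a t * δ t) hdpos hF1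
    (by rw [hF2]; exact mul_ne_zero hCU hG0) b hb (-((n : ℂ) / (∑ t, a t * δ t : ℕ)))
  rw [hF2] at hid
  have hid' : prodPow g a * ∑ l, pderiv l (V l) + C (-((n : ℂ) / (∑ t, a t * δ t : ℕ)) - N) *
      ∑ l, V l * pderiv l (prodPow g a) = prodPow g a ^ (N + 1) *
        C (constantCoeff U ^ N * (c * b.eval (-((n : ℂ) / (∑ t, a t * δ t : ℕ))))) := by
    apply mul_left_cancel₀ hCU
    have h1 : ∑ l, V l * pderiv l (C (constantCoeff U) * prodPow g a) =
        C (constantCoeff U) * ∑ l, V l * pderiv l (prodPow g a) := by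
      rw [Finset.mul_sum]
      refine Finset.sum_congr rfl fun l _ => ?_
      rw [pderiv_C_mul]
      ring
    have hid2 : C (constantCoeff U) * prodPow g a * ∑ l, pderiv l (V l) +
        C (-((n : ℂ) / (∑ t, a t * δ t : ℕ)) - N) *
          ∑ l, V l * pderiv l (C (constantCoeff U) * prodPow g a) =
        (C (constantCoeff U) * prodPow g a) ^ (N + 1) *
          C (c * b.eval (-((n : ℂ) / (∑ t, a t * δ t : ℕ)))) := hid
    rw [h1] at hid2
    rw [map_mul C (constantCoeff U ^ N), map_pow]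
    linear_combination hid2
  have h := root_id (fun i => g (e' i)) (fun i => δ (e' i)) (fun i => hgh _) (fun i => hδ _) r
    (nc_of_enum g hNC r e e' he') hn (by
      rw [he0]
      rcases ht0 with h | ⟨h1, h2⟩
      · exact Or.inl h
      · exact Or.inr ⟨fun i _ => h1 _, by omega⟩) (fun i => a (e' i)) (fun i _ => ha _)
    (prodPow g a) hprod _ hsum _ N V hV hid'
  exact (mul_eq_zero.1 ((mul_eq_zero.1 h).resolve_left (pow_ne_zero _ hU))).resolve_left hc0

end

end Pool.Agent.U841.SN
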