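import Mathlib

set_option autoImplicit false

/-! # A vanishing lemma for complexes with torsion homology

The complexes are graded by `p : ℤ` (homological degree) and `δ : Γ`. There are commuting operators
`x 0, …, x (n - 1)`, which form a regular sequence, and `u`. If the homology is torsion with respect to
the products `x i * u`, then it is torsion with respect to `u` in the degrees in which
`F (p + n) = (x 0, …, x (n - 1)) F (p + n)`. -/

namespace Pool.Agent.U841.SN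

theorem emul {M : Type} [AddCommGroup M] (f g : AddMonoid.End M) (z : M) :
    (f * g) z = f (g z) := rfl

/-- graded complexes with a regular sequence of operators and with torsion homology -/
structure LSys (M Γ : Type) [AddCommGroup M] [AddCommGroup Γ] (n : ℕ) where
  d : AddMonoid.End M
  F : ℤ → Γ → AddSubgroup M
  I : ℕ → ℤ → Γ → AddSubgroup M
  x : ℕ → AddMonoid.End M
  u : AddMonoid.End M
  ε : ℕ → Γ
  εu : Γ
  T : Set Γ
  dd : ∀ z, d (d z) = 0
  dF : ∀ p δ z, z ∈ F p δ → d z ∈ F (p - 1) δ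
  dI : ∀ i p δ z, z ∈ I i p δ → d z ∈ I i (p - 1) δ
  xF : ∀ i, i < n → ∀ p δ z, z ∈ F p δ → x i z ∈ F p (δ + ε i)
  uF : ∀ p δ z, z ∈ F p δ → u z ∈ F p (δ + εu)
  xI : ∀ j, j < n → ∀ i p δ z, z ∈ I i p δ → x j z ∈ I i p (δ + ε j)
  uI : ∀ i p δ z, z ∈ I i p δ → u z ∈ I i p (δ + εu)
  dx : ∀ i, i < n → ∀ z, d (x i z) = x i (d z)
  du : ∀ z, d (u z) = u (d z)
  xx : ∀ i, i < n → ∀ j, j < n → ∀ z, x i (x j z) = x j (x i z)
  ux : ∀ i, i < n → ∀ z, u (x i z) = x i (u z)
  I0 : ∀ p δ z, z ∈ I 0 p δ → z = 0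
  Imono : ∀ i p δ z, z ∈ I i p δ → z ∈ I (i + 1) p δ
  Ix : ∀ i, i < n → ∀ p δ z, z ∈ F p δ → x i z ∈ I (i + 1) p (δ + ε i)
  dec : ∀ i, i < n → ∀ p δ z, z ∈ I (i + 1) p δ → ∃ ν ∈ I i p δ, ∃ a ∈ F p (δ - ε i),
    z = ν + x i a
  reg : ∀ i, i < n → ∀ p δ a, x i a ∈ I i p (δ + ε i) → a ∈ I i p δ
  Tadd : ∀ i, i < n → ∀ δ, δ ∈ T → δ + ε i ∈ T
  Tsub : ∀ i, i < n → ∀ δ, δ ∈ T → δ - ε i ∈ T
  Tu : ∀ δ, δ ∈ T → δ + εu ∈ T
  tors : ∀ q δ z, δ ∈ T → z ∈ F q δ → d z = 0 → ∀ i, i < n →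
    ∃ m : ℕ, ∃ v ∈ F (q + 1) (δ + m • (ε i + εu)), ((x i * u) ^ m) z = d v

namespace LSys

variable {M Γ : Type} [AddCommGroup M] [AddCommGroup Γ] {n : ℕ} (S : LSys M Γ n)

include S

theorem w_F (i : ℕ) (hi : i < n) (m : ℕ) (p : ℤ) (δ : Γ) (z : M) (hz : z ∈ S.F p δ) :
    ((S.x i * S.u) ^ m) z ∈ S.F p (δ + m • (S.ε i + S.εu)) := by
  induction m with
  | zero => simpa using hz
  | succ m ih =>
    rw [pow_succ', emul, emul]
    have h := S.xF i hi _ _ _ (S.uF _ _ _ ih)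
    convert h using 1
    rw [succ_nsmul]
    abel_nf

theorem w_I (j : ℕ) (hj : j < n) (m : ℕ) (i : ℕ) (p : ℤ) (δ : Γ) (z : M) (hz : z ∈ S.I i p δ) :
    ((S.x j * S.u) ^ m) z ∈ S.I i p (δ + m • (S.ε j + S.εu)) := by
  induction m with
  | zero => simpa using hz
  | succ m ih =>
    rw [pow_succ', emul, emul]
    have h := S.xI j hj _ _ _ _ (S.uI _ _ _ _ ih)
    convert h using 1
    rw [succ_nsmul]
    abel_nf

theorem u_F (m : ℕ) (p : ℤ) (δ : Γ) (z : M) (hz : z ∈ S.F p δ) :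
    (S.u ^ m) z ∈ S.F p (δ + m • S.εu) := by
  induction m with
  | zero => simpa using hz
  | succ m ih =>
    rw [pow_succ', emul]
    have h := S.uF _ _ _ ih
    convert h using 1
    rw [succ_nsmul]
    abel_nf

theorem u_I (m : ℕ) (i : ℕ) (p : ℤ) (δ : Γ) (z : M) (hz : z ∈ S.I i p δ) :
    (S.u ^ m) z ∈ S.I i p (δ + m • S.εu) := by
  induction m with
  | zero => simpa using hz
  | succ m ih =>
    rw [pow_succ', emul]
    have h := S.uI _ _ _ _ ih
    convert h using 1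
    rw [succ_nsmul]
    abel_nf

theorem x_F (i : ℕ) (hi : i < n) (m : ℕ) (p : ℤ) (δ : Γ) (z : M) (hz : z ∈ S.F p δ) :
    (S.x i ^ m) z ∈ S.F p (δ + m • S.ε i) := by
  induction m with
  | zero => simpa using hz
  | succ m ih =>
    rw [pow_succ', emul]
    have h := S.xF i hi _ _ _ ih
    convert h using 1
    rw [succ_nsmul]
    abel_nf

theorem d_w (i : ℕ) (hi : i < n) (m : ℕ) (z : M) :
    S.d (((S.x i * S.u) ^ m) z) = ((S.x i * S.u) ^ m) (S.d z) := by
  induction m generalizing z with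
  | zero => rfl
  | succ m ih =>
    rw [pow_succ, emul, emul, ih,
      emul, emul, S.dx i hi, S.du]

theorem d_u (m : ℕ) (z : M) : S.d ((S.u ^ m) z) = (S.u ^ m) (S.d z) := by
  induction m generalizing z with
  | zero => rfl
  | succ m ih =>
    rw [pow_succ, emul, ih, emul, S.du]

theorem u_x (i : ℕ) (hi : i < n) (m : ℕ) (z : M) : (S.u ^ m) (S.x i z) = S.x i ((S.u ^ m) z) := by
  induction m generalizing z with
  | zero => rfl
  | succ m ih =>
    rw [pow_succ, emul, S.ux i hi, ih, emul]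

theorem w_x (j : ℕ) (hj : j < n) (i : ℕ) (hi : i < n) (m : ℕ) (z : M) :
    ((S.x j * S.u) ^ m) (S.x i z) = S.x i (((S.x j * S.u) ^ m) z) := by
  induction m generalizing z with
  | zero => rfl
  | succ m ih =>
    rw [pow_succ, emul, emul, S.ux i hi, S.xx j hj i hi, ih,
      emul, emul]

theorem ux_pow (i : ℕ) (hi : i < n) (k m : ℕ) (z : M) :
    (S.u ^ m) ((S.x i ^ k) z) = (S.x i ^ k) ((S.u ^ m) z) := by
  induction k generalizing z with
  | zero => rfl
  | succ k ih =>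
    rw [pow_succ, emul, ih, S.u_x i hi, emul]

theorem w_eq (i : ℕ) (hi : i < n) (m : ℕ) (z : M) :
    ((S.x i * S.u) ^ m) z = (S.x i ^ m) ((S.u ^ m) z) := by
  induction m generalizing z with
  | zero => rfl
  | succ m ih =>
    rw [pow_succ, emul, ih, emul, pow_succ (S.x i),
      emul, S.u_x i hi, pow_succ (S.u), emul]

theorem T_w (i : ℕ) (hi : i < n) (m : ℕ) (δ : Γ) (hδ : δ ∈ S.T) :
    δ + m • (S.ε i + S.εu) ∈ S.T := by
  induction m with
  | zero => simpa using hδ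
  | succ m ih =>
    have h := S.Tadd i hi _ (S.Tu _ ih)
    convert h using 1
    rw [succ_nsmul]
    abel

theorem T_u (m : ℕ) (δ : Γ) (hδ : δ ∈ S.T) : δ + m • S.εu ∈ S.T := by
  induction m with
  | zero => simpa using hδ
  | succ m ih =>
    have h := S.Tu _ ih
    convert h using 1
    rw [succ_nsmul]
    abel

theorem T_x (i : ℕ) (hi : i < n) (m : ℕ) (δ : Γ) (hδ : δ ∈ S.T) : δ + m • S.ε i ∈ S.T := by
  induction m with
  | zero => simpa using hδ
  | succ m ih =>
    have h := S.Tadd i hi _ ih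
    convert h using 1
    rw [succ_nsmul]
    abel

/-- the homology of the quotients is torsion -/
theorem tq (i : ℕ) (hi : i ≤ n) : ∀ (q : ℤ) (δ : Γ) (z : M), δ ∈ S.T → z ∈ S.F q δ →
    S.d z ∈ S.I i (q - 1) δ → ∀ l, l < n → ∃ m : ℕ, ∃ v ∈ S.F (q + 1) (δ + m • (S.ε l + S.εu)),
      ((S.x l * S.u) ^ m) z - S.d v ∈ S.I i q (δ + m • (S.ε l + S.εu)) := by
  induction i with
  | zero =>
    intro q δ z hδ hz hdz l hl
    obtain ⟨m, v, hv, h⟩ := S.tors q δ z hδ hz (S.I0 _ _ _ hdz) l hl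
    refine ⟨m, v, hv, ?_⟩
    rw [h, sub_self]
    exact zero_mem _
  | succ i ih =>
    intro q δ z hδ hz hdz l hl
    have hi' : i < n := hi
    obtain ⟨ν, hν, a, ha, e⟩ := S.dec i hi' _ _ _ hdz
    have h1 : S.d a ∈ S.I i (q - 1 - 1) (δ - S.ε i) := by
      apply S.reg i hi'
      have h2 : S.x i (S.d a) = -S.d ν := by
        have h3 := S.dd z
        rw [e, map_add, S.dx i hi'] at h3
        rw [eq_neg_iff_add_eq_zero, add_comm]
        exact h3
      rw [h2, sub_add_cancel]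
      exact neg_mem (S.dI _ _ _ _ hν)
    obtain ⟨m, c, hc, h4⟩ := ih hi'.le (q - 1) (δ - S.ε i) a (S.Tsub i hi' _ hδ) ha h1 l hl
    set ν1 := ((S.x l * S.u) ^ m) a - S.d c with hν1
    rw [show q - 1 + 1 = q by ring] at hc
    have hxc : S.x i c ∈ S.F q (δ + m • (S.ε l + S.εu)) := by
      have h5 := S.xF i hi' _ _ _ hc
      convert h5 using 1
      abel
    set z1 := ((S.x l * S.u) ^ m) z - S.x i c with hz1
    have hz1F : z1 ∈ S.F q (δ + m • (S.ε l + S.εu)) := sub_mem (S.w_F l hl m q δ z hz) hxc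
    have hd1 : S.d z1 ∈ S.I i (q - 1) (δ + m • (S.ε l + S.εu)) := by
      have h6 : S.d z1 = ((S.x l * S.u) ^ m) ν + S.x i ν1 := by
        rw [hz1, map_sub, S.d_w l hl, e, map_add, S.w_x l hl i hi', S.dx i hi', hν1, map_sub]
        abel
      rw [h6]
      refine add_mem (S.w_I l hl m _ _ _ _ hν) ?_
      have h7 := S.xI i hi' _ _ _ _ h4
      convert h7 using 1
      abel
    obtain ⟨m', v, hv, h8⟩ := ih hi'.le q _ z1 (S.T_w l hl m δ hδ) hz1F hd1 l hl
    have e9 : δ + m • (S.ε l + S.εu) + m' • (S.ε l + S.εu) =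
        δ + (m' + m) • (S.ε l + S.εu) := by
      rw [add_nsmul]; abel
    rw [e9] at hv h8
    refine ⟨m' + m, v, hv, ?_⟩
    have e10 : ((S.x l * S.u) ^ (m' + m)) z - S.d v =
        (((S.x l * S.u) ^ m') z1 - S.d v) + S.x i (((S.x l * S.u) ^ m') c) := by
      rw [hz1, map_sub, S.w_x l hl i hi', pow_add, emul]
      abel
    rw [e10]
    refine add_mem (S.Imono _ _ _ _ h8) ?_
    have h11 := S.Ix i hi' _ _ _ (S.w_F l hl m' _ _ _ hc)
    convert h11 using 1
    rw [add_nsmul]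
    abel

/-- **The vanishing lemma.** -/
theorem main (p : ℤ) (Q : ℕ → Set Γ)
    (hQ1 : ∀ i, i < n → ∀ δ, δ ∈ Q i → δ + S.ε i ∈ Q (i + 1))
    (hQ2 : ∀ i, i < n → ∀ δ, δ ∈ Q (i + 1) → δ + S.ε i ∈ Q (i + 1))
    (hQ3 : ∀ i, i ≤ n → ∀ δ, δ ∈ Q i → δ + S.εu ∈ Q i)
    (hvan : ∀ δ, δ ∈ Q n → ∀ z ∈ S.F (p + n) δ, z ∈ S.I n (p + n) δ)
    (δ : Γ) (hδ : δ ∈ Q 0) (hT : δ ∈ S.T) (z : M) (hz : z ∈ S.F p δ) (hd : S.d z = 0) :
    ∃ m : ℕ, ∃ v ∈ S.F (p + 1) (δ + m • S.εu), (S.u ^ m) z = S.d v := by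
  have hQ1m : ∀ i, i < n → ∀ m : ℕ, ∀ δ, δ ∈ Q i → δ + (m + 1) • S.ε i ∈ Q (i + 1) := by
    intro i hi m
    induction m with
    | zero => intro δ h; simpa using hQ1 i hi δ h
    | succ m ih =>
      intro δ h
      have := hQ2 i hi _ (ih δ h)
      convert this using 1
      rw [succ_nsmul _ (m + 1)]
      abel
  have hQ3m : ∀ i, i ≤ n → ∀ m : ℕ, ∀ δ, δ ∈ Q i → δ + m • S.εu ∈ Q i := by
    intro i hi m
    induction m with
    | zero => intro δ h; simpa using h
    | succ m ih =>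
      intro δ h
      have := hQ3 i hi _ (ih δ h)
      convert this using 1
      rw [succ_nsmul]
      abel
  have key : ∀ k : ℕ, k ≤ n → ∀ δ, δ ∈ Q (n - k) → δ ∈ S.T → ∀ z ∈ S.F (p + (n - k : ℕ)) δ,
      S.d z ∈ S.I (n - k) (p + (n - k : ℕ) - 1) δ →
      ∃ m : ℕ, ∃ v ∈ S.F (p + (n - k : ℕ) + 1) (δ + m • S.εu),
        (S.u ^ m) z - S.d v ∈ S.I (n - k) (p + (n - k : ℕ)) (δ + m • S.εu) := by
    intro k
    induction k with
    | zero =>
      intro _ δ hδ _ z hz _
      refine ⟨0, 0, zero_mem _, ?_⟩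
      simpa using hvan δ hδ z hz
    | succ k ih =>
      intro hk
      have ih' := ih (by omega)
      obtain ⟨i, hi⟩ : ∃ i, n - (k + 1) = i := ⟨_, rfl⟩
      have hi1 : n - k = i + 1 := by omega
      have hin : i < n := by omega
      rw [hi1] at ih'
      rw [hi]
      -- the inner induction on the power of `x i`
      have inner : ∀ m : ℕ, ∀ δ', δ' ∈ Q i → δ' ∈ S.T → ∀ z' ∈ S.F (p + (i : ℕ)) δ',
          (∃ v ∈ S.F (p + (i : ℕ) + 1) (δ' + m • S.ε i),
            (S.x i ^ m) z' - S.d v ∈ S.I i (p + (i : ℕ)) (δ' + m • S.ε i)) →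
          ∃ m2 : ℕ, ∃ v2 ∈ S.F (p + (i : ℕ) + 1) (δ' + m2 • S.εu),
            (S.u ^ m2) z' - S.d v2 ∈ S.I i (p + (i : ℕ)) (δ' + m2 • S.εu) := by
        intro m
        induction m with
        | zero =>
          rintro δ' _ _ z' _ ⟨v, hv, h⟩
          exact ⟨0, v, by simpa using hv, by simpa using h⟩
        | succ m ihm =>
          rintro δ' hδ' hT' z' hz' ⟨v, hv, h⟩
          have hdv : S.d v ∈ S.I (i + 1) (p + (i : ℕ)) (δ' + (m + 1) • S.ε i) := by
            have e1 : S.d v = S.x i ((S.x i ^ m) z') - ((S.x i ^ (m + 1)) z' - S.d v) := by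
              rw [pow_succ', emul]
              abel
            rw [e1]
            refine sub_mem ?_ (S.Imono _ _ _ _ h)
            have h2 := S.Ix i hin _ _ _ (S.x_F i hin m _ _ _ hz')
            convert h2 using 1
            rw [succ_nsmul]
            abel
          have eI : p + ((i + 1 : ℕ) : ℤ) = p + (i : ℕ) + 1 := by push_cast; ring
          have eI' : p + ((i + 1 : ℕ) : ℤ) - 1 = p + (i : ℕ) := by push_cast; ring
          obtain ⟨m', v', hv', h'⟩ := ih' (δ' + (m + 1) • S.ε i) (hQ1m i hin m δ' hδ')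
            (S.T_x i hin _ _ hT') v (by rw [eI]; exact hv) (by rw [eI']; exact hdv)
          rw [eI] at h'
          obtain ⟨ν, hν, a, ha, e⟩ := S.dec i hin _ _ _ h'
          have e2 : (S.u ^ m') (S.d v) = S.d ν + S.x i (S.d a) := by
            rw [← S.d_u, ← sub_add_cancel ((S.u ^ m') v) (S.d v'), e, map_add, map_add,
              S.dd, S.dx i hin, add_zero]
          have e3 : S.x i ((S.x i ^ m) ((S.u ^ m') z') - S.d a) =
              S.d ν + (S.u ^ m') ((S.x i ^ (m + 1)) z' - S.d v) := by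
            rw [map_sub, map_sub, e2, S.ux_pow i hin, pow_succ', emul]
            abel
          have hreg : (S.x i ^ m) ((S.u ^ m') z') - S.d a ∈
              S.I i (p + (i : ℕ)) (δ' + m' • S.εu + m • S.ε i) := by
            apply S.reg i hin
            rw [e3]
            refine add_mem ?_ ?_
            · have h3 := S.dI _ _ _ _ hν
              rw [show p + (i : ℕ) + 1 - 1 = p + ((i : ℕ) : ℤ) by ring] at h3
              convert h3 using 1
              rw [succ_nsmul]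
              abel
            · have h4 := S.u_I m' _ _ _ _ h
              convert h4 using 1
              rw [succ_nsmul]
              abel
          obtain ⟨m2, v2, hv2, h5⟩ := ihm (δ' + m' • S.εu) (hQ3m i hin.le m' δ' hδ')
            (S.T_u _ _ hT') ((S.u ^ m') z') (S.u_F _ _ _ _ hz') ⟨a, by
              convert ha using 1
              rw [succ_nsmul]
              abel, hreg⟩
          have e6 : δ' + m' • S.εu + m2 • S.εu = δ' + (m2 + m') • S.εu := by
            rw [add_nsmul]; abel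
          rw [e6] at hv2 h5
          refine ⟨m2 + m', v2, hv2, ?_⟩
          rw [pow_add, emul]
          exact h5
      intro δ hδ hT z hz hdz
      obtain ⟨m, v, hv, h⟩ := S.tq i hin.le _ _ _ hT hz hdz i hin
      rw [S.w_eq i hin] at h
      have e7 : δ + m • (S.ε i + S.εu) = δ + m • S.εu + m • S.ε i := by
        rw [nsmul_add]; abel
      rw [e7] at hv h
      obtain ⟨m2, v2, hv2, h5⟩ := inner m (δ + m • S.εu) (hQ3m i hin.le m δ hδ)
        (S.T_u _ _ hT) ((S.u ^ m) z) (S.u_F _ _ _ _ hz) ⟨v, hv, h⟩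
      have e6 : δ + m • S.εu + m2 • S.εu = δ + (m2 + m) • S.εu := by
        rw [add_nsmul]; abel
      rw [e6] at hv2 h5
      refine ⟨m2 + m, v2, hv2, ?_⟩
      rw [pow_add, emul]
      exact h5
  have h := key n le_rfl δ (by simpa using hδ) hT z (by simpa using hz) (by
    rw [hd]; exact zero_mem _)
  simp only [Nat.sub_self, Nat.cast_zero, add_zero] at h
  obtain ⟨m, v, hv, h⟩ := h
  exact ⟨m, v, hv, sub_eq_zero.1 (S.I0 _ _ _ h)⟩

end LSys

end Pool.Agent.U841.SN
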