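import Pool.Agent.U841.SN.Ind

set_option autoImplicit false

/-! # Normal crossings and the ideal of the Koszul complex -/

namespace Pool.Agent.U841.SN

open MvPolynomial

variable {n : ℕ}

/-- Away from the origin the gradients of those among the forms `f_0, …, f_r` which vanish at the
point are linearly independent. -/
def NC (f : ℕ → MvPolynomial (Fin n) ℂ) (r : ℕ) : Prop :=
  ∀ x : Fin n → ℂ, x ≠ 0 → ∀ y : ℕ → ℂ, (∀ i, i ≤ r → y i * eval x (f i) = 0) →
    (∀ j, ∑ i ∈ Finset.range (r + 1), y i * eval x (pderiv j (f i)) = 0) → ∀ i, i ≤ r → y i = 0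

theorem NC.mono {f : ℕ → MvPolynomial (Fin n) ℂ} {r r' : ℕ} (h : NC f r) (hr : r' ≤ r) :
    NC f r' := by
  intro x hx y h1 h2 i hi
  have h3 := h x hx (fun i => if i ≤ r' then y i else 0) (fun i _ => by
    by_cases h4 : i ≤ r'
    · rw [if_pos h4, h1 i h4]
    · rw [if_neg h4, zero_mul]) (fun j => by
    refine Eq.trans ?_ (h2 j)
    symm
    rw [← Finset.sum_subset (Finset.range_subset_range.2 (by omega : r' + 1 ≤ r + 1))]
    · refine Finset.sum_congr rfl fun i hi => ?_
      rw [Finset.mem_range] at hi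
      rw [if_pos (by omega)]
    · intro i _ hi
      rw [Finset.mem_range] at hi
      rw [if_neg (by omega), zero_mul]) i (by omega)
  rwa [if_pos hi] at h3

section comp

variable (D : ℕ → ℕ)

/-- the homogeneous component -/
noncomputable def cmp (δ : ℤ × ℤ) : MvPolynomial (Fin n ⊕ ℕ) ℂ →ₗ[ℂ] MvPolynomial (Fin n ⊕ ℕ) ℂ :=
  weightedHomogeneousComponent (W D) δ

theorem coeff_cmp (δ : ℤ × ℤ) (P : MvPolynomial (Fin n ⊕ ℕ) ℂ) (m : (Fin n ⊕ ℕ) →₀ ℕ) :
    coeff m (cmp D δ P) = if wt D m = δ then coeff m P else 0 := by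
  rw [cmp, coeff_weightedHomogeneousComponent]
  rfl

/-- no `y_i` with `i > r` occurs -/
def YF (r : ℕ) (P : MvPolynomial (Fin n ⊕ ℕ) ℂ) : Prop :=
  ∀ m, coeff m P ≠ 0 → ∀ i, r < i → m (Sum.inr i) = 0

theorem cmp_GG (r : ℕ) (δ : ℤ × ℤ) (P : MvPolynomial (Fin n ⊕ ℕ) ℂ) (hP : YF r P) :
    cmp D δ P ∈ GG D n r δ := by
  intro m hm
  rw [coeff_cmp] at hm
  by_cases h : wt D m = δ
  · rw [if_pos h] at hm
    exact ⟨h, hP m hm⟩
  · rw [if_neg h] at hm
    exact absurd rfl hm

theorem cmp_self (r : ℕ) (δ : ℤ × ℤ) (P : MvPolynomial (Fin n ⊕ ℕ) ℂ) (hP : P ∈ GG D n r δ) :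
    cmp D δ P = P := by
  ext m
  rw [coeff_cmp]
  by_cases h : coeff m P = 0
  · rw [h, ite_self]
  · rw [if_pos (hP m h).1]

theorem cmp_mul (r : ℕ) (δ ε : ℤ × ℤ) (P Q : MvPolynomial (Fin n ⊕ ℕ) ℂ) (hP : P ∈ GG D n r ε) :
    cmp D δ (P * Q) = P * cmp D (δ - ε) Q := by
  classical
  ext m
  rw [coeff_cmp, coeff_mul, coeff_mul]
  have h1 : ∀ x ∈ Finset.HasAntidiagonal.antidiagonal m,
      coeff x.1 P * coeff x.2 (cmp D (δ - ε) Q) =
        if wt D m = δ then coeff x.1 P * coeff x.2 Q else 0 := by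
    intro x hx
    rw [Finset.HasAntidiagonal.mem_antidiagonal] at hx
    rw [coeff_cmp]
    by_cases h : coeff x.1 P = 0
    · rw [h, zero_mul, zero_mul, ite_self]
    · have h2 : wt D m = ε + wt D x.2 := by rw [← hx, wt_add, (hP x.1 h).1]
      by_cases h3 : wt D m = δ
      · rw [if_pos h3, if_pos]
        rw [← h3, h2, add_sub_cancel_left]
      · rw [if_neg h3, if_neg, mul_zero]
        intro h4
        apply h3
        rw [h2, h4]
        abel
  rw [Finset.sum_congr rfl h1]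
  by_cases h3 : wt D m = δ
  · simp [h3]
  · simp [h3]

end comp

/-- **the ideal of the Koszul complex contains powers of the `x_j y_i`** -/
theorem BT_of_NC (f : ℕ → MvPolynomial (Fin n) ℂ) (D : ℕ → ℕ)
    (hf : ∀ i, (f i).IsHomogeneous (D i)) (hD : ∀ i, 0 < D i) (r : ℕ) (h : NC f r) :
    (KF f D hf hD r).BT := by
  classical
  intro j i hi
  have hi : i ≤ r := hi
  let inc' : MvPolynomial (Fin n) ℂ →ₐ[ℂ] MvPolynomial (Fin n ⊕ Fin (r + 1)) ℂ := rename Sum.inl
  let ρ : MvPolynomial (Fin n ⊕ Fin (r + 1)) ℂ →ₐ[ℂ] MvPolynomial (Fin n ⊕ ℕ) ℂ :=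
    rename (Sum.map id Fin.val)
  have hρinc : ∀ g, ρ (inc' g) = inc g := by
    intro g
    change rename _ (rename _ g) = rename _ g
    rw [rename_rename]
    rfl
  have hρX : ∀ i : Fin (r + 1), ρ (X (Sum.inr i)) = X (Sum.inr (i : ℕ)) := fun i => rename_X _ _
  let s' : Fin (n + r) → MvPolynomial (Fin n ⊕ Fin (r + 1)) ℂ := fun l =>
    if h : (l : ℕ) < n then ∑ i : Fin (r + 1), X (Sum.inr i) * inc' (pderiv ⟨l, h⟩ (f i))
    else if h' : (l : ℕ) - n + 1 < r + 1 then
      X (Sum.inr ⟨(l : ℕ) - n + 1, h'⟩) * inc' (f ((l : ℕ) - n + 1)) else 0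
  have hs' : ∀ l, ρ (s' l) = sF f r l := by
    intro l
    by_cases h1 : (l : ℕ) < n
    · change ρ (dite _ _ _) = _
      rw [dif_pos h1, sF, dif_pos h1, map_sum, Finset.sum_range]
      refine Finset.sum_congr rfl fun i _ => ?_
      rw [map_mul, hρX, hρinc]
    · change ρ (dite _ _ _) = _
      have := l.2
      rw [dif_neg h1, dif_pos (by omega), sF, dif_neg h1, if_pos l.2, map_mul, hρX, hρinc]
  set I : Ideal (MvPolynomial (Fin n ⊕ Fin (r + 1)) ℂ) := Ideal.span (Set.range s') with hI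
  have hvan : (X (Sum.inl j) * X (Sum.inr ⟨i, by omega⟩) :
      MvPolynomial (Fin n ⊕ Fin (r + 1)) ℂ) ∈ vanishingIdeal ℂ (zeroLocus ℂ I) := by
    rw [mem_vanishingIdeal_iff]
    intro p hp
    rw [mem_zeroLocus_iff] at hp
    rw [map_mul, aeval_X, aeval_X]
    by_cases hx : (fun j => p (Sum.inl j)) = 0
    · rw [show p (Sum.inl j) = 0 from congrFun hx j, zero_mul]
    · have hev : ∀ g, aeval p (inc' g) = eval (fun j => p (Sum.inl j)) g := by
        intro g
        change aeval p (rename _ g) = _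
        rw [aeval_rename]
        rfl
      let y : ℕ → ℂ := fun i => if h : i < r + 1 then p (Sum.inr ⟨i, h⟩) else 0
      have hy : ∀ i : Fin (r + 1), y i = p (Sum.inr i) := fun i => dif_pos i.2
      have hA : ∀ j, ∑ i ∈ Finset.range (r + 1), y i *
          eval (fun j => p (Sum.inl j)) (pderiv j (f i)) = 0 := by
        intro j
        have h1 := hp (s' ⟨j, by omega⟩) (Ideal.subset_span ⟨_, rfl⟩)
        have h2 : s' ⟨j, by omega⟩ =
            ∑ i : Fin (r + 1), X (Sum.inr i) * inc' (pderiv j (f i)) := dif_pos j.2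
        rw [h2, map_sum] at h1
        rw [Finset.sum_range, ← h1]
        refine Finset.sum_congr rfl fun i _ => ?_
        rw [map_mul, aeval_X, hev, hy]
      have hB : ∀ i, i ≤ r → 1 ≤ i → y i * eval (fun j => p (Sum.inl j)) (f i) = 0 := by
        intro i hi hi1
        have h1 := hp (s' ⟨n + (i - 1), by omega⟩) (Ideal.subset_span ⟨_, rfl⟩)
        have h2 : s' ⟨n + (i - 1), by omega⟩ =
            X (Sum.inr ⟨i, by omega⟩) * inc' (f i) := by
          change (dite _ _ _) = _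
          rw [dif_neg (by simp), dif_pos (by simp; omega)]
          have h3 : n + (i - 1) - n + 1 = i := by omega
          simp only [h3]
        rw [h2, map_mul, aeval_X, hev] at h1
        rw [← h1, ← hy ⟨i, by omega⟩]
      have hC : y 0 * eval (fun j => p (Sum.inl j)) (f 0) = 0 := by
        have heu : ∀ i, ∑ j, p (Sum.inl j) * eval (fun j => p (Sum.inl j)) (pderiv j (f i)) =
            D i * eval (fun j => p (Sum.inl j)) (f i) := by
          intro i
          have h1 := congrArg (eval (fun j => p (Sum.inl j))) (hf i).sum_X_mul_pderiv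
          rw [map_sum, map_nsmul] at h1
          rw [← nsmul_eq_mul, ← h1]
          refine Finset.sum_congr rfl fun j _ => ?_
          rw [map_mul, eval_X]
        have h2 : ∑ j, p (Sum.inl j) * ∑ i ∈ Finset.range (r + 1), y i *
            eval (fun j => p (Sum.inl j)) (pderiv j (f i)) = 0 :=
          Finset.sum_eq_zero fun j _ => by rw [hA j, mul_zero]
        have h3 : ∑ j, p (Sum.inl j) * ∑ i ∈ Finset.range (r + 1), y i *
            eval (fun j => p (Sum.inl j)) (pderiv j (f i)) =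
            ∑ i ∈ Finset.range (r + 1), D i * (y i * eval (fun j => p (Sum.inl j)) (f i)) := by
          simp only [Finset.mul_sum]
          rw [Finset.sum_comm]
          refine Finset.sum_congr rfl fun i _ => ?_
          rw [mul_left_comm, ← heu i, Finset.mul_sum]
          refine Finset.sum_congr rfl fun j _ => ?_
          ring
        rw [h3, Finset.sum_range_succ'] at h2
        rw [Finset.sum_eq_zero (fun i hi => by
          rw [Finset.mem_range] at hi
          rw [hB (i + 1) (by omega) (by omega), mul_zero]), zero_add] at h2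
        exact (mul_eq_zero.1 h2).resolve_left (Nat.cast_ne_zero.2 (hD 0).ne')
      have h4 := h _ hx y (fun i hi => by
        rcases Nat.eq_zero_or_pos i with h5 | h5
        · rw [h5]; exact hC
        · exact hB i hi h5) hA i hi
      rw [← hy ⟨i, by omega⟩, h4, mul_zero]
  rw [vanishingIdeal_zeroLocus_eq_radical] at hvan
  obtain ⟨M, hM⟩ := hvan
  rw [hI, Ideal.span, Submodule.mem_span_range_iff_exists_fun] at hM
  obtain ⟨g', hg'⟩ := hM
  have hYF : ∀ g, YF r (ρ g) := by
    intro g m hm i hi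
    obtain ⟨u, hu, -⟩ := coeff_rename_ne_zero _ _ _ hm
    rw [← hu]
    refine Finsupp.mapDomain_of_notMem_range _ _ ?_
    rintro ⟨v, hv⟩
    rcases v with v | v
    · cases hv
    · injection hv with hv
      have := v.2
      omega
  have h5 := congrArg ρ hg'
  rw [map_sum, map_pow, map_mul, hρX] at h5
  have h6 : ρ (X (Sum.inl j)) = X (Sum.inl j) := rename_X _ _
  rw [h6] at h5
  set Δ : ℤ × ℤ := M • (W D (Sum.inl j : Fin n ⊕ ℕ) + W D (Sum.inr i : Fin n ⊕ ℕ)) with hΔ
  have hXX : (X (Sum.inl j) * X (Sum.inr i) : MvPolynomial (Fin n ⊕ ℕ) ℂ) ^ M ∈ GG D n r Δ :=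
    GG_pow D (GG_mul D (GG_X D (fun l hl => by cases hl))
      (GG_X D (fun l hl => by injection hl with hl; omega))) M
  let g : ℕ → MvPolynomial (Fin n ⊕ ℕ) ℂ := fun l =>
    if h : l < n + r then ρ (g' ⟨l, h⟩) else 0
  refine ⟨M, fun l => cmp D (Δ - eF n l) (g l), fun l hl => ?_, ?_⟩
  · refine cmp_GG D r _ _ ?_
    change YF r (dite _ _ _)
    have hl' : l < n + r := hl
    rw [dif_pos hl']
    exact hYF _
  · change _ = ∑ l ∈ Finset.range (n + r), sF f r l * cmp D (Δ - eF n l) (g l)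
    rw [← cmp_self D r Δ _ hXX]
    have h7 : (X (Sum.inl j) * X (Sum.inr i) : MvPolynomial (Fin n ⊕ ℕ) ℂ) ^ M =
        ∑ l ∈ Finset.range (n + r), sF f r l * g l := by
      rw [← h5, Finset.sum_range]
      refine Finset.sum_congr rfl fun l _ => ?_
      rw [smul_eq_mul, map_mul, hs']
      have h8 : g l = ρ (g' l) := dif_pos l.2
      rw [h8, mul_comm]
    rw [h7, map_sum]
    exact Finset.sum_congr rfl fun l _ => cmp_mul D r _ _ _ _ (sF_GG f D hf hD r l)

/-- **The vanishing of `H_1`, for normal crossings.** -/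
theorem H1_NC (f : ℕ → MvPolynomial (Fin n) ℂ) (D : ℕ → ℕ)
    (hf : ∀ i, (f i).IsHomogeneous (D i)) (hD : ∀ i, 0 < D i) (r : ℕ) (h : NC f r)
    (a k : ℤ) (hk : 2 ≤ k) (ha : -(n : ℤ) < a ∨ k ≤ n)
    (z : Kos (MvPolynomial (Fin n ⊕ ℕ) ℂ) (n + r)) (hz : z ∈ fF n D r 1 (a, k))
    (hd : dF f r z = 0) : ∃ v ∈ fF n D r 2 (a, k), z = dF f r v :=
  H1 f D hf hD r (fun r' hr' => BT_of_NC f D hf hD r' (h.mono hr')) a k hk ha z hz hd

end Pool.Agent.U841.SN
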