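import Pool.Agent.U841.SN.Red

set_option autoImplicit false

/-! # From forms with poles to the Koszul complex (the trick of Cayley) -/

namespace Pool.Agent.U841.SN

open MvPolynomial

variable {n : ℕ}

/-- polynomials of weight `a` -/
def Wg (n : ℕ) (D : ℕ → ℕ) (r : ℕ) (a : ℤ) : Set ((Fin n ⊕ ℕ) →₀ ℕ) :=
  {m | (wt D m).1 = a ∧ ∀ i, r < i → m (Sum.inr i) = 0}

theorem GG_Wg {D : ℕ → ℕ} {r : ℕ} {δ : ℤ × ℤ} {P : MvPolynomial (Fin n ⊕ ℕ) ℂ}
    (hP : P ∈ GG D n r δ) : P ∈ sp (Wg n D r δ.1) :=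
  sp_mono (S := Mon D r δ) (T := Wg n D r δ.1) (fun m hm => ⟨by rw [hm.1], hm.2⟩) hP

theorem Wg_C {D : ℕ → ℕ} {r : ℕ} {a : ℤ} (c : ℂ) {P : MvPolynomial (Fin n ⊕ ℕ) ℂ}
    (hP : P ∈ sp (Wg n D r a)) : C c * P ∈ sp (Wg n D r a) := by
  refine sp_mul (fun m hm m' hm' => ?_) (sp_C c) hP
  rw [Set.mem_singleton_iff] at hm
  rw [hm, zero_add]
  exact hm'

theorem exists_Fil {D : ℕ → ℕ} {r : ℕ} {a : ℤ} {P : MvPolynomial (Fin n ⊕ ℕ) ℂ}
    (hP : P ∈ sp (Wg n D r a)) : ∃ K : ℕ, ∀ K' : ℕ, K ≤ K' → P ∈ sp (Fil D n r a K') := by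
  refine ⟨∑ m ∈ P.support, (wt D m).2.toNat, fun K' hK' m hm => ?_⟩
  have h1 := hP m hm
  refine ⟨h1.1, ?_, h1.2⟩
  have h2 : (wt D m).2.toNat ≤ ∑ m ∈ P.support, (wt D m).2.toNat :=
    Finset.single_le_sum (f := fun m => (wt D m).2.toNat) (fun _ _ => Nat.zero_le _)
      (mem_support_iff.2 hm)
  omega

section

variable (f : ℕ → MvPolynomial (Fin n) ℂ) (D : ℕ → ℕ) (β : ℕ → ℂ) (r : ℕ)

/-- the operators `y_i ∂ / ∂y_i + β_i + y_i f_i` -/
noncomputable def tt (i : ℕ) (P : MvPolynomial (Fin n ⊕ ℕ) ℂ) : MvPolynomial (Fin n ⊕ ℕ) ℂ :=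
  X (Sum.inr i) * inc (f i) * P + (X (Sum.inr i) * pderiv (Sum.inr i) P + C (β i) * P)

theorem tt_add (i : ℕ) (P Q : MvPolynomial (Fin n ⊕ ℕ) ℂ) :
    tt f β i (P + Q) = tt f β i P + tt f β i Q := by
  rw [tt, tt, tt, map_add]
  ring

theorem tt_C (i : ℕ) (c : ℂ) (P : MvPolynomial (Fin n ⊕ ℕ) ℂ) :
    tt f β i (C c * P) = C c * tt f β i P := by
  rw [tt, tt, Derivation.leibniz, pderiv_C, smul_zero, add_zero, smul_eq_mul]
  ring

theorem tt_zero (i : ℕ) : tt f β i 0 = 0 := by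
  rw [tt, map_zero]
  ring

theorem tt_nab (i : ℕ) (hi : i < r) (P : MvPolynomial (Fin n ⊕ ℕ) ℂ) :
    nab f β r (n + i) P = tt f β (i + 1) P := by
  rw [nab_apply, tt, sF, dif_neg (by omega), if_pos (by omega), Dv, dif_neg (by omega), bt,
    if_neg (by omega), Derivation.smul_apply, smul_eq_mul, show n + i - n + 1 = i + 1 by omega]

/-- the elements `∑_i (y_i ∂ / ∂y_i + β_i + y_i f_i) B_i` -/
def JJ (a : ℤ) (P : MvPolynomial (Fin n ⊕ ℕ) ℂ) : Prop :=
  ∃ B : ℕ → MvPolynomial (Fin n ⊕ ℕ) ℂ, (∀ i, i ≤ r → B i ∈ sp (Wg n D r a)) ∧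
    P = ∑ i ∈ Finset.range (r + 1), tt f β i (B i)

variable {f D β r}

theorem JJ.zero {a : ℤ} : JJ f D β r a 0 :=
  ⟨fun _ => 0, fun _ _ => zero_mem _, by simp [tt_zero]⟩

theorem JJ.add {a : ℤ} {P Q : MvPolynomial (Fin n ⊕ ℕ) ℂ} (hP : JJ f D β r a P)
    (hQ : JJ f D β r a Q) : JJ f D β r a (P + Q) := by
  obtain ⟨B, hB, rfl⟩ := hP
  obtain ⟨B', hB', rfl⟩ := hQ
  refine ⟨fun i => B i + B' i, fun i hi => add_mem (hB i hi) (hB' i hi), ?_⟩
  rw [← Finset.sum_add_distrib]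
  exact Finset.sum_congr rfl fun i _ => (tt_add f β i _ _).symm

theorem JJ.C_mul {a : ℤ} {P : MvPolynomial (Fin n ⊕ ℕ) ℂ} (c : ℂ) (hP : JJ f D β r a P) :
    JJ f D β r a (C c * P) := by
  obtain ⟨B, hB, rfl⟩ := hP
  refine ⟨fun i => C c * B i, fun i hi => Wg_C c (hB i hi), ?_⟩
  rw [Finset.mul_sum]
  exact Finset.sum_congr rfl fun i _ => (tt_C f β i _ _).symm

theorem JJ.neg {a : ℤ} {P : MvPolynomial (Fin n ⊕ ℕ) ℂ} (hP : JJ f D β r a P) :
    JJ f D β r a (-P) := by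
  have h := hP.C_mul (-1)
  rwa [map_neg, map_one, neg_one_mul] at h

theorem JJ.sum {a : ℤ} {ι : Type} (s : Finset ι) (P : ι → MvPolynomial (Fin n ⊕ ℕ) ℂ)
    (h : ∀ i ∈ s, JJ f D β r a (P i)) : JJ f D β r a (∑ i ∈ s, P i) := by
  classical
  induction s using Finset.induction_on with
  | empty => rw [Finset.sum_empty]; exact JJ.zero
  | insert b s hb ih =>
    rw [Finset.sum_insert hb]
    exact (h b (Finset.mem_insert_self b s)).add (ih fun i hi => h i (Finset.mem_insert_of_mem hi))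

theorem JJ.tt {a : ℤ} (i : ℕ) (hi : i ≤ r) {P : MvPolynomial (Fin n ⊕ ℕ) ℂ}
    (hP : P ∈ sp (Wg n D r a)) : JJ f D β r a (SN.tt f β i P) := by
  classical
  refine ⟨fun j => if j = i then P else 0, fun j _ => ?_, ?_⟩
  · by_cases h : j = i
    · simpa [h] using hP
    · simp only [h, if_false]
      exact zero_mem _
  · rw [Finset.sum_eq_single i]
    · simp only [if_true]
    · intro j _ hj
      simp only [hj, if_false]
      exact tt_zero f β j
    · intro h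
      rw [Finset.mem_range] at h
      omega

variable (f D β r)

/-- the exponents of `y ^ κ` -/
noncomputable def mk (n r : ℕ) (κ : ℕ → ℕ) : (Fin n ⊕ ℕ) →₀ ℕ :=
  ∑ i ∈ Finset.range (r + 1), Finsupp.single (Sum.inr i) (κ i)

theorem mk_inr (κ : ℕ → ℕ) (i : ℕ) : mk n r κ (Sum.inr i) = if i ≤ r then κ i else 0 := by
  classical
  rw [mk, Finsupp.finsetSum_apply]
  by_cases h : i ≤ r
  · rw [if_pos h, Finset.sum_eq_single i]
    · rw [Finsupp.single_eq_same]
    · intro j _ hj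
      rw [Finsupp.single_apply, if_neg (by simpa using hj)]
    · intro h1
      rw [Finset.mem_range] at h1
      omega
  · rw [if_neg h]
    refine Finset.sum_eq_zero fun j hj => ?_
    rw [Finset.mem_range] at hj
    rw [Finsupp.single_apply, if_neg]
    intro h1
    injection h1 with h1
    omega

/-- `κ + e_i` -/
def up (κ : ℕ → ℕ) (i : ℕ) : ℕ → ℕ := Function.update κ i (κ i + 1)

theorem mk_up (κ : ℕ → ℕ) (i : ℕ) (hi : i ≤ r) :
    mk n r (up κ i) = mk n r κ + Finsupp.single (Sum.inr i) 1 := by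
  classical
  rw [mk, mk, ← Finset.add_sum_erase _ _ (Finset.mem_range.2 (Nat.lt_succ_of_le hi)),
    ← Finset.add_sum_erase (Finset.range (r + 1)) (fun j => Finsupp.single (Sum.inr j) (κ j))
      (Finset.mem_range.2 (Nat.lt_succ_of_le hi))]
  have h1 : ∀ j ∈ (Finset.range (r + 1)).erase i, (Finsupp.single (Sum.inr j) (up κ i j) :
      (Fin n ⊕ ℕ) →₀ ℕ) = Finsupp.single (Sum.inr j) (κ j) := by
    intro j hj
    rw [up, Function.update_of_ne (Finset.ne_of_mem_erase hj)]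
  rw [Finset.sum_congr rfl h1, up, Function.update_self, Finsupp.single_add]
  abel

/-- the product of the values of the Gamma function -/
def Gm (κ : ℕ → ℕ) : ℂ := ∏ i ∈ Finset.range (r + 1), ∏ j ∈ Finset.range (κ i), (-((j : ℂ) + β i))

theorem Gm_up (κ : ℕ → ℕ) (i : ℕ) (hi : i ≤ r) :
    Gm β r (up κ i) = Gm β r κ * (-((κ i : ℂ) + β i)) := by
  classical
  rw [Gm, Gm, ← Finset.mul_prod_erase _ _ (Finset.mem_range.2 (Nat.lt_succ_of_le hi)),
    ← Finset.mul_prod_erase (Finset.range (r + 1)) (fun i => ∏ j ∈ Finset.range (κ i), (-((j : ℂ) + β i)))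
      (Finset.mem_range.2 (Nat.lt_succ_of_le hi))]
  have h1 : ∀ j ∈ (Finset.range (r + 1)).erase i,
      ∏ l ∈ Finset.range (up κ i j), (-((l : ℂ) + β j)) =
        ∏ l ∈ Finset.range (κ j), (-((l : ℂ) + β j)) := by
    intro j hj
    rw [up, Function.update_of_ne (Finset.ne_of_mem_erase hj)]
  rw [Finset.prod_congr rfl h1, up, Function.update_self, Finset.prod_range_succ]
  ring

theorem Gm_ne (hβ : ∀ i, i ≤ r → ∀ j : ℕ, (j : ℂ) + β i ≠ 0) (κ : ℕ → ℕ) : Gm β r κ ≠ 0 := by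
  refine Finset.prod_ne_zero_iff.2 fun i hi => Finset.prod_ne_zero_iff.2 fun j _ => ?_
  rw [Finset.mem_range] at hi
  exact neg_ne_zero.2 (hβ i (by omega) j)

/-- the elements which correspond to `p / f ^ κ` -/
noncomputable def br (κ : ℕ → ℕ) (p : MvPolynomial (Fin n) ℂ) : MvPolynomial (Fin n ⊕ ℕ) ℂ :=
  monomial (mk n r κ) (Gm β r κ)⁻¹ * inc p

theorem br_add (κ : ℕ → ℕ) (p q : MvPolynomial (Fin n) ℂ) :
    br β r κ (p + q) = br β r κ p + br β r κ q := by
  rw [br, br, br, map_add, mul_add]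

theorem br_sum {ι : Type} (s : Finset ι) (κ : ℕ → ℕ) (p : ι → MvPolynomial (Fin n) ℂ) :
    br β r κ (∑ i ∈ s, p i) = ∑ i ∈ s, br β r κ (p i) := by
  simp only [br, map_sum, Finset.mul_sum]

theorem br_C (κ : ℕ → ℕ) (c : ℂ) (p : MvPolynomial (Fin n) ℂ) :
    br β r κ (C c * p) = C c * br β r κ p := by
  have h : inc (C c : MvPolynomial (Fin n) ℂ) = C c := rename_C _ _
  rw [br, br, map_mul, h]
  ring

theorem wt_mk (κ : ℕ → ℕ) :
    wt D (mk n r κ) = (-∑ i ∈ Finset.range (r + 1), (κ i : ℤ) * D i,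
      ∑ i ∈ Finset.range (r + 1), (κ i : ℤ)) := by
  have h : wt D (mk n r κ) = ∑ i ∈ Finset.range (r + 1), κ i • W D (Sum.inr i : Fin n ⊕ ℕ) := by
    rw [mk, wt, map_sum]
    exact Finset.sum_congr rfl fun i _ => Finsupp.weight_single _ _ _
  rw [h]
  refine Prod.ext ?_ ?_
  · rw [Prod.fst_sum, ← Finset.sum_neg_distrib]
    refine Finset.sum_congr rfl fun i _ => ?_
    rw [Prod.smul_fst, KD.W_inr]
    simp
  · rw [Prod.snd_sum]
    refine Finset.sum_congr rfl fun i _ => ?_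
    rw [Prod.smul_snd, KD.W_inr]
    simp

/-- the homogeneity of the element `br κ p` -/
theorem br_GG (κ : ℕ → ℕ) (d : ℕ) (p : MvPolynomial (Fin n) ℂ) (hp : p.IsHomogeneous d) :
    br β r κ p ∈ GG D n r ((d : ℤ) - ∑ i ∈ Finset.range (r + 1), (κ i : ℤ) * D i,
      ∑ i ∈ Finset.range (r + 1), (κ i : ℤ)) := by
  classical
  have h1 : (monomial (mk n r κ) (Gm β r κ)⁻¹ : MvPolynomial (Fin n ⊕ ℕ) ℂ) ∈
      GG D n r (-∑ i ∈ Finset.range (r + 1), (κ i : ℤ) * D i,
      ∑ i ∈ Finset.range (r + 1), (κ i : ℤ)) := by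
    intro m hm
    rw [coeff_monomial, ne_eq, ite_eq_right_iff, Classical.not_imp] at hm
    rw [← hm.1]
    refine ⟨wt_mk D r κ, fun i hi => ?_⟩
    rw [mk_inr, if_neg (by omega)]
  have h2 := GG_mul D h1 (inc_GG D r d p hp)
  rw [br]
  convert h2 using 2
  refine Prod.ext ?_ ?_
  · simp; ring
  · simp

theorem br_Wg (κ : ℕ → ℕ) (d : ℕ) (p : MvPolynomial (Fin n) ℂ) (hp : p.IsHomogeneous d) (a : ℤ)
    (ha : (d : ℤ) = a + ∑ i ∈ Finset.range (r + 1), (κ i : ℤ) * D i) :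
    br β r κ p ∈ sp (Wg n D r a) := by
  have h1 := GG_Wg (br_GG D β r κ d p hp)
  rw [show ((d : ℤ) - ∑ i ∈ Finset.range (r + 1), (κ i : ℤ) * D i,
      ∑ i ∈ Finset.range (r + 1), (κ i : ℤ)).1 = a by
    change (d : ℤ) - ∑ i ∈ Finset.range (r + 1), (κ i : ℤ) * D i = a
    rw [ha]; ring] at h1
  exact h1

theorem X_br (hβ : ∀ i, i ≤ r → ∀ j : ℕ, (j : ℂ) + β i ≠ 0) (κ : ℕ → ℕ) (i : ℕ) (hi : i ≤ r)
    (p : MvPolynomial (Fin n) ℂ) :
    X (Sum.inr i) * br β r κ p = C (-((κ i : ℂ) + β i)) * br β r (up κ i) p := by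
  rw [br, br, ← mul_assoc, ← mul_assoc]
  congr 1
  rw [mk_up r κ i hi, Gm_up β r κ i hi, X, monomial_mul, one_mul, C_mul_monomial, add_comm]
  congr 1
  have h1 : -((κ i : ℂ) + β i) ≠ 0 := neg_ne_zero.2 (hβ i hi (κ i))
  rw [mul_inv, mul_comm, mul_assoc, inv_mul_cancel₀ h1, mul_one]

/-- **one step** -/
theorem br_step (hβ : ∀ i, i ≤ r → ∀ j : ℕ, (j : ℂ) + β i ≠ 0) (κ : ℕ → ℕ) (i : ℕ) (hi : i ≤ r)
    (d : ℕ) (p : MvPolynomial (Fin n) ℂ) (hp : p.IsHomogeneous d) (a : ℤ)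
    (ha : (d : ℤ) = a + ∑ i ∈ Finset.range (r + 1), (κ i : ℤ) * D i) :
    JJ f D β r a (br β r (up κ i) (f i * p) - br β r κ p) := by
  have h1 : -((κ i : ℂ) + β i) ≠ 0 := neg_ne_zero.2 (hβ i hi (κ i))
  have h2 : tt f β i (br β r κ p) = C (-((κ i : ℂ) + β i)) * (br β r (up κ i) (f i * p) - br β r κ p) := by
    rw [tt, mul_right_comm, X_br β r hβ κ i hi]
    have h3 : X (Sum.inr i) * pderiv (Sum.inr i) (br β r κ p) = C (κ i : ℂ) * br β r κ p := by
      rw [br, Derivation.leibniz, pderiv_inr_inc, smul_zero, zero_add, smul_eq_mul, mul_left_comm,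
        X_mul_pderiv_monomial, mk_inr, if_pos hi, nsmul_eq_mul]
      have h4 : ((κ i : ℕ) : MvPolynomial (Fin n ⊕ ℕ) ℂ) = C (κ i : ℂ) := (map_natCast C _).symm
      rw [h4]
      ring
    have h5 : br β r (up κ i) (f i * p) = br β r (up κ i) p * inc (f i) := by
      rw [br, br, map_mul]
      ring
    rw [h3, h5, map_neg, map_add]
    ring
  have h6 := (JJ.tt (f := f) (β := β) i hi (br_Wg D β r κ d p hp a ha)).C_mul (-((κ i : ℂ) + β i))⁻¹
  rw [h2, ← mul_assoc, ← map_mul, inv_mul_cancel₀ h1, map_one, one_mul] at h6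
  exact h6

variable (hf : ∀ i, (f i).IsHomogeneous (D i))

include hf

/-- **many steps** -/
theorem br_shift (hβ : ∀ i, i ≤ r → ∀ j : ℕ, (j : ℂ) + β i ≠ 0) (a : ℤ) : ∀ (N : ℕ) (μ : ℕ → ℕ),
    ∑ i ∈ Finset.range (r + 1), μ i = N → ∀ (κ : ℕ → ℕ) (d : ℕ) (p : MvPolynomial (Fin n) ℂ),
    p.IsHomogeneous d → (d : ℤ) = a + ∑ i ∈ Finset.range (r + 1), (κ i : ℤ) * D i →
    JJ f D β r a (br β r (κ + μ) ((∏ i ∈ Finset.range (r + 1), f i ^ μ i) * p) - br β r κ p) := by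
  classical
  intro N
  induction N with
  | zero =>
    intro μ hμ κ d p _ _
    have h1 : ∀ i ∈ Finset.range (r + 1), μ i = 0 := Finset.sum_eq_zero_iff.1 hμ
    have h2 : ∏ i ∈ Finset.range (r + 1), f i ^ μ i = 1 :=
      Finset.prod_eq_one fun i hi => by rw [h1 i hi, pow_zero]
    have h3 : mk n r (κ + μ) = mk n r κ := by
      refine Finset.sum_congr rfl fun i hi => ?_
      rw [Pi.add_apply, h1 i hi, add_zero]
    have h4 : Gm β r (κ + μ) = Gm β r κ := by
      refine Finset.prod_congr rfl fun i hi => ?_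
      rw [Pi.add_apply, h1 i hi, add_zero]
    rw [h2, one_mul, br, br, h3, h4, sub_self]
    exact JJ.zero
  | succ N ih =>
    intro μ hμ κ d p hp hd
    obtain ⟨i, hi, hμi⟩ := Finset.exists_ne_zero_of_sum_ne_zero (s := Finset.range (r + 1)) (f := μ)
      (by rw [hμ]; omega)
    have hir : i ≤ r := by rw [Finset.mem_range] at hi; omega
    set μ' : ℕ → ℕ := Function.update μ i (μ i - 1) with hμ'
    have h1 : μ = up μ' i := by
      funext j
      by_cases h : j = i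
      · subst h
        rw [up, Function.update_self, hμ', Function.update_self]
        omega
      · rw [up, Function.update_of_ne h, hμ', Function.update_of_ne h]
    have h2 : κ + μ = up (κ + μ') i := by
      funext j
      by_cases h : j = i
      · subst h
        rw [up, Function.update_self, Pi.add_apply, Pi.add_apply, hμ', Function.update_self]
        omega
      · rw [up, Function.update_of_ne h, Pi.add_apply, Pi.add_apply, hμ', Function.update_of_ne h]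
    have h3 : ∏ i ∈ Finset.range (r + 1), f i ^ μ i =
        f i * ∏ i ∈ Finset.range (r + 1), f i ^ μ' i := by
      rw [← Finset.mul_prod_erase _ _ hi, ← Finset.mul_prod_erase _ (fun i => f i ^ μ' i) hi]
      have h4 : ∀ j ∈ (Finset.range (r + 1)).erase i, f j ^ μ j = f j ^ μ' j := by
        intro j hj
        rw [hμ', Function.update_of_ne (Finset.ne_of_mem_erase hj)]
      rw [Finset.prod_congr rfl h4, ← mul_assoc, ← pow_succ']
      congr 2
      rw [hμ', Function.update_self]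
      omega
    have h5 : ∑ i ∈ Finset.range (r + 1), μ' i = N := by
      have h4 : ∀ j ∈ (Finset.range (r + 1)).erase i, μ' j = μ j := by
        intro j hj
        rw [hμ', Function.update_of_ne (Finset.ne_of_mem_erase hj)]
      have h5a : μ' i + ∑ j ∈ (Finset.range (r + 1)).erase i, μ' j =
        ∑ i ∈ Finset.range (r + 1), μ' i := Finset.add_sum_erase _ _ hi
      have h5b : ∑ j ∈ (Finset.range (r + 1)).erase i, μ' j =
        ∑ j ∈ (Finset.range (r + 1)).erase i, μ j := Finset.sum_congr rfl h4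
      have h5c : μ' i = μ i - 1 := by rw [hμ', Function.update_self]
      have h5d : μ i + ∑ j ∈ (Finset.range (r + 1)).erase i, μ j =
        ∑ i ∈ Finset.range (r + 1), μ i := Finset.add_sum_erase _ _ hi
      rw [← h5a, h5b, h5c]
      rw [hμ] at h5d
      omega
    have h6 := ih μ' h5 κ d p hp hd
    have hP : ((∏ i ∈ Finset.range (r + 1), f i ^ μ' i) * p).IsHomogeneous
        (∑ i ∈ Finset.range (r + 1), D i * μ' i + d) :=
      (IsHomogeneous.prod _ _ _ fun i _ => (hf i).pow (μ' i)).mul hp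
    have h7 := br_step f D β r hβ (κ + μ') i hir _ _ hP a (by
      push_cast
      rw [hd, ← sub_eq_zero]
      have h8 : ∑ i ∈ Finset.range (r + 1), (((κ + μ') i : ℕ) : ℤ) * D i =
          ∑ i ∈ Finset.range (r + 1), (κ i : ℤ) * D i + ∑ i ∈ Finset.range (r + 1), (D i : ℤ) * μ' i := by
        rw [← Finset.sum_add_distrib]
        refine Finset.sum_congr rfl fun i _ => ?_
        rw [Pi.add_apply]
        push_cast
        ring
      push_cast [Pi.add_apply] at h8 ⊢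
      rw [h8]
      ring)
    rw [← h2, ← mul_assoc, ← h3] at h7
    have h9 := h7.add h6
    rwa [sub_add_sub_cancel] at h9

end

end Pool.Agent.U841.SN
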