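import Pool.Agent.U841.SN.Cay

set_option autoImplicit false

/-! # From forms with poles to the Koszul complex, continued -/

namespace Pool.Agent.U841.SN

open MvPolynomial

variable {n : ℕ}

theorem coeff_euler {σ : Type} (v : σ) (m : σ →₀ ℕ) (P : MvPolynomial σ ℂ) :
    coeff m (X v * pderiv v P) = (m v : ℂ) * coeff m P := by
  classical
  rw [coeff_X_mul']
  by_cases h : v ∈ m.support
  · rw [if_pos h, coeff_pderiv]
    have h1 : 1 ≤ m v := Nat.one_le_iff_ne_zero.2 (Finsupp.mem_support_iff.1 h)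
    have h2 : m - Finsupp.single v 1 + Finsupp.single v 1 = m :=
      tsub_add_cancel_of_le (Finsupp.single_le_iff.2 h1)
    rw [h2, Finsupp.tsub_apply, Finsupp.single_eq_same, Nat.cast_sub h1]
    push_cast
    ring
  · rw [if_neg h, Finsupp.notMem_support_iff.1 h, Nat.cast_zero, zero_mul]

theorem mk_inl (r : ℕ) (κ : ℕ → ℕ) (l : Fin n) : mk n r κ (Sum.inl l) = 0 := by
  classical
  rw [mk, Finsupp.finsetSum_apply]
  refine Finset.sum_eq_zero fun i _ => ?_
  rw [Finsupp.single_apply, if_neg (by simp)]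

theorem wt_fst (D : ℕ → ℕ) (r : ℕ) (m : (Fin n ⊕ ℕ) →₀ ℕ) (hm : ∀ i, r < i → m (Sum.inr i) = 0) :
    (wt D m).1 = ∑ l : Fin n, (m (Sum.inl l) : ℤ) -
      ∑ i ∈ Finset.range (r + 1), (D i : ℤ) * m (Sum.inr i) := by
  classical
  let u : Fin n →₀ ℕ := Finsupp.equivFunOnFinite.symm fun l => m (Sum.inl l)
  have h1 : m = u.mapDomain Sum.inl + mk n r fun i => m (Sum.inr i) := by
    ext v
    rcases v with l | i
    · rw [Finsupp.add_apply, Finsupp.mapDomain_apply Sum.inl_injective, mk_inl, add_zero]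
      rfl
    · rw [Finsupp.add_apply, Finsupp.mapDomain_of_notMem_range _ _ (by simp), mk_inr, zero_add]
      by_cases h : i ≤ r
      · rw [if_pos h]
      · rw [if_neg h, hm i (by omega)]
  have h2 : (wt D m).1 = (wt D (u.mapDomain Sum.inl + mk n r fun i => m (Sum.inr i))).1 := by
    rw [← h1]
  rw [h2, wt_add, wt_inl, wt_mk, Prod.fst_add, Finsupp.degree_eq_sum]
  push_cast
  rw [sub_eq_add_neg]
  congr 1
  rw [neg_inj]
  exact Finset.sum_congr rfl fun i _ => mul_comm _ _

/-- Euler's formula -/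
theorem euler (D : ℕ → ℕ) (r : ℕ) (a : ℤ) (P : MvPolynomial (Fin n ⊕ ℕ) ℂ)
    (hP : P ∈ sp (Wg n D r a)) :
    ∑ l : Fin n, X (Sum.inl l) * pderiv (Sum.inl l) P -
      ∑ i ∈ Finset.range (r + 1), C (D i : ℂ) * (X (Sum.inr i) * pderiv (Sum.inr i) P) =
      C (a : ℂ) * P := by
  ext m
  rw [coeff_sub, coeff_sum, coeff_sum, coeff_C_mul]
  simp only [coeff_C_mul, coeff_euler]
  by_cases h : coeff m P = 0
  · simp [h]
  · have h1 := hP m h
    have h2 := wt_fst D r m h1.2
    rw [h1.1] at h2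
    have h3 := congrArg (fun z : ℤ => (z : ℂ)) h2
    push_cast at h3
    rw [h3, sub_mul, Finset.sum_mul, Finset.sum_mul]
    congr 1
    exact Finset.sum_congr rfl fun i _ => by ring

theorem deriv_prod {σ : Type} (E : Derivation ℂ (MvPolynomial σ ℂ) (MvPolynomial σ ℂ))
    (f : ℕ → MvPolynomial σ ℂ) (m : ℕ → ℕ) (s : Finset ℕ) :
    E (∏ i ∈ s, f i ^ m i) = ∑ i ∈ s, (m i : MvPolynomial σ ℂ) *
      (f i ^ (m i - 1) * (∏ j ∈ s.erase i, f j ^ m j) * E (f i)) := by
  classical
  induction s using Finset.induction_on with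
  | empty => simp
  | insert a s ha ih =>
    rw [Finset.prod_insert ha, Derivation.leibniz, ih, Finset.sum_insert ha,
      Finset.erase_insert ha, Derivation.leibniz_pow, add_comm]
    congr 1
    · simp only [smul_eq_mul, nsmul_eq_mul]
      ring
    · rw [smul_eq_mul, Finset.mul_sum]
      refine Finset.sum_congr rfl fun i hi => ?_
      have hia : i ≠ a := fun h => ha (h ▸ hi)
      rw [Finset.erase_insert_of_ne hia.symm, Finset.prod_insert (fun h => ha (Finset.mem_of_mem_erase h))]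
      ring

section

variable (f : ℕ → MvPolynomial (Fin n) ℂ) (D : ℕ → ℕ) (β : ℕ → ℂ) (r : ℕ)

theorem nab_br (hβ : ∀ i, i ≤ r → ∀ j : ℕ, (j : ℂ) + β i ≠ 0) (κ : ℕ → ℕ) (l : Fin n)
    (p : MvPolynomial (Fin n) ℂ) :
    nab f β r l (br β r κ p) = br β r κ (pderiv l p) +
      ∑ i ∈ Finset.range (r + 1), C (-((κ i : ℂ) + β i)) * br β r (up κ i) (pderiv l (f i) * p) := by
  have h1 : pderiv (Sum.inl l) (br β r κ p) = br β r κ (pderiv l p) := by
    rw [br, Derivation.leibniz, pderiv_inc, pderiv_monomial, mk_inl]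
    simp [br]
  rw [nab_apply, Dv, dif_pos l.2, bt, if_pos l.2, C_0, zero_mul, add_zero, add_comm]
  change pderiv (Sum.inl l) (br β r κ p) + _ = _
  rw [h1]
  congr 1
  rw [sF, dif_pos l.2, Finset.sum_mul]
  refine Finset.sum_congr rfl fun i hi => ?_
  rw [Finset.mem_range] at hi
  have h2 : br β r (up κ i) (pderiv l (f i) * p) = br β r (up κ i) p * inc (pderiv l (f i)) := by
    rw [br, br, map_mul]
    ring
  rw [h2, mul_right_comm, X_br β r hβ κ i (by omega)]
  ring

theorem br_zero (p : MvPolynomial (Fin n) ℂ) : br β r 0 p = inc p := by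
  have h1 : mk n r 0 = 0 := by
    rw [mk]
    exact Finset.sum_eq_zero fun i _ => by simp
  have h2 : Gm β r 0 = 1 := by
    rw [Gm]
    exact Finset.prod_eq_one fun i _ => by simp
  rw [br, h1, h2, inv_one]
  change C 1 * inc p = _
  rw [C_1, one_mul]

variable (hf : ∀ i, (f i).IsHomogeneous (D i)) (hD : ∀ i, 0 < D i)

include hf hD in
/-- **forms with poles, modulo the operators `tt`** -/
theorem cay1 (hβ : ∀ i, i ≤ r → ∀ j : ℕ, (j : ℂ) + β i ≠ 0) (m : ℕ → ℕ)
    (hm : ∀ i, i ≤ r → 1 ≤ m i) (α : ℂ) (hα : ∀ i, i ≤ r → β i = -α * m i) (M a : ℕ)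
    (V : Fin n → MvPolynomial (Fin n) ℂ) (d : ℕ) (hd : d = ∑ i ∈ Finset.range (r + 1), m i * D i)
    (hV : ∀ l, (V l).IsHomogeneous (d * M + a + 1)) (g : MvPolynomial (Fin n) ℂ)
    (hg : g.IsHomogeneous a) (F : MvPolynomial (Fin n) ℂ)
    (hF : F = ∏ i ∈ Finset.range (r + 1), f i ^ m i)
    (hid : F * ∑ l, pderiv l (V l) + C (α - M) * ∑ l, V l * pderiv l F = F ^ (M + 1) * g) :
    JJ f D β r a (inc g - ∑ l : Fin n, nab f β r l (br β r (fun i => M * m i) (V l))) := by
  classical
  set κ : ℕ → ℕ := fun i => M * m i with hκ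
  have hκD : ∑ i ∈ Finset.range (r + 1), (κ i : ℤ) * D i = (d * M : ℕ) := by
    rw [hd, Finset.sum_mul]
    push_cast
    refine Finset.sum_congr rfl fun i _ => ?_
    rw [hκ]
    push_cast
    ring
  -- the first terms
  have h1 : ∀ l : Fin n, JJ f D β r a (br β r (κ + m) (F * pderiv l (V l)) -
      br β r κ (pderiv l (V l))) := by
    intro l
    rw [hF]
    refine br_shift f D β r hf hβ a _ m rfl κ (d * M + a) _ ?_ ?_
    · have h := (hV l).pderiv (i := l)
      rwa [Nat.add_sub_cancel] at h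
    · rw [hκD]
      push_cast
      ring
  -- the other terms
  let μ : ℕ → ℕ → ℕ := fun i => Function.update m i (m i - 1)
  let G : ℕ → MvPolynomial (Fin n) ℂ := fun i => ∏ j ∈ Finset.range (r + 1), f j ^ μ i j
  have h2 : ∀ (l : Fin n) (i : ℕ), i ≤ r → JJ f D β r a
      (br β r (κ + m) (G i * (pderiv l (f i) * V l)) - br β r (up κ i) (pderiv l (f i) * V l)) := by
    intro l i hi
    have e1 : κ + m = up κ i + μ i := by
      funext j
      have := hm i hi
      by_cases h : j = i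
      · subst h
        rw [Pi.add_apply, Pi.add_apply, up, Function.update_self]
        change _ = _ + Function.update m j (m j - 1) j
        rw [Function.update_self]
        omega
      · rw [Pi.add_apply, Pi.add_apply, up, Function.update_of_ne h]
        change _ = _ + Function.update m i (m i - 1) j
        rw [Function.update_of_ne h]
    rw [e1]
    have hDi := hD i
    refine br_shift f D β r hf hβ a _ (μ i) rfl (up κ i) (D i - 1 + (d * M + a + 1)) _
      (((hf i).pderiv).mul (hV l)) ?_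
    have e4 : ∑ j ∈ Finset.range (r + 1), (up κ i j : ℤ) * D j = (d * M : ℕ) + D i := by
      rw [← hκD, ← Finset.add_sum_erase _ _ (Finset.mem_range.2 (Nat.lt_succ_of_le hi)),
        ← Finset.add_sum_erase (Finset.range (r + 1)) (fun j => (κ j : ℤ) * D j)
          (Finset.mem_range.2 (Nat.lt_succ_of_le hi)), up, Function.update_self]
      have e5 : ∀ j ∈ (Finset.range (r + 1)).erase i,
          ((Function.update κ i (κ i + 1) j : ℕ) : ℤ) * D j = (κ j : ℤ) * D j := by
        intro j hj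
        rw [Function.update_of_ne (Finset.ne_of_mem_erase hj)]
      rw [Finset.sum_congr rfl e5]
      push_cast
      ring
    rw [e4]
    omega
  -- the target
  have h3 : JJ f D β r a (br β r (0 + (κ + m)) ((∏ i ∈ Finset.range (r + 1), f i ^ (κ + m) i) * g) -
      br β r 0 g) := br_shift f D β r hf hβ a _ (κ + m) rfl 0 a g hg (by simp)
  rw [zero_add, br_zero] at h3
  have h4 : ∏ i ∈ Finset.range (r + 1), f i ^ (κ + m) i = F ^ (M + 1) := by
    rw [hF, ← Finset.prod_pow]
    refine Finset.prod_congr rfl fun i _ => ?_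
    rw [← pow_mul]
    congr 1
    rw [Pi.add_apply, hκ]
    ring
  rw [h4, ← hid] at h3
  have h5 : F * ∑ l, pderiv l (V l) + C (α - M) * ∑ l, V l * pderiv l F =
      ∑ l, (F * pderiv l (V l) + ∑ i ∈ Finset.range (r + 1),
        C (-((κ i : ℂ) + β i)) * (G i * (pderiv l (f i) * V l))) := by
    rw [Finset.mul_sum, Finset.mul_sum, ← Finset.sum_add_distrib]
    refine Finset.sum_congr rfl fun l _ => ?_
    congr 1
    rw [hF, deriv_prod, Finset.mul_sum, Finset.mul_sum]
    refine Finset.sum_congr rfl fun i hi => ?_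
    have hir : i ≤ r := by rw [Finset.mem_range] at hi; omega
    have e6 : G i = f i ^ (m i - 1) * ∏ j ∈ (Finset.range (r + 1)).erase i, f j ^ m j := by
      change ∏ j ∈ Finset.range (r + 1), f j ^ Function.update m i (m i - 1) j = _
      rw [← Finset.mul_prod_erase _ _ hi, Function.update_self]
      congr 1
      refine Finset.prod_congr rfl fun j hj => ?_
      rw [Function.update_of_ne (Finset.ne_of_mem_erase hj)]
    have e7 : -((κ i : ℂ) + β i) = (α - M) * m i := by
      rw [hα i hir, hκ]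
      push_cast
      ring
    rw [e6, e7, map_mul]
    have e8 : (C (m i : ℂ) : MvPolynomial (Fin n) ℂ) = (m i : MvPolynomial (Fin n) ℂ) :=
      map_natCast C _
    rw [e8]
    ring
  rw [h5, br_sum] at h3
  have h6 : JJ f D β r a (∑ l, br β r (κ + m) (F * pderiv l (V l) + ∑ i ∈ Finset.range (r + 1),
        C (-((κ i : ℂ) + β i)) * (G i * (pderiv l (f i) * V l))) -
      ∑ l : Fin n, nab f β r l (br β r κ (V l))) := by
    rw [← Finset.sum_sub_distrib]
    refine JJ.sum _ _ fun l _ => ?_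
    rw [nab_br f β r hβ, br_add, br_sum]
    have e9 : br β r (κ + m) (F * pderiv l (V l)) + ∑ i ∈ Finset.range (r + 1),
          br β r (κ + m) (C (-((κ i : ℂ) + β i)) * (G i * (pderiv l (f i) * V l))) -
        (br β r κ (pderiv l (V l)) + ∑ i ∈ Finset.range (r + 1),
          C (-((κ i : ℂ) + β i)) * br β r (up κ i) (pderiv l (f i) * V l)) =
        (br β r (κ + m) (F * pderiv l (V l)) - br β r κ (pderiv l (V l))) +
        ∑ i ∈ Finset.range (r + 1), C (-((κ i : ℂ) + β i)) *
          (br β r (κ + m) (G i * (pderiv l (f i) * V l)) -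
            br β r (up κ i) (pderiv l (f i) * V l)) := by
      rw [add_sub_add_comm, ← Finset.sum_sub_distrib]
      congr 1
      refine Finset.sum_congr rfl fun i _ => ?_
      rw [br_C, mul_sub]
    rw [e9]
    refine (h1 l).add (JJ.sum _ _ fun i hi => (h2 l i ?_).C_mul _)
    rw [Finset.mem_range] at hi
    omega
  have h7 := h6.add h3.neg
  convert h7 using 1
  abel

include hf hD in
/-- **the passage to the Koszul complex** -/
theorem cay2 (a : ℕ) (hn : (n : ℂ) + a = ∑ i ∈ Finset.range (r + 1), (D i : ℂ) * β i)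
    (g : MvPolynomial (Fin n) ℂ) (A : Fin n → MvPolynomial (Fin n ⊕ ℕ) ℂ)
    (hA : ∀ l, A l ∈ sp (Wg n D r (a + 1)))
    (h : JJ f D β r a (inc g - ∑ l : Fin n, nab f β r l (A l))) :
    ∃ (K : ℕ) (v : ℕ → MvPolynomial (Fin n ⊕ ℕ) ℂ),
      (∀ l, l < n + r → v l ∈ sp (Fil D n r ((a : ℤ) - (eF n l).1) K)) ∧
      inc g = ∑ l ∈ Finset.range (n + r), nab f β r l (v l) := by
  classical
  obtain ⟨B, hB, hBe⟩ := h
  have hD0 : (D 0 : ℂ) ≠ 0 := Nat.cast_ne_zero.2 (hD 0).ne'
  -- Euler's relation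
  have hE : ∑ l : Fin n, nab f β r l (X (Sum.inl l) * B 0) =
      ∑ i ∈ Finset.range (r + 1), C (D i : ℂ) * tt f β i (B 0) := by
    have h1 : ∀ l : Fin n, nab f β r l (X (Sum.inl l) * B 0) =
        X (Sum.inl l) * sF f r l * B 0 + B 0 + X (Sum.inl l) * pderiv (Sum.inl l) (B 0) := by
      intro l
      rw [nab_apply, Dv, dif_pos l.2, bt, if_pos l.2, C_0, zero_mul, add_zero]
      change _ + pderiv (Sum.inl l) (X (Sum.inl l) * B 0) = _
      rw [Derivation.leibniz, pderiv_X_self, smul_eq_mul, smul_eq_mul, mul_one]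
      ring
    have h2 : ∑ l : Fin n, X (Sum.inl l) * sF f r l =
        ∑ i ∈ Finset.range (r + 1), C (D i : ℂ) * (X (Sum.inr i) * inc (f i)) := by
      have h3 : ∀ i, inc (f i) * C (D i : ℂ) = ∑ l : Fin n, X (Sum.inl l) * inc (pderiv l (f i)) := by
        intro i
        have h4 := congrArg inc (hf i).sum_X_mul_pderiv
        rw [map_sum, map_nsmul, nsmul_eq_mul] at h4
        rw [show (C (D i : ℂ) : MvPolynomial (Fin n ⊕ ℕ) ℂ) = (D i : MvPolynomial (Fin n ⊕ ℕ) ℂ) from
          map_natCast C _, mul_comm, ← h4]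
        refine Finset.sum_congr rfl fun l _ => ?_
        rw [map_mul]
        congr 1
        exact rename_X _ _
      have h5 : ∀ i, C (D i : ℂ) * (X (Sum.inr i) * inc (f i)) =
          ∑ l : Fin n, X (Sum.inl l) * (X (Sum.inr i) * inc (pderiv l (f i))) := by
        intro i
        rw [show C (D i : ℂ) * (X (Sum.inr i) * inc (f i)) =
          X (Sum.inr i) * (inc (f i) * C (D i : ℂ)) by ring, h3, Finset.mul_sum]
        exact Finset.sum_congr rfl fun l _ => by ring
      rw [Finset.sum_congr rfl fun i _ => h5 i, Finset.sum_comm]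
      refine Finset.sum_congr rfl fun l _ => ?_
      rw [sF, dif_pos l.2, Finset.mul_sum]
    rw [Finset.sum_congr rfl fun l _ => h1 l, Finset.sum_add_distrib, Finset.sum_add_distrib,
      ← Finset.sum_mul, h2, Finset.sum_const, Finset.card_univ, Fintype.card_fin]
    have h6 := euler D r a (B 0) (hB 0 (Nat.zero_le _))
    have h7 : ∑ i ∈ Finset.range (r + 1), C (D i : ℂ) * tt f β i (B 0) =
        (∑ i ∈ Finset.range (r + 1), C (D i : ℂ) * (X (Sum.inr i) * inc (f i))) * B 0 +
        (∑ i ∈ Finset.range (r + 1), C (D i : ℂ) * (X (Sum.inr i) * pderiv (Sum.inr i) (B 0)) +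
          C (∑ i ∈ Finset.range (r + 1), (D i : ℂ) * β i) * B 0) := by
      rw [map_sum, Finset.sum_mul, Finset.sum_mul, ← Finset.sum_add_distrib,
        ← Finset.sum_add_distrib]
      refine Finset.sum_congr rfl fun i _ => ?_
      rw [tt, map_mul]
      ring
    rw [h7, ← hn, map_add, nsmul_eq_mul]
    have h8 : (C (n : ℂ) : MvPolynomial (Fin n ⊕ ℕ) ℂ) = (n : MvPolynomial (Fin n ⊕ ℕ) ℂ) :=
      map_natCast C _
    rw [h8]
    push_cast at h6
    linear_combination h6
  let v : ℕ → MvPolynomial (Fin n ⊕ ℕ) ℂ := fun l =>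
    if h : l < n then A ⟨l, h⟩ + C (D 0 : ℂ)⁻¹ * (X (Sum.inl ⟨l, h⟩) * B 0)
    else B (l - n + 1) - C ((D (l - n + 1) : ℂ) / D 0) * B 0
  have hv : ∀ l, l < n + r → v l ∈ sp (Wg n D r ((a : ℤ) - (eF n l).1)) := by
    intro l hl
    by_cases h : l < n
    · change (dite _ _ _) ∈ _
      rw [dif_pos h, eF_lt h, sub_neg_eq_add]
      refine add_mem (hA _) (Wg_C _ ?_)
      refine sp_mul (fun m hm m' hm' => ?_) (sp_X _) (hB 0 (Nat.zero_le _))
      rw [Set.mem_singleton_iff] at hm
      refine ⟨?_, fun i hi => ?_⟩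
      · rw [hm, wt_add, wt_single, KD.W_inl, Prod.fst_add, hm'.1]
        ring
      · rw [hm, Finsupp.add_apply, hm'.2 i hi, Finsupp.single_apply, if_neg (by simp)]
    · change (dite _ _ _) ∈ _
      rw [dif_neg h, eF_ge h]
      change _ ∈ sp (Wg n D r ((a : ℤ) - 0))
      rw [sub_zero]
      exact sub_mem (hB _ (by omega)) (Wg_C _ (hB 0 (Nat.zero_le _)))
  choose! K hK using fun l (hl : l < n + r) => exists_Fil (hv l hl)
  refine ⟨∑ l ∈ Finset.range (n + r), K l, v, fun l hl => hK l hl _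
    (Finset.single_le_sum (f := K) (fun _ _ => Nat.zero_le _) (Finset.mem_range.2 hl)), ?_⟩
  have h9 : inc g = ∑ l : Fin n, nab f β r l (A l) +
      ∑ i ∈ Finset.range (r + 1), tt f β i (B i) := by
    rw [← hBe]
    ring
  have e5 : ∑ l ∈ Finset.range (n + r), nab f β r l (v l) =
      ∑ x ∈ Finset.range n, nab f β r x (v x) +
        ∑ x ∈ Finset.range r, nab f β r (n + x) (v (n + x)) := Finset.sum_range_add _ n r
  rw [h9, e5]
  have e0 : ∑ x ∈ Finset.range n, nab f β r x (v x) = ∑ x : Fin n, nab f β r x (v x) :=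
    Finset.sum_range _
  have hCn : ∀ (l : ℕ) (c : ℂ) (P : MvPolynomial (Fin n ⊕ ℕ) ℂ),
      nab f β r l (C c * P) = C c * nab f β r l P := by
    intro l c P
    have h1 : Dv n l (C c * P) = C c * Dv n l P := by
      rw [Derivation.leibniz, ← algebraMap_eq, Derivation.map_algebraMap, smul_zero, add_zero,
        smul_eq_mul]
    rw [nab_apply, nab_apply, h1]
    ring
  have e1 : ∀ x : Fin n, nab f β r x (v x) = nab f β r x (A x) +
      C (D 0 : ℂ)⁻¹ * nab f β r x (X (Sum.inl x) * B 0) := by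
    intro x
    have h1 : v x = A x + C (D 0 : ℂ)⁻¹ * (X (Sum.inl x) * B 0) := dif_pos x.2
    rw [h1, map_add, hCn]
  have e2 : ∀ x ∈ Finset.range r, nab f β r (n + x) (v (n + x)) =
      tt f β (x + 1) (B (x + 1)) - C ((D (x + 1) : ℂ) / D 0) * tt f β (x + 1) (B 0) := by
    intro x hx
    rw [Finset.mem_range] at hx
    have h1 : v (n + x) = B (x + 1) - C ((D (x + 1) : ℂ) / D 0) * B 0 := by
      change (dite _ _ _) = _
      rw [dif_neg (by omega), show n + x - n + 1 = x + 1 by omega]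
    rw [h1, map_sub, hCn, tt_nab f β r x hx, tt_nab f β r x hx]
  rw [e0, Finset.sum_congr rfl fun x _ => e1 x, Finset.sum_congr rfl e2, Finset.sum_add_distrib,
    ← Finset.mul_sum, hE, Finset.sum_sub_distrib, Finset.sum_range_succ' (fun i => tt f β i (B i)),
    Finset.sum_range_succ' (fun i => C (D i : ℂ) * tt f β i (B 0)), mul_add, Finset.mul_sum]
  have e3 : C (D 0 : ℂ)⁻¹ * (C (D 0 : ℂ) * tt f β 0 (B 0)) = tt f β 0 (B 0) := by
    rw [← mul_assoc, ← map_mul, inv_mul_cancel₀ hD0, map_one, one_mul]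
  have e4 : ∀ i ∈ Finset.range r, C (D 0 : ℂ)⁻¹ * (C (D (i + 1) : ℂ) * tt f β (i + 1) (B 0)) =
      C ((D (i + 1) : ℂ) / D 0) * tt f β (i + 1) (B 0) := by
    intro i _
    rw [← mul_assoc, ← map_mul, div_eq_inv_mul]
  rw [e3, Finset.sum_congr rfl e4]
  ring

end

end Pool.Agent.U841.SN
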