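import Pool.Agent.U841.SN.Red

set_option autoImplicit false

/-! # Linear vector fields tangent to a smooth cone -/

namespace Pool.Agent.U841.SN

open MvPolynomial

variable {n : ℕ}

theorem mkK_inj {R : Type} [AddCommGroup R] : ∀ (n : ℕ) (v : ℕ → R), mkK n v = 0 →
    ∀ i, i < n → v i = 0
  | 0, _, _, i, hi => absurd hi (Nat.not_lt_zero i)
  | n + 1, v, h, i, hi => by
    rw [mkK_succ, pair_eq_zero] at h
    rcases Nat.lt_succ_iff_lt_or_eq.1 hi with h1 | h1
    · exact mkK_inj n v h.1 i h1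
    · subst h1
      exact iK_inj _ _ h.2

theorem inc_ne {g : MvPolynomial (Fin n) ℂ} (h : inc g = 0) : g = 0 :=
  inc_inj (by rw [h, map_zero])

/-- **Vector fields of small degree tangent to a smooth cone.** -/
theorem div_zero (q : MvPolynomial (Fin n) ℂ) (e k : ℕ) (hq : q.IsHomogeneous e) (hn : 2 ≤ n)
    (he : k + 2 ≤ e) (hNC : NC (fun _ => q) 0) (u : Fin n → MvPolynomial (Fin n) ℂ)
    (hu : ∀ l, (u l).IsHomogeneous (k + 1)) (h : ∑ l, u l * pderiv l q = 0) :
    ∑ l, pderiv l (u l) = 0 ∧ (k + 3 ≤ e → ∀ l, u l = 0) := by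
  classical
  set f : ℕ → MvPolynomial (Fin n) ℂ := fun _ => q with hfdef
  set D : ℕ → ℕ := fun _ => e with hDdef
  have hf : ∀ i, (f i).IsHomogeneous (D i) := fun _ => hq
  have hD : ∀ i, 0 < D i := fun _ => by simp only [hDdef]; omega
  set v : ℕ → MvPolynomial (Fin n ⊕ ℕ) ℂ := fun l =>
    X (Sum.inr 0) * inc (if h : l < n then u ⟨l, h⟩ else 0) with hv
  have hy : (X (Sum.inr 0) : MvPolynomial (Fin n ⊕ ℕ) ℂ) ∈ GG D n 0 (-(e : ℤ), 1) := by
    have h1 := GG_X D (n := n) (r := 0) (v := (Sum.inr 0 : Fin n ⊕ ℕ)) (fun i hi => by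
      injection hi with hi; omega)
    exact h1
  have hvG : ∀ l, l < n + 0 → v l ∈ GG D n 0 ((((k : ℤ) - e, 2) : ℤ × ℤ) - eF n l) := by
    intro l hl
    have hl' : l < n := hl
    have h1 := GG_mul D hy (inc_GG D 0 _ _ (hu ⟨l, hl'⟩))
    rw [eF_lt hl']
    simp only [hv, dif_pos hl']
    convert h1 using 2
    ext <;> simp; ring
  set z := mkK (n + 0) v with hz
  have hzG : z ∈ fF n D 0 1 ((k : ℤ) - e, 2) := mkK_gr _ _ _ hvG
  have hsum : ∑ l ∈ Finset.range (n + 0), sF f 0 l * v l = 0 := by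
    have h1 : ∀ l : Fin n, sF f 0 l * v l =
        X (Sum.inr 0) ^ 2 * inc (u l * pderiv l q) := by
      intro l
      have h2 : sF f 0 l = X (Sum.inr 0) * inc (pderiv l q) := by
        rw [sF, dif_pos l.2, Finset.sum_range_one]
      have h3 : v l = X (Sum.inr 0) * inc (u l) := by
        simp only [hv, dif_pos l.2]
      rw [h2, h3, map_mul]
      ring
    change ∑ l ∈ Finset.range n, sF f 0 l * v l = 0
    rw [← Fin.sum_univ_eq_sum_range (fun l => sF f 0 l * v l) n,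
      Finset.sum_congr rfl fun l _ => h1 l, ← Finset.mul_sum, ← map_sum, h, map_zero, mul_zero]
  have hdz : dF f 0 z = 0 := by
    have h1 : dF f 0 z = iK (n + 0) (∑ l ∈ Finset.range (n + 0), sF f 0 l * v l) := d_mkK _ _ _
    rw [h1, hsum, map_zero]
  obtain ⟨w, hw, hzw⟩ := H1_NC f D hf hD 0 hNC ((k : ℤ) - e) 2 le_rfl
    (Or.inr (by exact_mod_cast hn)) z hzG hdz
  have van : ∀ (p : ℤ) (δ : ℤ × ℤ), δ.1 + p < 0 → δ.2 = p → ∀ z ∈ fF n D 0 p δ, z = 0 := by
    intro p δ h1 h2 z hz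
    refine gr_vanish (fun p δ => δ.1 + p < 0 ∧ δ.2 = p) _ (fun i hi p δ h => ?_)
      (fun δ h z hz => ?_) _ _ ⟨h1, h2⟩ z hz
    · rw [eF_lt (show i < n from hi)]
      refine ⟨?_, ?_⟩
      · rw [Prod.fst_sub]
        have := h.1
        change δ.1 - (-1) + (p - 1) < 0
        linarith
      · rw [Prod.snd_sub, h.2]
    · obtain ⟨g, hg, hg2⟩ := exists_inc D 0 δ.1 z (by
        have : δ = (δ.1, 0) := Prod.ext rfl h.2
        rwa [this] at hz)
      rw [← hg]
      have : g = 0 := by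
        ext m
        by_contra h3
        rw [coeff_zero] at h3
        have h4 := hg2 m h3
        have h5 := h.1
        omega
      rw [this, map_zero]
  refine ⟨?_, fun he3 l => ?_⟩
  · have h1 := dN_dN f (0 : ℕ → ℂ) 0 w
    have h2 : dK (dl n (0 : ℕ → ℂ)) (n + 0) w = 0 := by
      have hdu := d_gr (G := GG D n 0) (e := eF n) (dl n (0 : ℕ → ℂ)) (0, -1) (n + 0)
        (fun i hi δ z hz => dl_GG D (0 : ℕ → ℂ) 0 i hi δ z hz) 2 _ w hw
      refine van _ _ ?_ ?_ _ hdu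
      · change (k : ℤ) - e + 0 + (2 - 1) < 0
        omega
      · rfl
    have h1' : dN f (0 : ℕ → ℂ) 0 w = z := by
      rw [dN_eq, h2, hzw]
      exact add_zero _
    rw [h1', dN_eq, hdz] at h1
    replace h1 : dK (dl n (0 : ℕ → ℂ)) (n + 0) z = 0 := (zero_add _).symm.trans h1
    have h3 : dK (dl n (0 : ℕ → ℂ)) (n + 0) z =
        iK (n + 0) (∑ l ∈ Finset.range (n + 0), dl n (0 : ℕ → ℂ) l (v l)) := d_mkK _ _ _
    rw [h3] at h1
    have h4 := iK_inj _ _ h1
    have h5 : ∀ l : Fin n, dl n (0 : ℕ → ℂ) l (v l) = X (Sum.inr 0) * inc (pderiv l (u l)) := by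
      intro l
      have h6 : v l = X (Sum.inr 0) * inc (u l) := by
        simp only [hv, dif_pos l.2]
      rw [dl_apply, bt, if_pos l.2, C_0, zero_mul, add_zero, h6, Dv, dif_pos l.2]
      change pderiv (Sum.inl l) (X (Sum.inr 0) * inc (u l)) = _
      rw [Derivation.leibniz, pderiv_X_of_ne (by simp), pderiv_inc, smul_eq_mul, smul_zero,
        add_zero]
    change ∑ l ∈ Finset.range n, dl n (0 : ℕ → ℂ) l (v l) = 0 at h4
    rw [← Fin.sum_univ_eq_sum_range (fun l => dl n (0 : ℕ → ℂ) l (v l)) n,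
      Finset.sum_congr rfl fun l _ => h5 l, ← Finset.mul_sum, ← map_sum] at h4
    exact inc_ne ((mul_eq_zero.1 h4).resolve_left (X_ne_zero _))
  · have h1 : w = 0 := van 2 _ (by change (k : ℤ) - e + 2 < 0; omega) rfl w hw
    rw [h1, map_zero] at hzw
    have h2 := mkK_inj _ _ hzw l l.2
    have h6 : v l = X (Sum.inr 0) * inc (u l) := by
      simp only [hv, dif_pos l.2]
    rw [h6] at h2
    exact inc_ne ((mul_eq_zero.1 h2).resolve_left (X_ne_zero _))

end Pool.Agent.U841.SN
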