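import Pool.Agent.U841.SN.Core

set_option autoImplicit false

/-! # The solutions of the reduced equations -/

namespace Pool.Agent.U841.SN

open MvPolynomial

variable {n : ℕ}

theorem hom_zero {p : MvPolynomial (Fin n) ℂ} (h : p.IsHomogeneous 0) : ∃ c : ℂ, p = C c := by
  classical
  refine ⟨coeff 0 p, ?_⟩
  ext m
  rw [coeff_C]
  by_cases h1 : 0 = m
  · rw [if_pos h1, h1]
  · rw [if_neg h1]
    by_contra h2
    have h3 := h h2
    have h4 : m.degree = 0 := by
      rw [Finsupp.degree_eq_weight_one]
      exact h3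
    exact h1 ((Finsupp.degree_eq_zero_iff m).1 h4).symm

theorem hom_one {p : MvPolynomial (Fin n) ℂ} (h : p.IsHomogeneous 1) :
    ∃ a : Fin n → ℂ, (∀ l, pderiv l p = C (a l)) ∧ ∀ x, eval x p = ∑ l, x l * a l := by
  have h0 : ∀ l, ∃ c : ℂ, pderiv l p = C c := fun l => hom_zero (h.pderiv (i := l))
  choose a ha using h0
  refine ⟨a, ha, fun x => ?_⟩
  have h1 := congrArg (eval x) h.sum_X_mul_pderiv
  rw [one_smul, map_sum] at h1
  rw [← h1]
  refine Finset.sum_congr rfl fun l _ => ?_
  rw [map_mul, eval_X, ha, eval_C]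

theorem NC.one {f : ℕ → MvPolynomial (Fin n) ℂ} {r : ℕ} (h : NC f r) (i : ℕ) (hi : i ≤ r) :
    NC (fun _ => f i) 0 := by
  intro x hx y h1 h2 j hj
  have hj0 : j = 0 := by omega
  subst hj0
  have h3 := h x hx (fun j => if j = i then y 0 else 0) (fun j _ => by
    by_cases h4 : j = i
    · rw [if_pos h4, h4]
      exact h1 0 le_rfl
    · rw [if_neg h4, zero_mul]) (fun j => by
    rw [Finset.sum_eq_single i]
    · rw [if_pos rfl]
      have h5 := h2 j
      rwa [Finset.sum_range_one] at h5
    · intro l _ hl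
      rw [if_neg hl, zero_mul]
    · intro h6
      exact absurd (Finset.mem_range.2 (by omega)) h6) i hi
  rwa [if_pos rfl] at h3

theorem NC.ne {f : ℕ → MvPolynomial (Fin n) ℂ} {r : ℕ} (h : NC f r) (hn : 0 < n) (i : ℕ)
    (hi : i ≤ r) : f i ≠ 0 := by
  intro h0
  have h1 := h.one i hi (fun _ => 1) (fun h2 => by
    have := congrFun h2 ⟨0, hn⟩
    simp at this) (fun _ => 1) (fun _ _ => by rw [h0, map_zero, mul_zero])
    (fun j => by rw [Finset.sum_range_one, h0, map_zero, map_zero, mul_zero]) 0 le_rfl
  exact one_ne_zero h1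

/-- the gradient map of a smooth quadric is onto -/
theorem quad_surj (Q : MvPolynomial (Fin n) ℂ) (hQ : Q.IsHomogeneous 2)
    (hNC : NC (fun _ => Q) 0) (a : Fin n → ℂ) : ∃ p : Fin n → ℂ,
      ∀ l, eval p (pderiv l Q) = a l := by
  classical
  have h1 : ∀ l, (pderiv l Q).IsHomogeneous 1 := fun l => hQ.pderiv (i := l)
  choose A _ hA using fun l => hom_one (h1 l)
  let G : (Fin n → ℂ) →ₗ[ℂ] (Fin n → ℂ) :=
    { toFun := fun x l => eval x (pderiv l Q)
      map_add' := fun x y => by
        funext l
        simp only [hA, Pi.add_apply, add_mul, Finset.sum_add_distrib]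
      map_smul' := fun c x => by
        funext l
        simp only [hA, Pi.smul_apply, smul_eq_mul, RingHom.id_apply, Finset.mul_sum, mul_assoc] }
  have hG : Function.Injective G := by
    rw [← LinearMap.ker_eq_bot, LinearMap.ker_eq_bot']
    intro x hx
    by_contra h2
    have h3 : ∀ l, eval x (pderiv l Q) = 0 := fun l => congrFun hx l
    have h4 := hNC x h2 (fun _ => 1) (fun _ _ => by
      have h5 := congrArg (eval x) hQ.sum_X_mul_pderiv
      rw [map_sum, nsmul_eq_mul, map_mul] at h5
      have h6 : ∑ l, eval x (X l * pderiv l Q) = 0 :=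
        Finset.sum_eq_zero fun l _ => by rw [map_mul, h3, mul_zero]
      rw [h6, map_natCast] at h5
      rw [one_mul]
      exact (mul_eq_zero.1 h5.symm).resolve_left (by norm_num)) (fun j => by
      rw [Finset.sum_range_one, h3, mul_zero]) 0 le_rfl
    exact one_ne_zero h4
  obtain ⟨p, hp⟩ := (LinearMap.injective_iff_surjective.1 hG) a
  exact ⟨p, fun l => congrFun hp l⟩

/-- **The reduced equations have no nontrivial solution.** -/
theorem alg (f : ℕ → MvPolynomial (Fin n) ℂ) (D : ℕ → ℕ) (hf : ∀ i, (f i).IsHomogeneous (D i))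
    (hD : ∀ i, 0 < D i) (r : ℕ) (hNC : NC f r) (hn : 2 ≤ n) (k : ℕ)
    (hk : (k = 0 ∧ 2 ≤ D 0) ∨ k + 3 ≤ D 0) (β : ℕ → ℂ) (g : MvPolynomial (Fin n) ℂ)
    (u : ℕ → MvPolynomial (Fin n) ℂ)
    (hu : ∀ l, l < n + r → ∀ m, coeff m (u l) ≠ 0 → (m.degree : ℤ) = (k : ℤ) - (eF n l).1)
    (h1 : ∀ i, i ≤ r → ∑ l : Fin n, u l * pderiv l (f i) +
        (if 1 ≤ i then f i * u (n + (i - 1)) else 0) = 0)
    (h2 : ∑ l : Fin n, pderiv l (u l) + ∑ i ∈ Finset.range r, C (β (i + 1)) * u (n + i) = g) :
    g = 0 := by
  classical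
  have hu1 : ∀ l : Fin n, (u l).IsHomogeneous (k + 1) := by
    intro l m hm
    have h3 := hu l (by omega) m hm
    rw [eF_lt l.2] at h3
    have h4 : (m.degree : ℤ) = k - (-1) := h3
    have h5 : m.degree = k + 1 := by omega
    rw [Finsupp.degree_eq_weight_one] at h5
    exact h5
  have hu2 : ∀ j, j < r → (u (n + j)).IsHomogeneous k := by
    intro j hj m hm
    have h3 := hu (n + j) (by omega) m hm
    rw [eF_ge (by omega)] at h3
    have h4 : (m.degree : ℤ) = k - 0 := h3
    have h5 : m.degree = k := by omega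
    rw [Finsupp.degree_eq_weight_one] at h5
    exact h5
  have h10 : ∑ l : Fin n, u l * pderiv l (f 0) = 0 := by
    have h3 := h1 0 (Nat.zero_le _)
    rwa [if_neg (by norm_num), add_zero] at h3
  have h1j : ∀ j, j < r → ∑ l : Fin n, u l * pderiv l (f (j + 1)) + f (j + 1) * u (n + j) = 0 := by
    intro j hj
    have h3 := h1 (j + 1) (by omega)
    rwa [if_pos (by omega), Nat.add_sub_cancel] at h3
  have hfin : ∑ l : Fin n, pderiv l (u l) = 0 → (∀ j, j < r → u (n + j) = 0) → g = 0 := by
    intro h3 h4
    rw [← h2, h3, zero_add]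
    refine Finset.sum_eq_zero fun j hj => ?_
    rw [h4 j (Finset.mem_range.1 hj), mul_zero]
  by_cases hk3 : k + 3 ≤ D 0
  · have h3 := div_zero (f 0) (D 0) k (hf 0) hn (by omega) (hNC.one 0 (Nat.zero_le _))
      (fun l => u l) hu1 h10
    have h4 := h3.2 hk3
    refine hfin h3.1 fun j hj => ?_
    have h5 := h1j j hj
    have h6 : ∑ l : Fin n, u l * pderiv l (f (j + 1)) = 0 :=
      Finset.sum_eq_zero fun l _ => by rw [h4 l, zero_mul]
    rw [h6, zero_add] at h5
    exact (mul_eq_zero.1 h5).resolve_left (hNC.ne (by omega) _ (by omega))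
  · obtain ⟨rfl, hD0⟩ := hk.resolve_right hk3
    have hD02 : D 0 = 2 := by omega
    have hdiv := (div_zero (f 0) (D 0) 0 (hf 0) hn (by omega) (hNC.one 0 (Nat.zero_le _))
      (fun l => u l) hu1 h10).1
    refine hfin hdiv fun j hj => ?_
    obtain ⟨c, hc⟩ := hom_zero (hu2 j hj)
    have h5 := h1j j hj
    rw [hc] at h5 ⊢
    suffices hc0 : c = 0 by rw [hc0, C_0]
    by_cases hDj : 2 ≤ D (j + 1)
    · have hDne : (D (j + 1) : ℂ) ≠ 0 := Nat.cast_ne_zero.2 (by omega)
      have h6 := (div_zero (f (j + 1)) (D (j + 1)) 0 (hf _) hn (by omega)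
        (hNC.one (j + 1) (by omega)) (fun l => u l + C (c / D (j + 1)) * X l)
        (fun l => (hu1 l).add (isHomogeneous_C_mul_X _ _)) (by
          have h7 : ∀ l : Fin n, (u l + C (c / D (j + 1)) * X l) * pderiv l (f (j + 1)) =
              u l * pderiv l (f (j + 1)) + C (c / D (j + 1)) * (X l * pderiv l (f (j + 1))) :=
            fun l => by ring
          rw [Finset.sum_congr rfl fun l _ => h7 l, Finset.sum_add_distrib, ← Finset.mul_sum,
            (hf (j + 1)).sum_X_mul_pderiv, nsmul_eq_mul, ← mul_assoc]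
          have h8 : C (c / D (j + 1)) * (D (j + 1) : MvPolynomial (Fin n) ℂ) = C c := by
            rw [← map_natCast C, ← map_mul, div_mul_cancel₀ _ hDne]
          rw [h8, mul_comm (C c)]
          exact h5)).1
      have h7 : ∀ l : Fin n, pderiv l (u l + C (c / D (j + 1)) * X l) =
          pderiv l (u l) + C (c / D (j + 1)) := fun l => by
        rw [map_add, pderiv_C_mul, pderiv_X_self, mul_one]
      rw [Finset.sum_congr rfl fun l _ => h7 l, Finset.sum_add_distrib, hdiv, zero_add,
        Finset.sum_const, Finset.card_univ, Fintype.card_fin, nsmul_eq_mul, ← map_natCast C,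
        ← map_mul] at h6
      have h8 : (n : ℂ) * (c / D (j + 1)) = 0 := C_injective (Fin n) ℂ (by rw [h6, C_0])
      have h9 := (mul_eq_zero.1 h8).resolve_left (Nat.cast_ne_zero.2 (by omega))
      exact (div_eq_zero_iff.1 h9).resolve_right hDne
    · have hD1 : D (j + 1) = 1 := by
        have := hD (j + 1)
        omega
      obtain ⟨a, ha1, ha2⟩ := hom_one (p := f (j + 1)) (by
        have h := hf (j + 1)
        rwa [hD1] at h)
      obtain ⟨p, hp⟩ := quad_surj (f 0) (by rw [← hD02]; exact hf 0)
        (hNC.one 0 (Nat.zero_le _)) a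
      have e1 := congrArg (eval p) h10
      rw [map_sum, map_zero] at e1
      have e2 := congrArg (eval p) h5
      rw [map_add, map_sum, map_mul, eval_C, map_zero] at e2
      have e3 : ∑ l : Fin n, eval p (u l * pderiv l (f (j + 1))) =
          ∑ l : Fin n, eval p (u l * pderiv l (f 0)) :=
        Finset.sum_congr rfl fun l _ => by rw [map_mul, map_mul, ha1, eval_C, hp]
      rw [e3, e1, zero_add] at e2
      rcases mul_eq_zero.1 e2 with e4 | e4
      swap
      · exact e4
      exfalso
      have e5 : eval p (f 0) = 0 := by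
        have e6 := congrArg (eval p) (hf 0).sum_X_mul_pderiv
        rw [map_sum, nsmul_eq_mul, map_mul, hD02] at e6
        have e7 : ∑ l, eval p (X l * pderiv l (f 0)) = 0 := by
          rw [← e4, ha2]
          exact Finset.sum_congr rfl fun l _ => by rw [map_mul, eval_X, hp]
        rw [e7, map_natCast] at e6
        exact (mul_eq_zero.1 e6.symm).resolve_left (by norm_num)
      have hp0 : p ≠ 0 := by
        intro hp0
        apply hNC.ne (by omega) (j + 1) (by omega)
        have e6 : ∀ l, a l = 0 := by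
          intro l
          have h1l : (pderiv l (f 0)).IsHomogeneous 1 := by
            have := (hf 0).pderiv (i := l)
            rwa [hD02] at this
          obtain ⟨a', -, ha'⟩ := hom_one h1l
          rw [← hp l, ha', hp0]
          simp
        have e7 := (hf (j + 1)).sum_X_mul_pderiv
        rw [hD1, one_smul] at e7
        rw [← e7]
        refine Finset.sum_eq_zero fun l _ => ?_
        rw [ha1, e6, C_0, mul_zero]
      have e8 := hNC p hp0 (fun i => if i = 0 then 1 else if i = j + 1 then -1 else 0)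
        (fun i _ => by
          by_cases h6 : i = 0
          · rw [if_pos h6, h6, e5, mul_zero]
          · rw [if_neg h6]
            by_cases h7 : i = j + 1
            · rw [if_pos h7, h7, e4, mul_zero]
            · rw [if_neg h7, zero_mul]) (fun l => by
          have h6 : ∀ i ∈ Finset.range (r + 1), i ∉ ({0, j + 1} : Finset ℕ) →
              (if i = 0 then (1 : ℂ) else if i = j + 1 then -1 else 0) *
                eval p (pderiv l (f i)) = 0 := by
            intro i _ hi
            rw [Finset.mem_insert, Finset.mem_singleton, not_or] at hi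
            rw [if_neg hi.1, if_neg hi.2, zero_mul]
          rw [← Finset.sum_subset (s₁ := {0, j + 1}) (fun i hi => by
            rw [Finset.mem_insert, Finset.mem_singleton] at hi
            rw [Finset.mem_range]
            omega) h6, Finset.sum_pair (by omega), if_pos rfl, if_neg (by omega), if_pos rfl, hp,
            ha1, eval_C]
          ring) 0 (Nat.zero_le _)
      rw [if_pos rfl] at e8
      exact one_ne_zero e8

end Pool.Agent.U841.SN
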