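import Pool.Agent.U841.SN.Fun
import Pool.Agent.W574.HS.Flat

set_option autoImplicit false

/-! # The initial forms of functional equations -/

namespace Pool.Agent.U841.SN

open MvPolynomial Pool.Agent.H628R4.TP Pool.Agent.N127.PB Pool.Agent.U184 Pool.Agent.W574.CN

variable {σ : Type}

/-- an algebraic functional equation near the origin -/
def AlgLoc (F : MvPolynomial σ ℂ) (b : Polynomial ℂ) : Prop :=
  ∃ (H : MvPolynomial σ ℂ) (P : ℕ →₀ weylS σ), constantCoeff H ≠ 0 ∧
    ∀ s : ℕ, H * (C (b.eval (s : ℂ)) * F ^ s) =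
      P.sum fun m Q => ((s : ℂ) ^ m) • (Q : Module.End ℂ (MvPolynomial σ ℂ)) (F ^ (s + 1))

theorem algLoc_of_global {F : MvPolynomial σ ℂ} {b : Polynomial ℂ} (hb : IsBFunction F b) :
    AlgLoc F b := by
  obtain ⟨P, hP⟩ := hb
  exact ⟨1, P, by rw [map_one]; exact one_ne_zero, fun s => by rw [one_mul]; exact hP s⟩

theorem algLoc_of_local {F : MvPolynomial σ ℂ} {b : Polynomial ℂ} [Finite σ] (hF : F ≠ 0)
    (hb : IsLocalBFunction F b) : AlgLoc F b :=
  Pool.Agent.W574.HS.algebraic_of_local F hF b hb

/-- `F` has order at least `d` at the origin -/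
def OrdGe (d : ℕ) (F : MvPolynomial σ ℂ) : Prop := ∀ i, i < d → homogeneousComponent i F = 0

theorem OrdGe.mono {d e : ℕ} {F : MvPolynomial σ ℂ} (h : OrdGe d F) (he : e ≤ d) : OrdGe e F :=
  fun i hi => h i (by omega)

theorem OrdGe.hom {d : ℕ} {F : MvPolynomial σ ℂ} (h : F.IsHomogeneous d) : OrdGe d F := by
  intro i hi
  rw [homogeneousComponent_of_mem h, if_neg (by omega)]

/-- the components of a product -/
theorem hc_prod (p q : MvPolynomial σ ℂ) (d e : ℕ) (hp : OrdGe d p) :
    homogeneousComponent (d + e) (p * q) =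
      ∑ j ∈ Finset.range (e + 1), homogeneousComponent (d + j) p * homogeneousComponent (e - j) q := by
  classical
  have h1 : p = ∑ i ∈ Finset.range (p.totalDegree + 1 + (d + e + 1)), homogeneousComponent i p := by
    rw [Finset.sum_range_add]
    conv_lhs => rw [← sum_homogeneousComponent p]
    rw [left_eq_add]
    refine Finset.sum_eq_zero fun i _ => ?_
    exact homogeneousComponent_eq_zero _ _ (by omega)
  conv_lhs => rw [h1, Finset.sum_mul, map_sum]
  have h2 : ∀ i ∈ Finset.range (p.totalDegree + 1 + (d + e + 1)),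
      homogeneousComponent (d + e) (homogeneousComponent i p * q) =
      if d + e < i then 0 else
        homogeneousComponent i p * homogeneousComponent (d + e - i) q := by
    intro i _
    split_ifs with h
    · exact hc_mul_zero (homogeneousComponent_isHomogeneous i p) _ _ h
    · conv_lhs => rw [show d + e = i + (d + e - i) by omega]
      rw [hc_mul (homogeneousComponent_isHomogeneous i p)]
  rw [Finset.sum_congr rfl h2]
  have h3 : Finset.range (d + (e + 1)) ⊆ Finset.range (p.totalDegree + 1 + (d + e + 1)) := by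
    intro i hi
    rw [Finset.mem_range] at hi ⊢
    omega
  rw [← Finset.sum_subset h3 (fun i _ hi => by
    rw [Finset.mem_range] at hi
    rw [if_pos (by omega)]), Finset.sum_range_add]
  rw [Finset.sum_eq_zero (fun i hi => by
    rw [Finset.mem_range] at hi
    rw [hp i hi, zero_mul]
    split_ifs <;> rfl), zero_add]
  refine Finset.sum_congr rfl fun j hj => ?_
  rw [Finset.mem_range] at hj
  rw [if_neg (by omega), show d + e - (d + j) = e - j by omega]

theorem OrdGe.mul {d e : ℕ} {p q : MvPolynomial σ ℂ} (hp : OrdGe d p) (hq : OrdGe e q) :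
    OrdGe (d + e) (p * q) ∧ homogeneousComponent (d + e) (p * q) =
      homogeneousComponent d p * homogeneousComponent e q := by
  refine ⟨fun i hi => ?_, ?_⟩
  · by_cases h : i < d
    · have h1 := hc_prod p q 0 i (fun j hj => absurd hj (Nat.not_lt_zero j))
      rw [zero_add] at h1
      rw [h1]
      refine Finset.sum_eq_zero fun j hj => ?_
      rw [Finset.mem_range] at hj
      rw [hp _ (by omega), zero_mul]
    · have h1 := hc_prod p q d (i - d) hp
      rw [show d + (i - d) = i by omega] at h1
      rw [h1]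
      refine Finset.sum_eq_zero fun j hj => ?_
      rw [Finset.mem_range] at hj
      rw [hq _ (by omega), mul_zero]
  · rw [hc_prod p q d e hp, Finset.sum_range_succ', Nat.sub_zero, Nat.add_zero,
      Finset.sum_eq_zero, zero_add]
    intro j hj
    rw [Finset.mem_range] at hj
    rw [hq _ (by omega), mul_zero]

theorem OrdGe.pow {d : ℕ} {p : MvPolynomial σ ℂ} (hp : OrdGe d p) (m : ℕ) :
    OrdGe (d * m) (p ^ m) ∧ homogeneousComponent (d * m) (p ^ m) =
      homogeneousComponent d p ^ m := by
  induction m with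
  | zero =>
    refine ⟨fun i hi => by omega, ?_⟩
    rw [mul_zero, pow_zero, pow_zero]
    exact homogeneousComponent_eq_self (isHomogeneous_one _ _)
  | succ m ih =>
    have h := ih.1.mul hp
    rw [show d * (m + 1) = d * m + d by ring, pow_succ, pow_succ]
    refine ⟨h.1, ?_⟩
    rw [h.2, ih.2]

/-- **The expansion of a power.** -/
theorem expand (F : MvPolynomial σ ℂ) (d : ℕ) (hF : OrdGe d F) (j : ℕ) :
    ∃ W : Polynomial (MvPolynomial σ ℂ), ∀ m : ℕ, j ≤ m →
      homogeneousComponent (d * m + j) (F ^ m) =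
        homogeneousComponent d F ^ (m - j) * W.eval (m : MvPolynomial σ ℂ) := by
  classical
  set G := homogeneousComponent d F with hG
  have hGh : G.IsHomogeneous d := homogeneousComponent_isHomogeneous d F
  set R := F - G with hR
  have hRo : OrdGe (d + 1) R := by
    intro i hi
    rw [hR, map_sub]
    by_cases h : i < d
    · rw [hF i h, OrdGe.hom hGh i h, sub_zero]
    · have : i = d := by omega
      rw [this, ← hG, homogeneousComponent_eq_self hGh, sub_self]
  refine ⟨∑ i ∈ Finset.range (j + 1), Polynomial.C (C ((i.factorial : ℂ)⁻¹) * G ^ (j - i) *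
    homogeneousComponent (d * i + j) (R ^ i)) * descPochhammer (MvPolynomial σ ℂ) i,
    fun m hm => ?_⟩
  have h1 : F ^ m = ∑ i ∈ Finset.range (m + 1),
      R ^ i * G ^ (m - i) * (m.choose i : MvPolynomial σ ℂ) := by
    rw [← add_pow, hR, sub_add_cancel]
  have h2 : ∀ i ∈ Finset.range (m + 1), homogeneousComponent (d * m + j)
      (R ^ i * G ^ (m - i) * (m.choose i : MvPolynomial σ ℂ)) =
      G ^ (m - i) * homogeneousComponent (d * i + j) (R ^ i) * (m.choose i : MvPolynomial σ ℂ) := by
    intro i hi
    rw [Finset.mem_range] at hi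
    have h3 : (m.choose i : MvPolynomial σ ℂ) = C (m.choose i : ℂ) := by simp
    rw [h3, mul_comm _ (C _), homogeneousComponent_C_mul, mul_comm (R ^ i)]
    have h4 : d * m + j = d * (m - i) + (d * i + j) := by
      have : d * m = d * (m - i) + d * i := by
        rw [← mul_add, Nat.sub_add_cancel (by omega)]
      omega
    rw [h4, hc_mul (hGh.pow _)]
    ring
  rw [h1, map_sum, Finset.sum_congr rfl h2]
  have h5 : Finset.range (j + 1) ⊆ Finset.range (m + 1) := by
    intro i hi
    rw [Finset.mem_range] at hi ⊢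
    omega
  rw [← Finset.sum_subset h5 (fun i hi hi' => by
    rw [Finset.mem_range] at hi hi'
    have h6 : homogeneousComponent (d * i + j) (R ^ i) = 0 := by
      refine (hRo.pow i).1 _ ?_
      have : (d + 1) * i = d * i + i := by ring
      omega
    rw [h6, mul_zero, zero_mul]), Polynomial.eval_finsetSum, Finset.mul_sum]
  refine Finset.sum_congr rfl fun i hi => ?_
  rw [Finset.mem_range] at hi
  rw [Polynomial.eval_mul, Polynomial.eval_C, descPochhammer_eval_eq_descFactorial,
    Nat.descFactorial_eq_factorial_mul_choose]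
  have h6 : G ^ (m - i) = G ^ (m - j) * G ^ (j - i) := by
    rw [← pow_add]
    congr 1
    omega
  have h7 : C ((i.factorial : ℂ)⁻¹) * (i.factorial : MvPolynomial σ ℂ) = 1 := by
    have h8 : (i.factorial : MvPolynomial σ ℂ) = C (i.factorial : ℂ) := by simp
    rw [h8, ← map_mul, inv_mul_cancel₀ (Nat.cast_ne_zero.2 i.factorial_ne_zero), map_one]
  rw [h6]
  push_cast
  linear_combination -(G ^ (m - j) * G ^ (j - i) * homogeneousComponent (d * i + j) (R ^ i) *
    (m.choose i : MvPolynomial σ ℂ)) * h7

/-- **The components of the derivatives of powers.** -/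
theorem act_expand (F : MvPolynomial σ ℂ) (d : ℕ) (hF : OrdGe d F)
    (u : Module.End ℂ (MvPolynomial σ ℂ)) (hu : u ∈ weylS σ) :
    ∃ (M : ℕ) (V : Polynomial (MvPolynomial σ ℂ)), ∀ s : ℕ, M ≤ s →
      homogeneousComponent (d * s + 1) (u (F ^ (s + 1))) =
        homogeneousComponent d F ^ (s - M) * V.eval (C (s : ℂ)) := by
  classical
  obtain ⟨N, U, hU⟩ := stmA2 σ u hu F
  set G := homogeneousComponent d F with hG
  -- we may assume that `N ≥ 1`
  have hU' : ∀ s : ℕ, N ≤ s → u (F ^ (s + 1)) =
      F ^ (s - N) * (F * U.eval ((s + 1 : ℕ) : MvPolynomial σ ℂ)) := by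
    intro s hs
    rw [hU (s + 1) (by omega), show s + 1 - N = (s - N) + 1 by omega, pow_succ]
    ring
  choose W hW using expand F d hF
  set e := d * N + 1 with he
  set U1 : Polynomial (MvPolynomial σ ℂ) := Polynomial.C F * U.comp (Polynomial.X + 1) with hU1
  refine ⟨N + e, ∑ j ∈ Finset.range (e + 1), Polynomial.C (G ^ (e - j)) *
    (W j).comp (Polynomial.X - Polynomial.C (N : MvPolynomial σ ℂ)) *
      mapU (homogeneousComponent (e - j)) U1, fun s hs => ?_⟩
  rw [hU' s (by omega)]
  have h1 : d * s + 1 = d * (s - N) + e := by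
    have : d * s = d * (s - N) + d * N := by rw [← mul_add, Nat.sub_add_cancel (by omega)]
    omega
  rw [h1, hc_prod _ _ _ _ (hF.pow _).1, Polynomial.eval_finsetSum, Finset.mul_sum]
  refine Finset.sum_congr rfl fun j hj => ?_
  rw [Finset.mem_range] at hj
  have h2 : U1.eval (C (s : ℂ)) = F * U.eval ((s + 1 : ℕ) : MvPolynomial σ ℂ) := by
    rw [hU1, Polynomial.eval_mul, Polynomial.eval_C, Polynomial.eval_comp, Polynomial.eval_add,
      Polynomial.eval_X, Polynomial.eval_one]
    congr 2
    simp
  rw [hW j (s - N) (by omega), Polynomial.eval_mul, Polynomial.eval_mul, Polynomial.eval_C,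
    mapU_eval, h2, Polynomial.eval_comp, Polynomial.eval_sub, Polynomial.eval_X,
    Polynomial.eval_C]
  have h3 : (C (s : ℂ) : MvPolynomial σ ℂ) - (N : MvPolynomial σ ℂ) =
      ((s - N : ℕ) : MvPolynomial σ ℂ) := by
    rw [Nat.cast_sub (by omega)]
    simp
  have h4 : G ^ (s - N - j) = G ^ (s - (N + e)) * G ^ (e - j) := by
    rw [← pow_add]
    congr 1
    omega
  rw [h3, h4]
  ring

/-- **The initial form of a functional equation at the origin, at a number `α`.** -/
theorem ext_point_t [Fintype σ] (F : MvPolynomial σ ℂ) (d : ℕ) (hd : 0 < d) (hF : OrdGe d F)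
    (hG0 : homogeneousComponent d F ≠ 0) (b : Polynomial ℂ) (hb : AlgLoc F b) (α : ℂ) :
    ∃ (c : ℂ) (N : ℕ) (V : σ → MvPolynomial σ ℂ), c ≠ 0 ∧
      (∀ l, (V l).IsHomogeneous (d * N + 1)) ∧
      homogeneousComponent d F * ∑ l, pderiv l (V l) +
        C (α - N) * ∑ l, V l * pderiv l (homogeneousComponent d F) =
        homogeneousComponent d F ^ (N + 1) * C (c * b.eval α) := by
  classical
  set G := homogeneousComponent d F with hG
  have hGh : G.IsHomogeneous d := homogeneousComponent_isHomogeneous d F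
  obtain ⟨H, P, hH, hP⟩ := hb
  have hHo : OrdGe 0 H := fun i hi => absurd hi (Nat.not_lt_zero i)
  choose p u hu hdec using fun m => normal (P m).1 (P m).2
  -- the equation in degree `d * s`
  have e1 : ∀ s : ℕ, C (constantCoeff H * b.eval (s : ℂ)) * G ^ s =
      ∑ l, pderiv l (∑ m ∈ P.support, C ((s : ℂ) ^ m) *
        homogeneousComponent (d * s + 1) (u m l (F ^ (s + 1)))) := by
    intro s
    have h1 := congrArg (homogeneousComponent (d * s)) (hP s)
    have h2 : homogeneousComponent (d * s) (H * (C (b.eval (s : ℂ)) * F ^ s)) =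
        C (constantCoeff H * b.eval (s : ℂ)) * G ^ s := by
      have h3 := hc_prod H (C (b.eval (s : ℂ)) * F ^ s) 0 (d * s) hHo
      rw [zero_add] at h3
      rw [h3, Finset.sum_eq_single 0]
      · rw [Nat.add_zero, Nat.sub_zero, homogeneousComponent_zero, homogeneousComponent_C_mul,
          (hF.pow s).2, map_mul, mul_assoc]
        rfl
      · intro j _ hj
        by_cases hjs : j ≤ d * s
        · rw [homogeneousComponent_C_mul, (hF.pow s).1 _ (by omega), mul_zero, mul_zero]
        · rename_i h5
          rw [Finset.mem_range] at h5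
          omega
      · intro h
        exact absurd (Finset.mem_range.2 (Nat.succ_pos _)) h
    rw [h2] at h1
    rw [h1, Finsupp.sum, map_sum]
    have h4 : ∀ m ∈ P.support, homogeneousComponent (d * s)
        (((s : ℂ) ^ m) • (P m : Module.End ℂ (MvPolynomial σ ℂ)) (F ^ (s + 1))) =
        ∑ l, C ((s : ℂ) ^ m) * pderiv l (homogeneousComponent (d * s + 1)
          (u m l (F ^ (s + 1)))) := by
      intro m _
      rw [map_smul, hdec m (F ^ (s + 1)), map_add, mul_comm (p m)]
      have h5 : homogeneousComponent (d * s) (F ^ (s + 1) * p m) = 0 := by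
        have h6 := ((hF.pow (s + 1)).1.mul (q := p m) (e := 0)
          (fun i hi => absurd hi (Nat.not_lt_zero i))).1
        refine h6 _ ?_
        rw [Nat.add_zero, mul_add]
        omega
      rw [h5, zero_add, map_sum, Finset.smul_sum]
      refine Finset.sum_congr rfl fun l _ => ?_
      rw [hc_pderiv, smul_eq_C_mul]
    rw [Finset.sum_congr rfl h4, Finset.sum_comm]
    refine Finset.sum_congr rfl fun l _ => ?_
    rw [map_sum]
    refine Finset.sum_congr rfl fun m _ => ?_
    rw [pderiv_C_mul]
  -- the families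
  choose M0 V0 hV0 using fun (m : ℕ) (l : σ) => act_expand F d hF (u m l) (hu m l)
  obtain ⟨N, hN⟩ : ∃ N : ℕ, ∀ m ∈ P.support, ∀ l, M0 m l ≤ N := by
    refine ⟨∑ m ∈ P.support, ∑ l, M0 m l, fun m hm l => ?_⟩
    have a1 : M0 m l ≤ ∑ l, M0 m l := Finset.single_le_sum (f := fun l => M0 m l)
      (fun _ _ => Nat.zero_le _) (Finset.mem_univ l)
    have a2 : ∑ l, M0 m l ≤ ∑ m ∈ P.support, ∑ l, M0 m l :=
      Finset.single_le_sum (f := fun m => ∑ l, M0 m l) (fun _ _ => Nat.zero_le _) hm
    omega
  let W : σ → Polynomial (MvPolynomial σ ℂ) := fun l => ∑ m ∈ P.support,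
    Polynomial.X ^ m * (Polynomial.C (G ^ (N - M0 m l)) * V0 m l)
  have hW : ∀ (l : σ) (s : ℕ), N ≤ s →
      ∑ m ∈ P.support, C ((s : ℂ) ^ m) * homogeneousComponent (d * s + 1) (u m l (F ^ (s + 1))) =
        G ^ (s - N) * (W l).eval (C (s : ℂ)) := by
    intro l s hs
    simp only [W, Polynomial.eval_finsetSum, Finset.mul_sum]
    refine Finset.sum_congr rfl fun m hm => ?_
    have hNm := hN m hm l
    rw [hV0 m l s (by omega), Polynomial.eval_mul, Polynomial.eval_mul, Polynomial.eval_pow,
      Polynomial.eval_X, Polynomial.eval_C, map_pow]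
    have h4 : G ^ (s - M0 m l) = G ^ (s - N) * G ^ (N - M0 m l) := by
      rw [← pow_add]
      congr 1
      omega
    rw [h4]
    ring
  let V : σ → Polynomial (MvPolynomial σ ℂ) := fun l =>
    mapU (homogeneousComponent (d * N + 1)) (W l)
  have hVh : ∀ l i, ((V l).coeff i).IsHomogeneous (d * N + 1) := fun l i => by
    rw [mapU_coeff]
    exact homogeneousComponent_isHomogeneous _ _
  have hV : ∀ (l : σ) (s : ℕ), N ≤ s →
      ∑ m ∈ P.support, C ((s : ℂ) ^ m) * homogeneousComponent (d * s + 1) (u m l (F ^ (s + 1))) =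
        G ^ (s - N) * (V l).eval (C (s : ℂ)) := by
    intro l s hs
    have h1 : homogeneousComponent (d * s + 1) (∑ m ∈ P.support, C ((s : ℂ) ^ m) *
        homogeneousComponent (d * s + 1) (u m l (F ^ (s + 1)))) =
        ∑ m ∈ P.support, C ((s : ℂ) ^ m) *
        homogeneousComponent (d * s + 1) (u m l (F ^ (s + 1))) := by
      refine homogeneousComponent_eq_self ?_
      refine IsHomogeneous.sum _ _ _ fun m _ => ?_
      exact (homogeneousComponent_isHomogeneous _ _).C_mul _
    rw [← h1, hW l s hs, mapU_eval]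
    have h2 : d * s + 1 = d * (s - N) + (d * N + 1) := by
      have : d * s = d * (s - N) + d * N := by rw [← mul_add, Nat.sub_add_cancel hs]
      omega
    rw [h2, hc_mul (hGh.pow (s - N))]
  refine ⟨constantCoeff H, N, fun l => (V l).eval (C α), hH,
    fun l => eval_hom_family (V l) _ (hVh l) α, ?_⟩
  have h1 := (id_and_deriv G hG0 N V ((Polynomial.C (constantCoeff H) * b).map C)
    (fun s hs => ?_) α).1
  · rw [h1]
    congr 1
    rw [Polynomial.eval_map, Polynomial.eval₂_at_apply, Polynomial.eval_mul, Polynomial.eval_C]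
  · rw [Polynomial.eval_map, Polynomial.eval₂_at_apply, Polynomial.eval_mul, Polynomial.eval_C,
      mul_comm (G ^ s), e1 s]
    exact Finset.sum_congr rfl fun l _ => by rw [hV l s hs]

end Pool.Agent.U841.SN
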