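import Pool.Agent.U184.Ext

set_option autoImplicit false

/-! # The functional equation of a form, with a numerator -/

namespace Pool.Agent.U841.SN

open MvPolynomial Pool.Agent.H628R4.TP Pool.Agent.N127.PB Pool.Agent.U184 Pool.Agent.W574.CN
  Pool.Agent.W574.SM

variable {σ : Type}

/-- **The functional equation of a form, in terms of vector fields.** -/
theorem ext_vf_g [Fintype σ] (f : MvPolynomial σ ℂ) (d : ℕ) (hf : f.IsHomogeneous d)
    (b : Polynomial ℂ) (hb : IsBFunction f b) (g : MvPolynomial σ ℂ) (k : ℕ)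
    (hg : g.IsHomogeneous k) (hk : k < d) :
    ∃ (S : Finset ℕ) (u : ℕ → σ → Module.End ℂ (MvPolynomial σ ℂ)),
      (∀ m l, u m l ∈ weylS σ) ∧ ∀ s : ℕ, C (b.eval (s : ℂ)) * (g * f ^ s) =
        ∑ l, pderiv l (homogeneousComponent (d * s + k + 1)
          (∑ m ∈ S, ((s : ℂ) ^ m) • u m l (f ^ (s + 1)))) := by
  classical
  obtain ⟨P, hP⟩ := hb
  choose p u hu hdec using fun m => normal (LinearMap.mulLeft ℂ g * (P m).1)
    (mul_mem (mulLeft_weyl g) (P m).2)
  refine ⟨P.support, u, hu, fun s => ?_⟩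
  have hfp : ∀ n : ℕ, (f ^ n).IsHomogeneous (d * n) := fun n => hf.pow n
  have e0 : C (b.eval (s : ℂ)) * (g * f ^ s) = ∑ m ∈ P.support, ((s : ℂ) ^ m) •
      (LinearMap.mulLeft ℂ g * (P m).1) (f ^ (s + 1)) := by
    rw [mul_left_comm, hP s, Finsupp.sum, Finset.mul_sum]
    refine Finset.sum_congr rfl fun m _ => ?_
    rw [mul_smul_comm]
    rfl
  have hgf : (g * f ^ s).IsHomogeneous (d * s + k) := by
    have h := hg.mul (hfp s)
    rwa [add_comm k] at h
  have e1 := congrArg (homogeneousComponent (d * s + k)) e0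
  rw [homogeneousComponent_C_mul, homogeneousComponent_eq_self hgf] at e1
  rw [e1]
  have e2 : (∑ m ∈ P.support, ((s : ℂ) ^ m) •
      ((LinearMap.mulLeft ℂ g * (P m).1)) (f ^ (s + 1))) =
      (∑ m ∈ P.support, ((s : ℂ) ^ m) • (p m * f ^ (s + 1))) +
      ∑ l, pderiv l (∑ m ∈ P.support, ((s : ℂ) ^ m) • u m l (f ^ (s + 1))) := by
    have e3 : ∀ l, pderiv l (∑ m ∈ P.support, ((s : ℂ) ^ m) • u m l (f ^ (s + 1))) =
        ∑ m ∈ P.support, ((s : ℂ) ^ m) • pderiv l (u m l (f ^ (s + 1))) := by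
      intro l
      rw [map_sum]
      refine Finset.sum_congr rfl fun m _ => ?_
      rw [Derivation.map_smul]
    rw [Finset.sum_congr rfl fun l _ => e3 l, Finset.sum_comm, ← Finset.sum_add_distrib]
    refine Finset.sum_congr rfl fun m _ => ?_
    rw [hdec m (f ^ (s + 1)), smul_add, Finset.smul_sum]
  rw [e2, map_add, map_sum, map_sum]
  have e4 : ∀ m ∈ P.support, homogeneousComponent (d * s + k)
      (((s : ℂ) ^ m) • (p m * f ^ (s + 1))) = 0 := by
    intro m _
    rw [map_smul, mul_comm (p m), hc_mul_zero (hfp (s + 1)) _ _ (by nlinarith), smul_zero]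
  rw [Finset.sum_eq_zero e4, zero_add]
  refine Finset.sum_congr rfl fun l _ => ?_
  rw [hc_pderiv]

/-- the vector fields as families -/
theorem ext_fam_g [Fintype σ] (f : MvPolynomial σ ℂ) (d k : ℕ) (hf : f.IsHomogeneous d)
    (S : Finset ℕ) (u : ℕ → σ → Module.End ℂ (MvPolynomial σ ℂ))
    (hu : ∀ m l, u m l ∈ weylS σ) : ∃ (N : ℕ) (V : σ → Polynomial (MvPolynomial σ ℂ)),
      (∀ l i, ((V l).coeff i).IsHomogeneous (d * N + k + 1)) ∧ ∀ (l : σ) (s : ℕ), N ≤ s →
        homogeneousComponent (d * s + k + 1) (∑ m ∈ S, ((s : ℂ) ^ m) • u m l (f ^ (s + 1))) =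
          f ^ (s - N) * (V l).eval (C (s : ℂ)) := by
  classical
  choose N' U' hU' using fun (m : ℕ) (l : σ) => stmA2 σ (u m l) (hu m l) f
  obtain ⟨N, hN⟩ : ∃ N : ℕ, ∀ m ∈ S, ∀ l, N' m l ≤ N + 1 := by
    refine ⟨∑ m ∈ S, ∑ l, N' m l, fun m hm l => ?_⟩
    have a1 : N' m l ≤ ∑ l, N' m l := Finset.single_le_sum (f := fun l => N' m l)
      (fun _ _ => Nat.zero_le _) (Finset.mem_univ l)
    have a2 : ∑ l, N' m l ≤ ∑ m ∈ S, ∑ l, N' m l :=
      Finset.single_le_sum (f := fun m => ∑ l, N' m l) (fun _ _ => Nat.zero_le _) hm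
    omega
  let W : σ → Polynomial (MvPolynomial σ ℂ) := fun l => ∑ m ∈ S,
    Polynomial.X ^ m * (Polynomial.C (f ^ (N + 1 - N' m l)) *
      (U' m l).comp (Polynomial.X + 1))
  have hW : ∀ (l : σ) (s : ℕ), N ≤ s →
      ∑ m ∈ S, ((s : ℂ) ^ m) • u m l (f ^ (s + 1)) =
        f ^ (s - N) * (W l).eval (C (s : ℂ)) := by
    intro l s hs
    simp only [W, Polynomial.eval_finsetSum, Finset.mul_sum]
    refine Finset.sum_congr rfl fun m hm => ?_
    have hNm := hN m hm l
    rw [hU' m l (s + 1) (by omega)]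
    rw [Polynomial.eval_mul, Polynomial.eval_mul, Polynomial.eval_pow, Polynomial.eval_X,
      Polynomial.eval_C, Polynomial.eval_comp, Polynomial.eval_add, Polynomial.eval_X,
      Polynomial.eval_one, ← map_pow, smul_eq_C_mul]
    have e1 : s + 1 - N' m l = (s - N) + (N + 1 - N' m l) := by omega
    rw [e1, pow_add]
    have e2 : ((s + 1 : ℕ) : MvPolynomial σ ℂ) = C (s : ℂ) + 1 := by
      push_cast; rw [map_natCast]
    rw [e2]
    ring
  refine ⟨N, fun l => mapU (homogeneousComponent (d * N + k + 1)) (W l), fun l i => ?_,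
    fun l s hs => ?_⟩
  · rw [mapU_coeff]
    exact homogeneousComponent_isHomogeneous _ _
  · rw [hW l s hs, mapU_eval, ← hc_mul (hf.pow (s - N))]
    congr 2
    have : d * s = d * (s - N) + d * N := by rw [← mul_add, Nat.sub_add_cancel hs]
    rw [this]; ring

/-- **The functional equation at a number `α`.** -/
theorem ext_point [Fintype σ] (f : MvPolynomial σ ℂ) (d : ℕ) (hf : f.IsHomogeneous d)
    (hf0 : f ≠ 0) (b : Polynomial ℂ) (hb : IsBFunction f b) (g : MvPolynomial σ ℂ) (k : ℕ)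
    (hg : g.IsHomogeneous k) (hk : k < d) (α : ℂ) :
    ∃ (N : ℕ) (V : σ → MvPolynomial σ ℂ), (∀ l, (V l).IsHomogeneous (d * N + k + 1)) ∧
      f * ∑ l, pderiv l (V l) + C (α - N) * ∑ l, V l * pderiv l f =
        f ^ (N + 1) * (C (b.eval α) * g) := by
  classical
  obtain ⟨S, u, hu, hS⟩ := ext_vf_g f d hf b hb g k hg hk
  obtain ⟨N, V, hVh, hV⟩ := ext_fam_g f d k hf S u hu
  refine ⟨N, fun l => (V l).eval (C α), fun l => eval_hom_family (V l) _ (hVh l) α, ?_⟩
  have h1 := (id_and_deriv f hf0 N V (b.map C * Polynomial.C g) (fun s hs => ?_) α).1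
  · rw [h1, Polynomial.eval_mul, Polynomial.eval_C, Polynomial.eval_map,
      Polynomial.eval₂_at_apply]
  · rw [Polynomial.eval_mul, Polynomial.eval_C, Polynomial.eval_map, Polynomial.eval₂_at_apply,
      mul_comm (f ^ s), mul_assoc, hS s]
    exact Finset.sum_congr rfl fun l _ => by rw [hV l s hs]

end Pool.Agent.U841.SN
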