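import Pool.Agent.U841.SN.Kos

set_option autoImplicit false

/-! # The gradings of the Koszul complexes -/

namespace Pool.Agent.U841.SN

variable {R Γ : Type} [AddCommGroup R] [AddCommGroup Γ]

/-- The elements of homological degree `p` and total degree `δ`, where the generator `i` has the
degree `e i`. -/
def gr (G : Γ → AddSubgroup R) (e : ℕ → Γ) : (n : ℕ) → ℤ → Γ → AddSubgroup (Kos R n)
  | 0, p, δ => if p = 0 then G δ else ⊥
  | n + 1, p, δ => AddSubgroup.prod (gr G e n p δ) (gr G e n (p - 1) (δ - e n))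

variable {G G' : Γ → AddSubgroup R} {e : ℕ → Γ}

theorem gr_zero_self (δ : Γ) (z : Kos R 0) : z ∈ gr G e 0 0 δ ↔ (z : R) ∈ G δ := by
  have h : gr G e 0 0 δ = G δ := if_pos rfl
  rw [h]
  rfl

theorem gr_zero_ne (p : ℤ) (hp : p ≠ 0) (δ : Γ) (z : Kos R 0) : z ∈ gr G e 0 p δ ↔ z = 0 := by
  have h : gr G e 0 p δ = ⊥ := if_neg hp
  rw [h]
  exact AddSubgroup.mem_bot

theorem gr_succ (n : ℕ) (p : ℤ) (δ : Γ) (a b : Kos R n) :
    (pr a b) ∈ gr G e (n + 1) p δ ↔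
      a ∈ gr G e n p δ ∧ b ∈ gr G e n (p - 1) (δ - e n) := AddSubgroup.mem_prod

theorem pair_eq_zero (n : ℕ) (a b : Kos R n) :
    (pr a b) = (0 : Kos R (n + 1)) ↔ a = 0 ∧ b = 0 := Prod.mk_eq_zero

/-- comparison of gradings -/
theorem gr_le (P : ℤ → Γ → Prop) : ∀ (n : ℕ), (∀ i, i < n → ∀ p δ, P p δ → P (p - 1) (δ - e i)) →
    (∀ δ, P 0 δ → ∀ z ∈ G δ, z ∈ G' δ) → ∀ p δ, P p δ → ∀ z ∈ gr G e n p δ, z ∈ gr G' e n p δ
  | 0, _, h, p, δ, hp, z, hz => by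
    by_cases h0 : p = 0
    · subst h0
      rw [gr_zero_self] at hz ⊢
      exact h δ hp z hz
    · rw [gr_zero_ne p h0] at hz ⊢
      exact hz
  | n + 1, hP, h, p, δ, hp, z, hz => by
    obtain ⟨a, b, rfl⟩ := exists_pr z
    have ih := gr_le P n (fun i hi => hP i (by omega)) h
    rw [gr_succ] at hz ⊢
    exact ⟨ih p δ hp a hz.1, ih _ _ (hP n (by omega) p δ hp) b hz.2⟩

theorem gr_bot : ∀ (n : ℕ) (p : ℤ) (δ : Γ) (z : Kos R n), z ∈ gr (fun _ : Γ => (⊥ : AddSubgroup R)) e n p δ →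
    z = 0
  | 0, p, δ, z, hz => by
    by_cases h0 : p = 0
    · subst h0
      rw [gr_zero_self] at hz
      exact AddSubgroup.mem_bot.1 hz
    · rwa [gr_zero_ne p h0] at hz
  | n + 1, p, δ, z, hz => by
    obtain ⟨a, b, rfl⟩ := exists_pr z
    rw [gr_succ] at hz
    rw [pair_eq_zero]
    exact ⟨gr_bot n _ _ a hz.1, gr_bot n _ _ b hz.2⟩

theorem gr_vanish (P : ℤ → Γ → Prop) (n : ℕ)
    (hP : ∀ i, i < n → ∀ p δ, P p δ → P (p - 1) (δ - e i))
    (h : ∀ δ, P 0 δ → ∀ z ∈ G δ, z = 0) (p : ℤ) (δ : Γ) (hp : P p δ) (z : Kos R n)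
    (hz : z ∈ gr G e n p δ) : z = 0 :=
  gr_bot n p δ z (gr_le (G' := fun _ => ⊥) P n hP
    (fun δ hδ z hz => AddSubgroup.mem_bot.2 (h δ hδ z hz)) p δ hp z hz)

theorem gr_neg : ∀ (n : ℕ) (p : ℤ) (δ : Γ), p < 0 → ∀ z ∈ gr G e n p δ, z = 0
  | 0, p, δ, hp, z, hz => (gr_zero_ne p hp.ne δ z).1 hz
  | n + 1, p, δ, hp, z, hz => by
    obtain ⟨a, b, rfl⟩ := exists_pr z
    rw [gr_succ] at hz
    rw [pair_eq_zero]
    exact ⟨gr_neg n _ _ hp a hz.1, gr_neg n _ _ (by omega) b hz.2⟩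

theorem gr_gt : ∀ (n : ℕ) (p : ℤ) (δ : Γ), (n : ℤ) < p → ∀ z ∈ gr G e n p δ, z = 0
  | 0, p, δ, hp, z, hz => (gr_zero_ne p (by simpa using hp.ne') δ z).1 hz
  | n + 1, p, δ, hp, z, hz => by
    obtain ⟨a, b, rfl⟩ := exists_pr z
    rw [gr_succ] at hz
    rw [pair_eq_zero]
    push_cast at hp
    exact ⟨gr_gt n _ _ (by omega) a hz.1, gr_gt n _ _ (by omega) b hz.2⟩

/-- componentwise operators -/
theorem act_gr (φ : AddMonoid.End R) (ε : Γ) (h : ∀ δ, ∀ z ∈ G δ, φ z ∈ G' (δ + ε)) :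
    ∀ (n : ℕ) (p : ℤ) (δ : Γ), ∀ z ∈ gr G e n p δ, act n φ z ∈ gr G' e n p (δ + ε)
  | 0, p, δ, z, hz => by
    by_cases h0 : p = 0
    · subst h0
      rw [gr_zero_self] at hz ⊢
      exact h δ z hz
    · rw [gr_zero_ne p h0] at hz ⊢
      rw [hz, map_zero]
  | n + 1, p, δ, z, hz => by
    obtain ⟨a, b, rfl⟩ := exists_pr z
    rw [gr_succ] at hz
    rw [act_succ, gr_succ]
    have h2 := act_gr φ ε h n _ _ b hz.2
    rw [sub_add_eq_add_sub] at h2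
    exact ⟨act_gr φ ε h n _ _ a hz.1, h2⟩

/-- the differential, for operators of degree `e i + η` -/
theorem d_gr (T : ℕ → AddMonoid.End R) (η : Γ) : ∀ (n : ℕ),
    (∀ i, i < n → ∀ δ, ∀ z ∈ G δ, T i z ∈ G (δ + (e i + η))) → ∀ (p : ℤ) (δ : Γ),
    ∀ z ∈ gr G e n p δ, dK T n z ∈ gr G e n (p - 1) (δ + η)
  | 0, _, p, δ, z, _ => by rw [dK_zero]; exact zero_mem _
  | n + 1, h, p, δ, z, hz => by
    obtain ⟨a, b, rfl⟩ := exists_pr z
    rw [gr_succ] at hz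
    have ih := d_gr T η n fun i hi => h i (by omega)
    rw [dK_succ, gr_succ]
    refine ⟨add_mem (ih p δ a hz.1) ?_, neg_mem ?_⟩
    · have h1 := act_gr (T n) (e n + η) (h n (by omega)) n _ _ b hz.2
      convert h1 using 2
      abel
    · have h1 := ih _ _ b hz.2
      convert h1 using 2
      abel

theorem d_gr' (T : ℕ → AddMonoid.End R) (n : ℕ)
    (h : ∀ i, i < n → ∀ δ, ∀ z ∈ G δ, T i z ∈ G (δ + e i)) (p : ℤ) (δ : Γ)
    (z : Kos R n) (hz : z ∈ gr G e n p δ) : dK T n z ∈ gr G e n (p - 1) δ := by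
  have h1 := d_gr T (0 : Γ) n (fun i hi δ z hz => by rw [add_zero]; exact h i hi δ z hz) p δ z hz
  rwa [add_zero] at h1

/-- the homotopies -/
theorem hK_gr (i : ℕ) : ∀ (n : ℕ), i < n → ∀ (p : ℤ) (δ : Γ), ∀ z ∈ gr G e n p δ,
    hK i n z ∈ gr G e n (p + 1) (δ + e i)
  | 0, h, _, _, _, _ => by omega
  | n + 1, h, p, δ, z, hz => by
    obtain ⟨a, b, rfl⟩ := exists_pr z
    rw [gr_succ] at hz
    by_cases hi : i = n
    · subst hi
      rw [hK_self, gr_succ]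
      refine ⟨zero_mem _, ?_⟩
      rw [add_sub_cancel_right, add_sub_cancel_right]
      exact hz.1
    · rw [hK_ne _ _ hi, gr_succ]
      refine ⟨hK_gr i n (by omega) p δ a hz.1, neg_mem ?_⟩
      have h1 := hK_gr i n (by omega) _ _ b hz.2
      convert h1 using 2
      · ring
      · abel

theorem gr_dec (φ : AddMonoid.End R) (ε : Γ) (I I' : Γ → AddSubgroup R)
    (h : ∀ δ, ∀ z ∈ I' δ, ∃ ν ∈ I δ, ∃ a ∈ G (δ - ε), z = ν + φ a) :
    ∀ (n : ℕ) (p : ℤ) (δ : Γ), ∀ z ∈ gr I' e n p δ,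
      ∃ ν ∈ gr I e n p δ, ∃ a ∈ gr G e n p (δ - ε), z = ν + act n φ a
  | 0, p, δ, z, hz => by
    by_cases h0 : p = 0
    · subst h0
      rw [gr_zero_self] at hz
      obtain ⟨ν, hν, a, ha, e1⟩ := h δ z hz
      exact ⟨ν, (gr_zero_self δ ν).2 hν, a, (gr_zero_self _ a).2 ha, e1⟩
    · rw [gr_zero_ne p h0] at hz
      refine ⟨0, zero_mem _, 0, zero_mem _, ?_⟩
      rw [hz, map_zero, add_zero]
  | n + 1, p, δ, z, hz => by
    obtain ⟨z1, z2, rfl⟩ := exists_pr z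
    rw [gr_succ] at hz
    obtain ⟨ν1, hν1, a1, ha1, e1⟩ := gr_dec φ ε I I' h n _ _ z1 hz.1
    obtain ⟨ν2, hν2, a2, ha2, e2⟩ := gr_dec φ ε I I' h n _ _ z2 hz.2
    refine ⟨(pr ν1 ν2), (gr_succ n p δ ν1 ν2).2 ⟨hν1, hν2⟩,
      (pr a1 a2), (gr_succ n p _ a1 a2).2 ⟨ha1, ?_⟩, ?_⟩
    · convert ha2 using 2
      abel
    · rw [act_succ]
      exact Prod.ext e1 e2

theorem gr_reg (φ : AddMonoid.End R) (ε : Γ) (I : Γ → AddSubgroup R)
    (h0 : ∀ z, φ z = 0 → z = 0) (h : ∀ δ, ∀ z, φ z ∈ I (δ + ε) → z ∈ I δ) :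
    ∀ (n : ℕ) (p : ℤ) (δ : Γ) (z : Kos R n), act n φ z ∈ gr I e n p (δ + ε) → z ∈ gr I e n p δ
  | 0, p, δ, z, hz => by
    by_cases hp : p = 0
    · subst hp
      rw [gr_zero_self] at hz ⊢
      exact h δ z hz
    · rw [gr_zero_ne p hp] at hz ⊢
      exact h0 z hz
  | n + 1, p, δ, z, hz => by
    obtain ⟨z1, z2, rfl⟩ := exists_pr z
    rw [act_succ, gr_succ] at hz
    rw [gr_succ]
    refine ⟨gr_reg φ ε I h0 h n _ _ z1 hz.1, gr_reg φ ε I h0 h n _ _ z2 ?_⟩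
    rw [sub_add_eq_add_sub]
    exact hz.2

/-- the elements of degree zero -/
def iK : (n : ℕ) → R →+ Kos R n
  | 0 => AddMonoidHom.id R
  | n + 1 =>
    { toFun := fun g => (pr (iK n g) 0)
      map_zero' := Prod.ext (map_zero (iK n)) rfl
      map_add' := fun x y => Prod.ext (map_add (iK n) x y) (add_zero (0 : Kos R n)).symm }

theorem iK_succ (n : ℕ) (g : R) : iK (n + 1) g = (pr (iK n g) 0) := rfl

theorem d_iK (T : ℕ → AddMonoid.End R) : ∀ (n : ℕ) (g : R), dK T n (iK n g) = 0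
  | 0, _ => rfl
  | n + 1, g => by
    rw [iK_succ, dK_succ, map_zero, map_zero, d_iK T n, add_zero, neg_zero]
    rfl

theorem act_iK (φ : AddMonoid.End R) : ∀ (n : ℕ) (g : R), act n φ (iK n g) = iK n (φ g)
  | 0, _ => rfl
  | n + 1, g => by rw [iK_succ, act_succ, act_iK φ n, map_zero, iK_succ]

theorem iK_inj : ∀ (n : ℕ) (g : R), iK n g = 0 → g = 0
  | 0, _, h => h
  | n + 1, g, h => by
    rw [iK_succ, pair_eq_zero] at h
    exact iK_inj n g h.1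

theorem iK_gr : ∀ (n : ℕ) (δ : Γ) (g : R), g ∈ G δ → iK n g ∈ gr G e n 0 δ
  | 0, δ, g, h => (gr_zero_self δ g).2 h
  | n + 1, δ, g, h => by
    rw [iK_succ, gr_succ]
    exact ⟨iK_gr n δ g h, zero_mem _⟩

theorem exists_iK : ∀ (n : ℕ) (δ : Γ) (z : Kos R n), z ∈ gr G e n 0 δ → ∃ g ∈ G δ, z = iK n g
  | 0, δ, z, h => ⟨z, (gr_zero_self δ z).1 h, rfl⟩
  | n + 1, δ, z, h => by
    obtain ⟨a, b, rfl⟩ := exists_pr z
    rw [gr_succ] at h
    obtain ⟨g, hg, e1⟩ := exists_iK n δ a h.1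
    refine ⟨g, hg, ?_⟩
    rw [iK_succ, ← e1, gr_neg n _ _ (by norm_num) b h.2]

/-- the elements of degree one -/
def mkK : (n : ℕ) → (ℕ → R) → Kos R n
  | 0, _ => (0 : R)
  | n + 1, v => (pr (mkK n v) (iK n (v n)))

theorem mkK_succ (n : ℕ) (v : ℕ → R) :
    mkK (n + 1) v = (pr (mkK n v) (iK n (v n))) := rfl

theorem d_mkK (T : ℕ → AddMonoid.End R) : ∀ (n : ℕ) (v : ℕ → R),
    dK T n (mkK n v) = iK n (∑ i ∈ Finset.range n, T i (v i))
  | 0, _ => rfl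
  | n + 1, v => by
    rw [mkK_succ, dK_succ, d_mkK T n, act_iK, d_iK, neg_zero, iK_succ, Finset.sum_range_succ,
      map_add]

theorem mkK_gr : ∀ (n : ℕ) (δ : Γ) (v : ℕ → R), (∀ i, i < n → v i ∈ G (δ - e i)) →
    mkK n v ∈ gr G e n 1 δ
  | 0, δ, v, _ => by
    change (0 : Kos R 0) ∈ gr G e 0 1 δ
    exact zero_mem _
  | n + 1, δ, v, h => by
    rw [mkK_succ, gr_succ, sub_self]
    exact ⟨mkK_gr n δ v fun i hi => h i (by omega), iK_gr n _ _ (h n (by omega))⟩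

theorem mkK_congr : ∀ (n : ℕ) (v w : ℕ → R), (∀ i, i < n → v i = w i) → mkK n v = mkK n w
  | 0, _, _, _ => rfl
  | n + 1, v, w, h => by
    rw [mkK_succ, mkK_succ, mkK_congr n v w fun i hi => h i (by omega), h n (by omega)]

theorem mkK_add : ∀ (n : ℕ) (v w : ℕ → R), mkK n (fun i => v i + w i) = mkK n v + mkK n w
  | 0, _, _ => (add_zero (0 : R)).symm
  | n + 1, v, w => by
    rw [mkK_succ, mkK_succ, mkK_succ, mkK_add n v w, map_add]
    rfl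

theorem exists_mkK : ∀ (n : ℕ) (δ : Γ) (z : Kos R n), z ∈ gr G e n 1 δ →
    ∃ v : ℕ → R, (∀ i, i < n → v i ∈ G (δ - e i)) ∧ z = mkK n v
  | 0, δ, z, h => ⟨fun _ => 0, fun i hi => by omega, (gr_zero_ne 1 one_ne_zero δ z).1 h⟩
  | n + 1, δ, z, h => by
    obtain ⟨a, b, rfl⟩ := exists_pr z
    rw [gr_succ, sub_self] at h
    obtain ⟨v, hv, e1⟩ := exists_mkK n δ a h.1
    obtain ⟨g, hg, e2⟩ := exists_iK n _ b h.2
    refine ⟨fun i => if i = n then g else v i, fun i hi => ?_, ?_⟩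
    · by_cases h1 : i = n
      · subst h1
        simpa using hg
      · simpa [h1] using hv i (by omega)
    · rw [mkK_succ]
      refine Prod.ext ?_ ?_
      · change a = mkK n _
        rw [e1]
        exact mkK_congr n _ _ fun i hi => by rw [if_neg (by omega)]
      · change b = iK n _
        rw [if_pos rfl, e2]

end Pool.Agent.U841.SN
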