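import Pool.Agent.U841.SN.Sys

set_option autoImplicit false

/-! # The Koszul complex of a family of forms -/

namespace Pool.Agent.U841.SN

open MvPolynomial

section general

variable {R Γ : Type} [AddCommGroup R] [AddCommGroup Γ] {G G' : Γ → AddSubgroup R} {e : ℕ → Γ}

theorem act_inj (φ : AddMonoid.End R) (h0 : ∀ z, φ z = 0 → z = 0) :
    ∀ (n : ℕ) (z : Kos R n), act n φ z = 0 → z = 0
  | 0, z, hz => h0 z hz
  | n + 1, z, hz => by
    obtain ⟨a, b, rfl⟩ := exists_pr z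
    rw [act_succ, pair_eq_zero] at hz
    rw [pair_eq_zero]
    exact ⟨act_inj φ h0 n a hz.1, act_inj φ h0 n b hz.2⟩

theorem gr_free (φ : AddMonoid.End R) (h0 : ∀ z, φ z = 0 → z = 0)
    (h : ∀ δ, ∀ z, φ z ∈ G δ → z = 0) :
    ∀ (n : ℕ) (p : ℤ) (δ : Γ) (z : Kos R n), act n φ z ∈ gr G e n p δ → z = 0
  | 0, p, δ, z, hz => by
    by_cases hp : p = 0
    · subst hp
      rw [gr_zero_self] at hz
      exact h δ z hz
    · rw [gr_zero_ne p hp] at hz
      exact h0 z hz
  | n + 1, p, δ, z, hz => by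
    obtain ⟨z1, z2, rfl⟩ := exists_pr z
    rw [act_succ, gr_succ] at hz
    rw [pair_eq_zero]
    exact ⟨gr_free φ h0 h n _ _ z1 hz.1, gr_free φ h0 h n _ _ z2 hz.2⟩

end general

section forms

variable {n : ℕ} (f : ℕ → MvPolynomial (Fin n) ℂ) (D : ℕ → ℕ)

/-- the inclusion of the polynomials in `x` -/
noncomputable def inc : MvPolynomial (Fin n) ℂ →ₐ[ℂ] MvPolynomial (Fin n ⊕ ℕ) ℂ :=
  rename Sum.inl

theorem wt_inl (u : Fin n →₀ ℕ) : wt D (u.mapDomain Sum.inl : (Fin n ⊕ ℕ) →₀ ℕ) =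
    ((u.degree : ℤ), 0) := by
  induction u using Finsupp.induction_linear with
  | zero => rw [Finsupp.mapDomain_zero, wt_zero, map_zero]; rfl
  | add a b ha hb =>
    simp [Finsupp.mapDomain_add, wt_add, ha, hb, map_add]
  | single i c =>
    rw [Finsupp.mapDomain_single, wt, Finsupp.weight_single, Finsupp.degree_single]
    change c • ((1, 0) : ℤ × ℤ) = ((c : ℤ), 0)
    simp

theorem inc_GG (r : ℕ) (d : ℕ) (g : MvPolynomial (Fin n) ℂ) (hg : g.IsHomogeneous d) :
    inc g ∈ GG D n r ((d : ℤ), 0) := by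
  classical
  intro m hm
  obtain ⟨u, hu, h1⟩ := coeff_rename_ne_zero _ _ _ hm
  have h2 : u.degree = d := by
    have h3 := hg h1
    rw [Finsupp.degree_eq_weight_one]
    exact h3
  refine ⟨by rw [← hu, wt_inl, h2], fun i _ => ?_⟩
  rw [← hu]
  exact Finsupp.mapDomain_of_notMem_range _ _ (by simp)

/-- the elements `s_l` of the Koszul complex -/
noncomputable def sF (r l : ℕ) : MvPolynomial (Fin n ⊕ ℕ) ℂ :=
  if h : l < n then ∑ i ∈ Finset.range (r + 1), X (Sum.inr i) * inc (pderiv ⟨l, h⟩ (f i))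
  else if l < n + r then X (Sum.inr (l - n + 1)) * inc (f (l - n + 1)) else 0

/-- the coefficients of `y_r` -/
noncomputable def tF (r l : ℕ) : MvPolynomial (Fin n ⊕ ℕ) ℂ :=
  if h : l < n then inc (pderiv ⟨l, h⟩ (f r))
  else if l + 1 = n + r then inc (f r) else 0

def eF (n : ℕ) (l : ℕ) : ℤ × ℤ := if l < n then (-1, 1) else (0, 1)

theorem eF_lt {l : ℕ} (h : l < n) : eF n l = (-1, 1) := if_pos h

theorem eF_ge {l : ℕ} (h : ¬ l < n) : eF n l = (0, 1) := if_neg h

theorem sF_succ (r l : ℕ) (hl : l < n + (r + 1)) :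
    sF f (r + 1) l = sF f r l + X (Sum.inr (r + 1)) * tF f (r + 1) l := by
  by_cases h : l < n
  · rw [sF, sF, tF, dif_pos h, dif_pos h, dif_pos h, Finset.sum_range_succ]
  · rw [sF, sF, tF, dif_neg h, dif_neg h, dif_neg h, if_pos hl]
    by_cases h1 : l < n + r
    · rw [if_pos h1, if_neg (by omega), mul_zero, add_zero]
    · have h2 : l - n + 1 = r + 1 := by omega
      rw [if_neg h1, if_pos (by omega), zero_add, h2]

theorem sF_zero (l : ℕ) (hl : l < n) : sF f 0 l = X (Sum.inr 0) * tF f 0 l := by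
  rw [sF, tF, dif_pos hl, dif_pos hl, zero_add, Finset.sum_range_one]

variable (hf : ∀ i, (f i).IsHomogeneous (D i)) (hD : ∀ i, 0 < D i)

include hf hD

theorem tF_GG (r r' l : ℕ) :
    tF f r l ∈ GG D n r' (eF n l + -W D (Sum.inr r : Fin n ⊕ ℕ)) := by
  by_cases h : l < n
  · rw [tF, dif_pos h, eF_lt h]
    have h1 := inc_GG D r' (D r - 1) _ ((hf r).pderiv (i := ⟨l, h⟩))
    have h2 : ((-1, 1) : ℤ × ℤ) + -W D (Sum.inr r : Fin n ⊕ ℕ) = (((D r - 1 : ℕ) : ℤ), 0) := by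
      have := hD r
      rw [KD.W_inr]
      ext
      · simp only [Prod.fst_add, Prod.fst_neg]; omega
      · simp
    rw [h2]
    exact h1
  · rw [tF, dif_neg h, eF_ge h]
    have h2 : ((0, 1) : ℤ × ℤ) + -W D (Sum.inr r : Fin n ⊕ ℕ) = ((D r : ℤ), 0) := by
      rw [KD.W_inr]
      ext
      · simp
      · simp
    rw [h2]
    split_ifs
    · exact inc_GG D r' (D r) _ (hf r)
    · exact zero_mem _

omit hf hD in
theorem X_mul_GG (r i : ℕ) (hi : i ≤ r) (δ : ℤ × ℤ) (g : MvPolynomial (Fin n ⊕ ℕ) ℂ)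
    (hg : g ∈ GG D n r (δ + -W D (Sum.inr i : Fin n ⊕ ℕ))) :
    X (Sum.inr i) * g ∈ GG D n r δ := by
  have h1 := GG_mul D (GG_X D (r := r) (v := (Sum.inr i : Fin n ⊕ ℕ)) (fun l hl => by
    injection hl with hl; omega)) hg
  convert h1 using 2
  abel

theorem sF_GG (r l : ℕ) : sF f r l ∈ GG D n r (eF n l) := by
  by_cases h : l < n
  · rw [sF, dif_pos h]
    refine sum_mem fun i hi => ?_
    rw [Finset.mem_range] at hi
    refine X_mul_GG D r i (by omega) _ _ ?_
    have h1 := tF_GG f D hf hD i r l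
    rwa [tF, dif_pos h] at h1
  · rw [sF, dif_neg h]
    split_ifs with h1
    · refine X_mul_GG D r _ (by omega) _ _ ?_
      have h2 := tF_GG f D hf hD (l - n + 1) r l
      rwa [tF, dif_neg h, if_pos (by omega)] at h2
    · exact zero_mem _

/-- the Koszul complex of `∑_{i ≤ r} y_i ∂_j f_i`, `j < n`, and `y_i f_i`, `1 ≤ i ≤ r` -/
noncomputable def KF (r : ℕ) : KD n where
  D := D
  r := r
  N := n + r
  s := sF f r
  e := eF n
  hs := fun i _ => sF_GG f D hf hD r i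
  he2 := fun i _ => by
    by_cases h : i < n
    · rw [eF_lt h]
    · rw [eF_ge h]
  he1 := fun i _ => by
    by_cases h : i < n
    · rw [eF_lt h]; norm_num
    · rw [eF_ge h]

/-- the differential -/
noncomputable def dF (r : ℕ) : AddMonoid.End (Kos (MvPolynomial (Fin n ⊕ ℕ) ℂ) (n + r)) :=
  dK (fun i => mE (sF f r i)) (n + r)

/-- the grading -/
noncomputable def fF (n : ℕ) (D : ℕ → ℕ) (r : ℕ) (p : ℤ) (δ : ℤ × ℤ) :
    AddSubgroup (Kos (MvPolynomial (Fin n ⊕ ℕ) ℂ) (n + r)) := gr (GG D n r) (eF n) (n + r) p δ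

omit hf hD in
theorem dF_act (r : ℕ) (P : MvPolynomial (Fin n ⊕ ℕ) ℂ)
    (z : Kos (MvPolynomial (Fin n ⊕ ℕ) ℂ) (n + r)) :
    dF f r (act (n + r) (mE P) z) = act (n + r) (mE P) (dF f r z) :=
  d_act _ _ _ (fun _ _ _ => KD.mE_comm _ _ _) z

omit hf hD in
theorem kill_y (i : ℕ) (z : MvPolynomial (Fin n ⊕ ℕ) ℂ)
    (hz : mE (X (Sum.inr i) : MvPolynomial (Fin n ⊕ ℕ) ℂ) z = 0) : z = 0 := by
  rw [mE_apply] at hz
  exact (mul_eq_zero.1 hz).resolve_left (X_ne_zero _)

/-- **the vanishing in the degrees `p < k ≤ n`, for one form** -/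
theorem claimA0 (hBT : (KF f D hf hD 0).BT) : ∀ (c : ℕ) (p k : ℤ), (n : ℤ) - k = c → 1 ≤ p →
    p < k → ∀ (a : ℤ) (z : Kos (MvPolynomial (Fin n ⊕ ℕ) ℂ) (n + 0)),
      z ∈ fF n D 0 p (a, k) → dF f 0 z = 0 → ∃ v ∈ fF n D 0 (p + 1) (a, k), z = dF f 0 v := by
  intro c
  induction c with
  | zero =>
    intro p k hk hp hpk a z hz hd
    exact (KF f D hf hD 0).xvan (by simp [KF]) hBT p (a, k) (by push_cast at hk; simp; omega)
      (Or.inr ⟨by push_cast at hk; simp; omega, hp⟩) z hz hd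
  | succ c ih =>
    intro p k hk hp hpk a z hz hd
    set y : MvPolynomial (Fin n ⊕ ℕ) ℂ := X (Sum.inr 0) with hy
    have hyG : y ∈ GG D n 0 (W D (Sum.inr 0 : Fin n ⊕ ℕ)) :=
      GG_X D (fun l hl => by injection hl with hl; omega)
    have hyz : act (n + 0) (mE y) z ∈ fF n D 0 p (a + -(D 0 : ℤ), k + 1) :=
      (KF f D hf hD 0).act_F y _ hyG p (a, k) z hz
    have hdyz : dF f 0 (act (n + 0) (mE y) z) = 0 := by
      rw [dF_act, hd, map_zero]
    obtain ⟨v, hv, e1⟩ := ih p (k + 1) (by push_cast at hk ⊢; omega) hp (by omega) _ _ hyz hdyz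
    have hdT : ∀ w : Kos (MvPolynomial (Fin n ⊕ ℕ) ℂ) (n + 0),
        dF f 0 w = act (n + 0) (mE y) (dK (fun i => mE (tF f 0 i)) (n + 0) w) := by
      intro w
      rw [← dK_mul]
      refine dK_congr _ _ _ (fun i hi => ?_) w
      rw [← KD.mE_mul]
      exact congrArg mE (sF_zero f i (by omega))
    have hzT : z = dK (fun i => mE (tF f 0 i)) (n + 0) v := by
      rw [hdT v, ← sub_eq_zero, ← map_sub] at e1
      exact sub_eq_zero.1 (act_inj (mE y) (kill_y 0) _ _ e1)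
    obtain ⟨v0, hv0, v1, hv1, e2⟩ := gr_dec (G := GG D n 0) (e := eF n) (mE y)
      (W D (Sum.inr 0 : Fin n ⊕ ℕ)) (fun δ => sp (Mon D 0 δ ∩ {m | m (Sum.inr 0) = 0}))
      (GG D n 0) (fun δ z hz => by
        obtain ⟨ν, hν, a, ha, e⟩ := sp_split (T := {m | m (Sum.inr 0) = 0}) (Sum.inr 0) hz
          (fun m _ h => h)
        exact ⟨ν, hν, a, sp_mono (fun m hm => Mon_of_add D hm) ha, e⟩) _ _ _ v hv
    have h0 : v0 = 0 := by
      refine gr_vanish (fun p δ => p < δ.2) _ (fun i hi p δ h => ?_) (fun δ h z hz => ?_) _ _ ?_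
        v0 hv0
      · have h5 : (eF n i).2 = 1 := (KF f D hf hD 0).he2 i hi
        rw [Prod.snd_sub, h5]
        linarith
      · refine sp_empty fun m hm => ?_
        have h1 := hz m hm
        have h2 : 0 < (wt D m).2 := by rw [h1.1.1]; exact h
        obtain ⟨i, hi⟩ := exists_y D h2
        rcases Nat.eq_zero_or_pos i with h3 | h3
        · subst h3
          exact hi h1.2
        · exact hi (h1.1.2 i h3)
      · change p + 1 < k + 1
        linarith
    rw [h0, zero_add] at e2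
    refine ⟨v1, ?_, ?_⟩
    · have e : ((a, k) : ℤ × ℤ) = (a + -(D 0 : ℤ), k + 1) - W D (Sum.inr 0 : Fin n ⊕ ℕ) := by
        rw [KD.W_inr]
        ext <;> simp
      rw [e]
      exact hv1
    · rw [hzT, e2, hdT v1]
      exact d_act _ _ _ (fun _ _ _ => KD.mE_comm _ _ _) v1

/-- the induction step -/
theorem claimAs (r : ℕ) (hBT : (KF f D hf hD (r + 1)).BT)
    (IH : ∀ (p k : ℤ), 1 ≤ p → p < k → k ≤ n → ∀ (a : ℤ)
      (z : Kos (MvPolynomial (Fin n ⊕ ℕ) ℂ) (n + r)),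
      z ∈ fF n D r p (a, k) → dF f r z = 0 → ∃ v ∈ fF n D r (p + 1) (a, k), z = dF f r v) :
    ∀ (c : ℕ) (p k : ℤ), (n : ℤ) - k = c → 1 ≤ p →
    p < k → ∀ (a : ℤ) (z : Kos (MvPolynomial (Fin n ⊕ ℕ) ℂ) (n + (r + 1))),
      z ∈ fF n D (r + 1) p (a, k) → dF f (r + 1) z = 0 →
        ∃ v ∈ fF n D (r + 1) (p + 1) (a, k), z = dF f (r + 1) v := by
  intro c
  induction c with
  | zero =>
    intro p k hk hp hpk a z hz hd
    exact (KF f D hf hD (r + 1)).xvan (by simp [KF]) hBT p (a, k)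
      (by push_cast at hk; simp; omega)
      (Or.inr ⟨by push_cast at hk; simp; omega, hp⟩) z hz hd
  | succ c ih =>
    intro p k hk hp hpk a z hz hd
    set y : MvPolynomial (Fin n ⊕ ℕ) ℂ := X (Sum.inr (r + 1)) with hy
    have hyG : y ∈ GG D n (r + 1) (W D (Sum.inr (r + 1) : Fin n ⊕ ℕ)) :=
      GG_X D (fun l hl => by injection hl with hl; omega)
    have hyz : act (n + (r + 1)) (mE y) z ∈ fF n D (r + 1) p (a + -(D (r + 1) : ℤ), k + 1) :=
      (KF f D hf hD (r + 1)).act_F y _ hyG p (a, k) z hz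
    have hdyz : dF f (r + 1) (act (n + (r + 1)) (mE y) z) = 0 := by
      rw [dF_act, hd, map_zero]
    obtain ⟨v, hv, e1⟩ := ih p (k + 1) (by push_cast at hk ⊢; omega) hp (by omega) _ _ hyz hdyz
    set δ' : ℤ × ℤ := (a + -(D (r + 1) : ℤ), k + 1) with hδ'
    let dS : AddMonoid.End (Kos (MvPolynomial (Fin n ⊕ ℕ) ℂ) (n + (r + 1))) :=
      dK (fun i => mE (sF f r i)) (n + (r + 1))
    let dT : AddMonoid.End (Kos (MvPolynomial (Fin n ⊕ ℕ) ℂ) (n + (r + 1))) :=
      dK (fun i => mE (tF f (r + 1) i)) (n + (r + 1))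
    have hdT : ∀ w : Kos (MvPolynomial (Fin n ⊕ ℕ) ℂ) (n + (r + 1)),
        dF f (r + 1) w = dS w + act (n + (r + 1)) (mE y) (dT w) := by
      intro w
      change _ = dK (fun i => mE (sF f r i)) (n + (r + 1)) w +
        act (n + (r + 1)) (mE y) (dK (fun i => mE (tF f (r + 1) i)) (n + (r + 1)) w)
      rw [← dK_mul, ← dK_add]
      refine dK_congr _ _ _ (fun i hi => ?_) w
      rw [← KD.mE_mul, sF_succ f r i hi]
      ext1 z
      rw [mE_apply, add_mul]
      rfl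
    obtain ⟨v0, hv0, v1, hv1, e2⟩ := gr_dec (G := GG D n (r + 1)) (e := eF n) (mE y)
      (W D (Sum.inr (r + 1) : Fin n ⊕ ℕ)) (GG D n r)
      (GG D n (r + 1)) (fun δ z hz => by
        obtain ⟨ν, hν, a, ha, e⟩ := sp_split (T := {m | m (Sum.inr (r + 1)) = 0})
          (Sum.inr (r + 1)) hz (fun m _ h => h)
        refine ⟨ν, sp_mono (S := Mon D (r + 1) δ ∩ {m | m (Sum.inr (r + 1)) = 0})
          (T := Mon D r δ) (fun m hm => ⟨hm.1.1, fun i hi => ?_⟩) hν, a,
          sp_mono (fun m hm => Mon_of_add D hm) ha, e⟩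
        rcases Nat.lt_or_ge (r + 1) i with h3 | h3
        · exact hm.1.2 i h3
        · have h4 : i = r + 1 := by omega
          rw [h4]
          exact hm.2) _ _ _ v hv
    have e3 : act (n + (r + 1)) (mE y) (z - dF f (r + 1) v1 - dT v0) = dS v0 := by
      rw [map_sub, map_sub, e1, e2, map_add, hdT v0, dF_act]
      abel
    have hdS0 : dS v0 ∈ gr (GG D n r) (eF n) (n + (r + 1)) (p + 1 - 1) δ' :=
      d_gr' _ _ (fun i hi δ z hz => by
        rw [mE_apply, mul_comm]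
        exact GG_mul _ hz (sF_GG f D hf hD r i)) _ _ _ hv0
    have e4 : z - dF f (r + 1) v1 - dT v0 = 0 := by
      refine gr_free (G := GG D n r) (e := eF n) (mE y) (kill_y (r + 1)) (fun δ z hz => ?_) _
        (p + 1 - 1) δ' _ (e3 ▸ hdS0)
      ext m
      rw [coeff_zero]
      by_contra hm
      have h7 : coeff (m + Finsupp.single (Sum.inr (r + 1)) 1) (mE y z) ≠ 0 := by
        rw [mE_apply, mul_comm, hy, coeff_mul_X]
        exact hm
      have h8 := (hz _ h7).2 (r + 1) (by omega)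
      rw [Finsupp.add_apply, Finsupp.single_eq_same] at h8
      omega
    have e5 : dS v0 = 0 := by rw [← e3, e4, map_zero]
    -- split off the last generator
    obtain ⟨α, β, rfl⟩ := exists_pr (n := n + r) v0
    have hlast : sF f r (n + r) = 0 := by
      rw [sF, dif_neg (by omega), if_neg (by omega)]
    have hm0 : mE (sF f r (n + r)) = 0 := by
      rw [hlast]
      ext1 z
      rw [mE_apply, zero_mul]
      rfl
    have e6 : ∀ α β : Kos (MvPolynomial (Fin n ⊕ ℕ) ℂ) (n + r),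
        dS (pr α β) = pr (dF f r α) (-dF f r β) := by
      intro α β
      change dK (fun i => mE (sF f r i)) (n + r + 1) (pr α β) = _
      rw [dK_succ, hm0, act_zero', add_zero]
      rfl
    rw [e6, pair_eq_zero] at e5
    have hv0' := (gr_succ (n + r) (p + 1) δ' α β).1 hv0
    have hen : eF n (n + r) = (0, 1) := eF_ge (by omega)
    have hδ1 : δ' - (0, 1) = (a + -(D (r + 1) : ℤ), k) := by
      rw [hδ']
      ext <;> simp
    have hp1 : p + 1 - 1 = p := by ring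
    have hβm : β ∈ fF n D r p (a + -(D (r + 1) : ℤ), k) := by
      have h9 := hv0'.2
      rw [hen, hδ1, hp1] at h9
      exact h9
    obtain ⟨α', hα', e7⟩ := IH (p + 1) (k + 1) (by omega) (by omega) (by push_cast at hk; omega) _
      α hv0'.1 e5.1
    obtain ⟨β', hβ', e8⟩ := IH p k hp hpk (by push_cast at hk; omega) _ β hβm (neg_eq_zero.1 e5.2)
    let c' : Kos (MvPolynomial (Fin n ⊕ ℕ) ℂ) (n + (r + 1)) := pr α' (-β')
    have hc' : c' ∈ gr (GG D n r) (eF n) (n + (r + 1)) (p + 1 + 1) δ' := by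
      refine (gr_succ (n + r) (p + 1 + 1) δ' α' (-β')).2 ⟨hα', neg_mem ?_⟩
      rw [hen, hδ1, show p + 1 + 1 - 1 = p + 1 by ring]
      exact hβ'
    have e9 : dS c' = pr α β := by
      change dS (pr α' (-β')) = _
      rw [e6, map_neg, neg_neg, ← e7, ← e8]
    have hδW : ((a, k) : ℤ × ℤ) = δ' - W D (Sum.inr (r + 1) : Fin n ⊕ ℕ) := by
      rw [KD.W_inr, hδ']
      ext <;> simp
    refine ⟨v1 - dT c', ?_, ?_⟩
    · refine sub_mem ?_ ?_
      · rw [hδW]
        exact hv1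
      · have h10 : c' ∈ gr (GG D n (r + 1)) (eF n) (n + (r + 1)) (p + 1 + 1) δ' :=
          gr_le (fun _ _ => True) _ (fun _ _ _ _ _ => trivial)
            (fun δ _ z hz => sp_mono (S := Mon D r δ) (T := Mon D (r + 1) δ)
              (fun m hm => ⟨hm.1, fun i hi => hm.2 i (by omega)⟩) hz)
            _ _ trivial _ hc'
        have h11 := d_gr (G := GG D n (r + 1)) (e := eF n) (fun i => mE (tF f (r + 1) i))
          (-W D (Sum.inr (r + 1) : Fin n ⊕ ℕ)) (n + (r + 1)) (fun i hi δ z hz => by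
            rw [mE_apply, mul_comm]
            exact GG_mul _ hz (tF_GG f D hf hD (r + 1) (r + 1) i)) _ _ _ h10
        rw [hδW, sub_eq_add_neg, show p + 1 = p + 1 + 1 - 1 by ring]
        exact h11
    · have h12 : dS (dT c') + dT (dS c') = 0 :=
        dd' _ _ _ (fun _ _ _ _ _ => KD.mE_comm _ _ _) c'
      have h13 : dT (dT c') = 0 := dd _ _ (fun _ _ _ _ _ => KD.mE_comm _ _ _) c'
      rw [e9] at h12
      have h14 : dF f (r + 1) (dT c') = dS (dT c') := by rw [hdT, h13, map_zero, add_zero]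
      have h15 : z = dF f (r + 1) v1 + dT (pr α β) := by
        rw [← sub_eq_zero, ← e4]
        abel
      rw [map_sub, h14, h15, sub_eq_add_neg]
      congr 1
      exact eq_neg_of_add_eq_zero_right h12

/-- **the vanishing in the degrees `p < k ≤ n`** -/
theorem claimA (r : ℕ) (hBT : ∀ r' ≤ r, (KF f D hf hD r').BT) : ∀ (p k : ℤ), 1 ≤ p → p < k →
    k ≤ n → ∀ (a : ℤ) (z : Kos (MvPolynomial (Fin n ⊕ ℕ) ℂ) (n + r)),
      z ∈ fF n D r p (a, k) → dF f r z = 0 →
      ∃ v ∈ fF n D r (p + 1) (a, k), z = dF f r v := by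
  induction r with
  | zero =>
    intro p k hp hpk hk a z hz hd
    exact claimA0 f D hf hD (hBT 0 le_rfl) (n - k).toNat p k (by omega) hp hpk a z hz hd
  | succ r ihr =>
    intro p k hp hpk hk a z hz hd
    exact claimAs f D hf hD r (hBT (r + 1) le_rfl) (ihr fun r' hr' => hBT r' (by omega))
      (n - k).toNat p k (by omega) hp hpk a z hz hd

/-- **The vanishing of `H_1`.** -/
theorem H1 (r : ℕ) (hBT : ∀ r' ≤ r, (KF f D hf hD r').BT) (a k : ℤ) (hk : 2 ≤ k)
    (ha : -(n : ℤ) < a ∨ k ≤ n) (z : Kos (MvPolynomial (Fin n ⊕ ℕ) ℂ) (n + r))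
    (hz : z ∈ fF n D r 1 (a, k)) (hd : dF f r z = 0) :
    ∃ v ∈ fF n D r 2 (a, k), z = dF f r v := by
  by_cases h : k ≤ n
  · exact claimA f D hf hD r hBT 1 k le_rfl (by omega) h a z hz hd
  · exact (KF f D hf hD r).xvan (by simp [KF]) (hBT r le_rfl) 1 (a, k) (by simp; omega)
      (Or.inl (ha.resolve_right h)) z hz hd

end forms

end Pool.Agent.U841.SN
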