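import Pool.Agent.U841.SN.Abs

set_option autoImplicit false

/-! # Koszul complexes of commuting operators, as iterated cones -/

namespace Pool.Agent.U841.SN

/-- the underlying group of the Koszul complex of `n` operators on `R` -/
def Kos (R : Type) : ℕ → Type
  | 0 => R
  | n + 1 => Kos R n × Kos R n

variable {R : Type} [AddCommGroup R]

instance instKos : (n : ℕ) → AddCommGroup (Kos R n)
  | 0 => inferInstanceAs (AddCommGroup R)
  | n + 1 => @Prod.instAddCommGroup _ _ (instKos n) (instKos n)

/-- the pairs -/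
def pr {n : ℕ} (a b : Kos R n) : Kos R (n + 1) := (a, b)

omit [AddCommGroup R] in
theorem exists_pr {n : ℕ} (z : Kos R (n + 1)) : ∃ a b, z = pr a b := ⟨z.1, z.2, rfl⟩

/-- the componentwise operator -/
def act : (n : ℕ) → AddMonoid.End R → AddMonoid.End (Kos R n)
  | 0, φ => φ
  | n + 1, φ =>
    { toFun := fun z => (act n φ z.1, act n φ z.2)
      map_zero' := Prod.ext (map_zero (act n φ)) (map_zero (act n φ))
      map_add' := fun x y => Prod.ext (map_add (act n φ) x.1 y.1) (map_add (act n φ) x.2 y.2) }

theorem act_zero (φ : AddMonoid.End R) (z : Kos R 0) : act 0 φ z = φ z := rfl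

theorem act_succ (n : ℕ) (φ : AddMonoid.End R) (a b : Kos R n) :
    act (n + 1) φ (pr a b) = (pr (act n φ a) (act n φ b)) := rfl

/-- the differential of the operators `T 0, …, T (n - 1)` -/
def dK (T : ℕ → AddMonoid.End R) : (n : ℕ) → AddMonoid.End (Kos R n)
  | 0 => 0
  | n + 1 =>
    { toFun := fun z => (dK T n z.1 + act n (T n) z.2, -dK T n z.2)
      map_zero' := by
        refine Prod.ext ?_ ?_
        · change dK T n 0 + act n (T n) 0 = 0
          rw [map_zero, map_zero, add_zero]
        · change -dK T n 0 = 0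
          rw [map_zero, neg_zero]
      map_add' := fun x y => by
        refine Prod.ext ?_ ?_
        · change dK T n (x.1 + y.1) + act n (T n) (x.2 + y.2) =
            (dK T n x.1 + act n (T n) x.2) + (dK T n y.1 + act n (T n) y.2)
          rw [map_add, map_add]
          abel
        · change -dK T n (x.2 + y.2) = -dK T n x.2 + -dK T n y.2
          rw [map_add]
          abel }

theorem dK_zero (T : ℕ → AddMonoid.End R) (z : Kos R 0) : dK T 0 z = 0 := rfl

theorem dK_succ (T : ℕ → AddMonoid.End R) (n : ℕ) (a b : Kos R n) :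
    dK T (n + 1) (pr a b) =
      (pr (dK T n a + act n (T n) b) (-dK T n b)) := rfl

theorem act_comm (φ ψ : AddMonoid.End R) (h : ∀ z, φ (ψ z) = ψ (φ z)) :
    ∀ (n : ℕ) (z : Kos R n), act n φ (act n ψ z) = act n ψ (act n φ z)
  | 0, z => h z
  | n + 1, z => Prod.ext (act_comm φ ψ h n z.1) (act_comm φ ψ h n z.2)

theorem act_mul (φ ψ : AddMonoid.End R) :
    ∀ (n : ℕ) (z : Kos R n), act n (φ * ψ) z = act n φ (act n ψ z)
  | 0, _ => rfl
  | n + 1, z => Prod.ext (act_mul φ ψ n z.1) (act_mul φ ψ n z.2)

theorem act_one : ∀ (n : ℕ) (z : Kos R n), act n (1 : AddMonoid.End R) z = z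
  | 0, _ => rfl
  | n + 1, z => Prod.ext (act_one n z.1) (act_one n z.2)

theorem act_zero' : ∀ (n : ℕ) (z : Kos R n), act n (0 : AddMonoid.End R) z = 0
  | 0, _ => rfl
  | n + 1, z => Prod.ext (act_zero' n z.1) (act_zero' n z.2)

theorem act_add (φ ψ : AddMonoid.End R) :
    ∀ (n : ℕ) (z : Kos R n), act n (φ + ψ) z = act n φ z + act n ψ z
  | 0, _ => rfl
  | n + 1, z => Prod.ext (act_add φ ψ n z.1) (act_add φ ψ n z.2)

theorem act_pow (φ : AddMonoid.End R) (m : ℕ) (n : ℕ) (z : Kos R n) :
    act n (φ ^ m) z = ((act n φ) ^ m) z := by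
  induction m generalizing z with
  | zero => exact act_one n z
  | succ m ih => rw [pow_succ, act_mul, ih, pow_succ, emul]

theorem act_sum {ι : Type} (s : Finset ι) (φ : ι → AddMonoid.End R) (n : ℕ) (z : Kos R n) :
    act n (∑ i ∈ s, φ i) z = ∑ i ∈ s, act n (φ i) z := by
  classical
  induction s using Finset.induction_on with
  | empty => rw [Finset.sum_empty, Finset.sum_empty]; exact act_zero' n z
  | insert a s ha ih => rw [Finset.sum_insert ha, Finset.sum_insert ha, act_add, ih]

/-- componentwise operators which commute with the `T i` commute with `d` -/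
theorem d_act (T : ℕ → AddMonoid.End R) (φ : AddMonoid.End R) :
    ∀ (n : ℕ), (∀ i, i < n → ∀ z, T i (φ z) = φ (T i z)) → ∀ z : Kos R n,
      dK T n (act n φ z) = act n φ (dK T n z)
  | 0, _, z => by rw [dK_zero, dK_zero, map_zero]
  | n + 1, h, z => by
    have ih := d_act T φ n fun i hi => h i (by omega)
    obtain ⟨a, b, rfl⟩ := exists_pr z
    rw [act_succ, dK_succ, dK_succ, act_succ, ih, ih, act_comm _ _ (h n (by omega)), map_add,
      map_neg]

/-- `d` is additive in the operators -/
theorem dK_add (T U : ℕ → AddMonoid.End R) :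
    ∀ (n : ℕ) (z : Kos R n), dK (fun i => T i + U i) n z = dK T n z + dK U n z
  | 0, _ => (add_zero (0 : Kos R 0)).symm
  | n + 1, z => by
    obtain ⟨a, b, rfl⟩ := exists_pr z
    rw [dK_succ, dK_succ, dK_succ, dK_add T U n, dK_add T U n, act_add]
    refine Prod.ext ?_ ?_
    · change dK T n a + dK U n a + (act n (T n) b + act n (U n) b) =
        (dK T n a + act n (T n) b) + (dK U n a + act n (U n) b)
      abel
    · change -(dK T n b + dK U n b) = -dK T n b + -dK U n b
      abel

theorem dK_congr (T U : ℕ → AddMonoid.End R) :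
    ∀ (n : ℕ), (∀ i, i < n → T i = U i) → ∀ z : Kos R n, dK T n z = dK U n z
  | 0, _, _ => rfl
  | n + 1, h, z => by
    obtain ⟨a, b, rfl⟩ := exists_pr z
    have ih := dK_congr T U n fun i hi => h i (by omega)
    rw [dK_succ, dK_succ, ih, ih, h n (by omega)]

theorem dK_mul (φ : AddMonoid.End R) (T : ℕ → AddMonoid.End R) :
    ∀ (n : ℕ) (z : Kos R n), dK (fun i => φ * T i) n z = act n φ (dK T n z)
  | 0, z => by rw [dK_zero, dK_zero, map_zero]
  | n + 1, z => by
    obtain ⟨a, b, rfl⟩ := exists_pr z
    rw [dK_succ, dK_succ, dK_mul φ T n, dK_mul φ T n, act_succ, act_mul, map_add, map_neg]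

/-- the differentials of two commuting families of operators anticommute -/
theorem dd' (T U : ℕ → AddMonoid.End R) :
    ∀ (n : ℕ), (∀ i, i < n → ∀ j, j < n → ∀ z, T i (U j z) = U j (T i z)) →
      ∀ z : Kos R n, dK T n (dK U n z) + dK U n (dK T n z) = 0
  | 0, _, _ => add_zero (0 : Kos R 0)
  | n + 1, h, z => by
    obtain ⟨a, b, rfl⟩ := exists_pr z
    have ih := dd' T U n fun i hi j hj => h i (by omega) j (by omega)
    have h1 := d_act T (U n) n (fun i hi z => h i (by omega) n (by omega) z) b
    have h2 := d_act U (T n) n (fun i hi z => (h n (by omega) i (by omega) z).symm) b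
    rw [dK_succ, dK_succ, dK_succ, dK_succ]
    refine Prod.ext ?_ ?_
    · change (dK T n (dK U n a + act n (U n) b) + act n (T n) (-dK U n b)) +
        (dK U n (dK T n a + act n (T n) b) + act n (U n) (-dK T n b)) = 0
      rw [map_add, map_add, map_neg, map_neg, h1, h2]
      have h3 := ih a
      calc _ = dK T n (dK U n a) + dK U n (dK T n a) := by abel
        _ = 0 := h3
    · change -dK T n (-dK U n b) + -dK U n (-dK T n b) = 0
      rw [map_neg, map_neg, neg_neg, neg_neg]
      exact ih b

/-- `d ∘ d = 0` -/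
theorem dd (T : ℕ → AddMonoid.End R) :
    ∀ (n : ℕ), (∀ i, i < n → ∀ j, j < n → ∀ z, T i (T j z) = T j (T i z)) →
      ∀ z : Kos R n, dK T n (dK T n z) = 0
  | 0, _, z => dK_zero T _
  | n + 1, h, z => by
    obtain ⟨a, b, rfl⟩ := exists_pr z
    have ih := dd T n fun i hi j hj => h i (by omega) j (by omega)
    have h1 := d_act T (T n) n (fun i hi z => h i (by omega) n (by omega) z) b
    rw [dK_succ, dK_succ]
    refine Prod.ext ?_ ?_
    · change dK T n (dK T n a + act n (T n) b) + act n (T n) (-dK T n b) = 0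
      rw [map_add, map_neg, h1, ih, zero_add, add_neg_cancel]
    · change -dK T n (-dK T n b) = 0
      rw [map_neg, neg_neg, ih]

/-- the homotopy of the last operator -/
def hSelf (n : ℕ) : AddMonoid.End (Kos R (n + 1)) where
  toFun := fun z => (pr 0 z.1)
  map_zero' := rfl
  map_add' := fun _ _ => Prod.ext (add_zero (0 : Kos R n)).symm rfl

/-- the homotopy of the other operators -/
def hNext (n : ℕ) (h : AddMonoid.End (Kos R n)) : AddMonoid.End (Kos R (n + 1)) where
  toFun := fun z => (pr (h z.1) (-h z.2))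
  map_zero' := by
    refine Prod.ext ?_ ?_
    · exact map_zero h
    · change -h 0 = 0
      rw [map_zero, neg_zero]
  map_add' := fun x y => by
    refine Prod.ext ?_ ?_
    · exact map_add h x.1 y.1
    · change -h (x.2 + y.2) = -h x.2 + -h y.2
      rw [map_add]
      abel

/-- the homotopies -/
def hK (i : ℕ) : (n : ℕ) → AddMonoid.End (Kos R n)
  | 0 => 0
  | n + 1 => if i = n then hSelf n else hNext n (hK i n)

theorem hK_self (n : ℕ) (a b : Kos R n) :
    hK n (n + 1) (pr a b) = (pr 0 a) := by
  have h : hK (R := R) n (n + 1) = hSelf n := if_pos rfl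
  rw [h]
  rfl

theorem hK_ne (i n : ℕ) (h : i ≠ n) (a b : Kos R n) :
    hK i (n + 1) (pr a b) =
      (pr (hK i n a) (-hK i n b)) := by
  have h : hK (R := R) i (n + 1) = hNext n (hK i n) := if_neg h
  rw [h]
  rfl

theorem hK_act (i : ℕ) (φ : AddMonoid.End R) :
    ∀ (n : ℕ) (z : Kos R n), hK i n (act n φ z) = act n φ (hK i n z)
  | 0, z => (map_zero (act 0 φ)).symm
  | n + 1, z => by
    obtain ⟨a, b, rfl⟩ := exists_pr z
    by_cases h : i = n
    · subst h
      rw [act_succ, hK_self, hK_self, act_succ, map_zero]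
    · rw [act_succ, hK_ne _ _ h, hK_ne _ _ h, act_succ, hK_act i φ n, hK_act i φ n, map_neg]

/-- **multiplication by `T i` is homotopic to zero** -/
theorem homotopy (T : ℕ → AddMonoid.End R) (i : ℕ) :
    ∀ (n : ℕ), i < n → ∀ z : Kos R n,
      dK T n (hK i n z) + hK i n (dK T n z) = act n (T i) z
  | 0, h, _ => by omega
  | n + 1, h, z => by
    obtain ⟨a, b, rfl⟩ := exists_pr z
    by_cases hi : i = n
    · subst hi
      rw [hK_self, dK_succ, dK_succ, hK_self, act_succ, map_zero]
      refine Prod.ext ?_ ?_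
      · change (0 + act i (T i) a) + 0 = act i (T i) a
        rw [zero_add, add_zero]
      · change -dK T i a + (dK T i a + act i (T i) b) = act i (T i) b
        rw [neg_add_cancel_left]
    · have ih := homotopy T i n (by omega)
      rw [hK_ne _ _ hi, dK_succ, dK_succ, hK_ne _ _ hi, act_succ]
      refine Prod.ext ?_ ?_
      · change dK T n (hK i n a) + act n (T n) (-hK i n b) + hK i n (dK T n a + act n (T n) b) =
          act n (T i) a
        rw [map_add, map_neg, hK_act, ← ih a]
        abel
      · change -dK T n (-hK i n b) + -hK i n (-dK T n b) = act n (T i) b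
        rw [map_neg, map_neg, neg_neg, neg_neg]
        exact ih b

end Pool.Agent.U841.SN
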