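import Pool.Agent.U841.SN.BT

set_option autoImplicit false

/-! # The twisted differential, and the reduction of the order of the pole -/

namespace Pool.Agent.U841.SN

open MvPolynomial

variable {n : ℕ}

section ops

variable (f : ℕ → MvPolynomial (Fin n) ℂ) (β : ℕ → ℂ)

/-- `∑_{i ≤ r} y_i f_i` -/
noncomputable def FF (r : ℕ) : MvPolynomial (Fin n ⊕ ℕ) ℂ :=
  ∑ i ∈ Finset.range (r + 1), X (Sum.inr i) * inc (f i)

/-- the derivations `∂ / ∂x_l` and `y_i ∂ / ∂y_i` -/
noncomputable def Dv (n l : ℕ) : Derivation ℂ (MvPolynomial (Fin n ⊕ ℕ) ℂ) (MvPolynomial (Fin n ⊕ ℕ) ℂ) :=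
  if h : l < n then pderiv (Sum.inl ⟨l, h⟩) else
    (X (Sum.inr (l - n + 1)) : MvPolynomial (Fin n ⊕ ℕ) ℂ) • pderiv (Sum.inr (l - n + 1))

theorem Dv_comm (l m : ℕ) (P : MvPolynomial (Fin n ⊕ ℕ) ℂ) :
    Dv n l (Dv n m P) = Dv n m (Dv n l P) := by
  classical
  have h : ⁅Dv n l, Dv n m⁆ = 0 := by
    refine derivation_ext fun v => ?_
    rw [Derivation.commutator_apply, Derivation.zero_apply, sub_eq_zero]
    by_cases hl : l < n
    · rw [Dv, Dv, dif_pos hl]
      by_cases hm : m < n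
      · rw [dif_pos hm, pderiv_X, pderiv_X, Pi.single_apply, Pi.single_apply]
        split_ifs <;> simp
      · rw [dif_neg hm, Derivation.smul_apply, Derivation.smul_apply, pderiv_X, pderiv_X,
          Pi.single_apply, Pi.single_apply]
        split_ifs <;> simp [pderiv_X]
    · by_cases hm : m < n
      · rw [Dv, Dv, dif_pos hm, dif_neg hl, Derivation.smul_apply, Derivation.smul_apply, pderiv_X,
          pderiv_X, Pi.single_apply, Pi.single_apply]
        split_ifs <;> simp [pderiv_X]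
      · rw [Dv, Dv, dif_neg hm, dif_neg hl, Derivation.smul_apply, Derivation.smul_apply,
          Derivation.smul_apply, Derivation.smul_apply, pderiv_X, pderiv_X, Pi.single_apply,
          Pi.single_apply]
        by_cases h1 : v = Sum.inr (m - n + 1)
        · by_cases h2 : v = Sum.inr (l - n + 1)
          · rw [h1] at h2
            injection h2 with h2
            rw [h2]
          · have h3 : ¬ (Sum.inr (m - n + 1) : Fin n ⊕ ℕ) = Sum.inr (l - n + 1) := by
              rw [← h1]; exact h2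
            rw [if_pos h1, if_neg h2]
            simp [pderiv_X, h3]
        · by_cases h2 : v = Sum.inr (l - n + 1)
          · have h3 : ¬ (Sum.inr (l - n + 1) : Fin n ⊕ ℕ) = Sum.inr (m - n + 1) := by
              rw [← h2]; exact h1
            rw [if_neg h1, if_pos h2]
            simp [pderiv_X, h3]
          · rw [if_neg h1, if_neg h2]
            simp
  have h1 := congrArg (fun D => D P) h
  simp only [Derivation.commutator_apply, Derivation.zero_apply] at h1
  exact sub_eq_zero.1 h1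

theorem pderiv_inc (l : Fin n) (g : MvPolynomial (Fin n) ℂ) :
    pderiv (Sum.inl l : Fin n ⊕ ℕ) (inc g) = inc (pderiv l g) :=
  pderiv_rename Sum.inl_injective l g

theorem pderiv_inr_inc (i : ℕ) (g : MvPolynomial (Fin n) ℂ) :
    pderiv (Sum.inr i : Fin n ⊕ ℕ) (inc g) = 0 := by
  induction g using MvPolynomial.induction_on with
  | C c =>
    have h : inc (C c : MvPolynomial (Fin n) ℂ) = C c := rename_C _ _
    rw [h, pderiv_C]
  | add p q hp hq => rw [map_add, map_add, hp, hq, add_zero]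
  | mul_X p k hp =>
    have h : inc (X k : MvPolynomial (Fin n) ℂ) = X (Sum.inl k) := rename_X _ _
    rw [map_mul, h, Derivation.leibniz, hp, pderiv_X_of_ne (by simp), smul_zero, smul_zero,
      add_zero]

theorem Dv_F (r l : ℕ) (hl : l < n + r) : Dv n l (FF f r) = sF f r l := by
  classical
  by_cases h : l < n
  · rw [Dv, dif_pos h, FF, map_sum, sF, dif_pos h]
    refine Finset.sum_congr rfl fun i _ => ?_
    rw [Derivation.leibniz, pderiv_inc, pderiv_X_of_ne (by simp), smul_zero, add_zero, smul_eq_mul]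
  · rw [Dv, dif_neg h, Derivation.smul_apply, FF, map_sum, sF, dif_neg h, if_pos hl,
      Finset.sum_eq_single (l - n + 1)]
    · rw [Derivation.leibniz, pderiv_inr_inc, pderiv_X_self, smul_zero, zero_add, smul_eq_mul,
        smul_eq_mul, mul_one]
    · intro i _ hi
      rw [Derivation.leibniz, pderiv_inr_inc, pderiv_X_of_ne (by simpa using hi), smul_zero,
        smul_zero, add_zero]
    · intro h1
      rw [Finset.mem_range] at h1
      omega

/-- the exponents -/
def bt (n : ℕ) (β : ℕ → ℂ) (l : ℕ) : ℂ := if l < n then 0 else β (l - n + 1)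

/-- the part of the twisted differential which does not raise the order of the pole -/
noncomputable def dl (n : ℕ) (β : ℕ → ℂ) (l : ℕ) : AddMonoid.End (MvPolynomial (Fin n ⊕ ℕ) ℂ) where
  toFun := fun P => Dv n l P + C (bt n β l) * P
  map_zero' := by rw [map_zero, mul_zero, add_zero]
  map_add' := fun P Q => by rw [map_add, mul_add]; abel

theorem dl_apply (l : ℕ) (P : MvPolynomial (Fin n ⊕ ℕ) ℂ) :
    dl n β l P = Dv n l P + C (bt n β l) * P := rfl

/-- the operators of the twisted differential -/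
noncomputable def nab (r l : ℕ) : AddMonoid.End (MvPolynomial (Fin n ⊕ ℕ) ℂ) :=
  mE (sF f r l) + dl n β l

theorem nab_apply (r l : ℕ) (P : MvPolynomial (Fin n ⊕ ℕ) ℂ) :
    nab f β r l P = sF f r l * P + (Dv n l P + C (bt n β l) * P) := rfl

theorem nab_comm (r l m : ℕ) (hl : l < n + r) (hm : m < n + r) (P : MvPolynomial (Fin n ⊕ ℕ) ℂ) :
    nab f β r l (nab f β r m P) = nab f β r m (nab f β r l P) := by
  rw [nab_apply, nab_apply, nab_apply, nab_apply]
  simp only [map_add, Derivation.leibniz, smul_eq_mul]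
  rw [← Dv_F f r l hl, ← Dv_F f r m hm, Dv_comm l m P, Dv_comm l m (FF f r)]
  have h1 : ∀ (l : ℕ) (c : ℂ), Dv n l (C c : MvPolynomial (Fin n ⊕ ℕ) ℂ) = 0 := by
    intro l c
    rw [← algebraMap_eq, Derivation.map_algebraMap]
  rw [h1, h1]
  ring

/-- the twisted differential -/
noncomputable def dN (r : ℕ) : AddMonoid.End (Kos (MvPolynomial (Fin n ⊕ ℕ) ℂ) (n + r)) :=
  dK (nab f β r) (n + r)

theorem dN_dN (r : ℕ) (z : Kos (MvPolynomial (Fin n ⊕ ℕ) ℂ) (n + r)) :
    dN f β r (dN f β r z) = 0 :=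
  dd _ _ (fun l hl m hm z => nab_comm f β r l m hl hm z) z

theorem dN_eq (r : ℕ) (z : Kos (MvPolynomial (Fin n ⊕ ℕ) ℂ) (n + r)) :
    dN f β r z = dF f r z + dK (dl n β) (n + r) z := dK_add _ _ _ _

theorem dN_mk (r : ℕ) (v : ℕ → MvPolynomial (Fin n ⊕ ℕ) ℂ) :
    dN f β r (mkK (n + r) v) = iK (n + r) (∑ l ∈ Finset.range (n + r), nab f β r l (v l)) :=
  d_mkK _ _ _

end ops

section grad

variable (D : ℕ → ℕ)

theorem GG_pderiv (r : ℕ) (v : Fin n ⊕ ℕ) (δ : ℤ × ℤ) (P : MvPolynomial (Fin n ⊕ ℕ) ℂ)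
    (hP : P ∈ GG D n r δ) : pderiv v P ∈ GG D n r (δ - W D v) := by
  classical
  intro m hm
  rw [coeff_pderiv] at hm
  exact Mon_of_add D (hP _ (left_ne_zero_of_mul hm))

theorem Dv_GG (r l : ℕ) (hl : l < n + r) (δ : ℤ × ℤ) (P : MvPolynomial (Fin n ⊕ ℕ) ℂ)
    (hP : P ∈ GG D n r δ) : Dv n l P ∈ GG D n r (δ + (eF n l + (0, -1))) := by
  by_cases h : l < n
  · rw [Dv, dif_pos h, eF_lt h]
    have h1 := GG_pderiv D r (Sum.inl ⟨l, h⟩) δ P hP
    rw [KD.W_inl] at h1
    convert h1 using 2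
    ext <;> simp; ring
  · rw [Dv, dif_neg h, Derivation.smul_apply, smul_eq_mul, eF_ge h]
    have h1 := GG_mul D (GG_X D (r := r) (v := (Sum.inr (l - n + 1) : Fin n ⊕ ℕ)) (fun i hi => by
      injection hi with hi; omega)) (GG_pderiv D r (Sum.inr (l - n + 1)) δ P hP)
    convert h1 using 2
    ext <;> simp

theorem dl_GG (β : ℕ → ℂ) (r l : ℕ) (hl : l < n + r) (δ : ℤ × ℤ) (P : MvPolynomial (Fin n ⊕ ℕ) ℂ)
    (hP : P ∈ GG D n r δ) : dl n β l P ∈ GG D n r (δ + (eF n l + (0, -1))) := by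
  rw [dl_apply]
  refine add_mem (Dv_GG D r l hl δ P hP) ?_
  by_cases h : l < n
  · rw [bt, if_pos h, C_0, zero_mul]
    exact zero_mem _
  · rw [eF_ge h]
    have h1 := GG_mul D (GG_C D r (bt n β l)) hP
    convert h1 using 2
    ext <;> simp

/-- the polynomials of weight `a` and degree at most `K` in `y` -/
def Fil (n : ℕ) (r : ℕ) (a K : ℤ) : Set ((Fin n ⊕ ℕ) →₀ ℕ) :=
  {m | (wt D m).1 = a ∧ (wt D m).2 ≤ K ∧ ∀ i, r < i → m (Sum.inr i) = 0}

end grad

end Pool.Agent.U841.SN
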