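import Pool.Agent.U841.SN.Gr

set_option autoImplicit false

/-! # Polynomials with prescribed monomials -/

namespace Pool.Agent.U841.SN

open MvPolynomial

section

variable {σ : Type}

/-- the polynomials with all monomials in `S` -/
def sp (S : Set (σ →₀ ℕ)) : AddSubgroup (MvPolynomial σ ℂ) where
  carrier := {P | ∀ m, coeff m P ≠ 0 → m ∈ S}
  zero_mem' := fun m h => absurd (coeff_zero m) h
  add_mem' := fun {P Q} hP hQ m h => by
    by_cases h1 : coeff m P = 0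
    · refine hQ m fun h2 => h ?_
      rw [coeff_add, h1, h2, add_zero]
    · exact hP m h1
  neg_mem' := fun {P} hP m h => hP m fun h1 => h (by rw [coeff_neg, h1, neg_zero])

theorem mem_sp {S : Set (σ →₀ ℕ)} {P : MvPolynomial σ ℂ} :
    P ∈ sp S ↔ ∀ m, coeff m P ≠ 0 → m ∈ S := Iff.rfl

theorem sp_mono {S T : Set (σ →₀ ℕ)} (h : S ⊆ T) {P : MvPolynomial σ ℂ} (hP : P ∈ sp S) :
    P ∈ sp T := fun m hm => h (hP m hm)

theorem sp_mul {S T U : Set (σ →₀ ℕ)} (h : ∀ a ∈ S, ∀ b ∈ T, a + b ∈ U) {P Q : MvPolynomial σ ℂ}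
    (hP : P ∈ sp S) (hQ : Q ∈ sp T) : P * Q ∈ sp U := by
  classical
  intro m hm
  rw [coeff_mul] at hm
  obtain ⟨⟨a, b⟩, hab, h1⟩ := Finset.exists_ne_zero_of_sum_ne_zero hm
  rw [Finset.HasAntidiagonal.mem_antidiagonal] at hab
  rw [← hab]
  exact h a (hP a (left_ne_zero_of_mul h1)) b (hQ b (right_ne_zero_of_mul h1))

theorem sp_empty {P : MvPolynomial σ ℂ} (hP : P ∈ sp (∅ : Set (σ →₀ ℕ))) : P = 0 := by
  ext m
  rw [coeff_zero]
  by_contra h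
  exact hP m h

theorem sp_X (v : σ) : (X v : MvPolynomial σ ℂ) ∈ sp {Finsupp.single v 1} := by
  classical
  intro m hm
  rw [coeff_X, ne_eq, ite_eq_right_iff, Classical.not_imp] at hm
  exact hm.1.symm

theorem sp_one : (1 : MvPolynomial σ ℂ) ∈ sp {(0 : σ →₀ ℕ)} := by
  classical
  intro m hm
  rw [coeff_one, ne_eq, ite_eq_right_iff, Classical.not_imp] at hm
  exact hm.1.symm

theorem sp_C (c : ℂ) : (C c : MvPolynomial σ ℂ) ∈ sp {(0 : σ →₀ ℕ)} := by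
  classical
  intro m hm
  rw [coeff_C, ne_eq, ite_eq_right_iff, Classical.not_imp] at hm
  exact hm.1.symm

/-- splitting off the monomials in `S` -/
theorem sp_split {S T : Set (σ →₀ ℕ)} {P : MvPolynomial σ ℂ} (v : σ) (hP : P ∈ sp S)
    (hv : ∀ m ∈ S, m ∉ T → m v ≠ 0) :
    ∃ ν ∈ sp (S ∩ T), ∃ a ∈ sp {m | m + Finsupp.single v 1 ∈ S}, P = ν + X v * a := by
  classical
  let A := P.support.filter (· ∈ T)
  let B := P.support.filter (¬ · ∈ T)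
  have hB : ∀ m ∈ B, (m - Finsupp.single v 1) + Finsupp.single v 1 = m := by
    intro m hm
    rw [Finset.mem_filter, mem_support_iff] at hm
    have h1 : Finsupp.single v 1 ≤ m := by
      rw [Finsupp.single_le_iff]
      exact Nat.one_le_iff_ne_zero.2 (hv m (hP m hm.1) hm.2)
    exact tsub_add_cancel_of_le h1
  refine ⟨∑ m ∈ A, monomial m (coeff m P), ?_, ∑ m ∈ B, monomial (m - Finsupp.single v 1) (coeff m P),
    ?_, ?_⟩
  · refine sum_mem fun m hm => ?_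
    rw [Finset.mem_filter, mem_support_iff] at hm
    intro m' hm'
    rw [coeff_monomial, ne_eq, ite_eq_right_iff, Classical.not_imp] at hm'
    rw [← hm'.1]
    exact ⟨hP m hm.1, hm.2⟩
  · refine sum_mem fun m hm => ?_
    intro m' hm'
    rw [coeff_monomial, ne_eq, ite_eq_right_iff, Classical.not_imp] at hm'
    rw [← hm'.1]
    change (m - Finsupp.single v 1) + Finsupp.single v 1 ∈ S
    rw [hB m hm]
    rw [Finset.mem_filter, mem_support_iff] at hm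
    exact hP m hm.1
  · conv_lhs => rw [P.as_sum, ← Finset.sum_filter_add_sum_filter_not P.support (· ∈ T)]
    congr 1
    rw [Finset.mul_sum]
    refine Finset.sum_congr rfl fun m hm => ?_
    rw [X, monomial_mul, one_mul, add_comm, hB m hm]

theorem sp_of_X_mul {S : Set (σ →₀ ℕ)} {P : MvPolynomial σ ℂ} (v : σ) (h : X v * P ∈ sp S) :
    P ∈ sp {m | m + Finsupp.single v 1 ∈ S} := by
  intro m hm
  apply h
  rw [mul_comm, coeff_mul_X]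
  exact hm

end

/-- the operator of multiplication -/
noncomputable def mE {σ : Type} (P : MvPolynomial σ ℂ) : AddMonoid.End (MvPolynomial σ ℂ) :=
  AddMonoidHom.mulLeft P

theorem mE_apply {σ : Type} (P Q : MvPolynomial σ ℂ) : mE P Q = P * Q := rfl

section weights

variable {n : ℕ} (D : ℕ → ℕ)

/-- the weights of the variables `x_j` and `y_i` -/
def W : Fin n ⊕ ℕ → ℤ × ℤ := Sum.elim (fun _ => (1, 0)) fun i => (-(D i : ℤ), 1)

/-- the weight of a monomial -/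
noncomputable def wt (m : (Fin n ⊕ ℕ) →₀ ℕ) : ℤ × ℤ := Finsupp.weight (W D) m

/-- The monomials of degree `δ` in `x` and `y_0, …, y_r`. -/
def Mon (r : ℕ) (δ : ℤ × ℤ) : Set ((Fin n ⊕ ℕ) →₀ ℕ) :=
  {m | wt D m = δ ∧ ∀ i, r < i → m (Sum.inr i) = 0}

/-- the homogeneous polynomials in `x`, `y_0, …, y_r` -/
noncomputable def GG (n r : ℕ) (δ : ℤ × ℤ) : AddSubgroup (MvPolynomial (Fin n ⊕ ℕ) ℂ) :=
  sp (Mon D r δ)

/-- the monomials divisible by one of the `v j`, `j < i` -/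
def Idl {n : ℕ} (v : ℕ → Fin n ⊕ ℕ) (i : ℕ) : Set ((Fin n ⊕ ℕ) →₀ ℕ) :=
  {m | ∃ j, j < i ∧ m (v j) ≠ 0}

noncomputable def II {n : ℕ} (r : ℕ) (v : ℕ → Fin n ⊕ ℕ) (i : ℕ) (δ : ℤ × ℤ) :
    AddSubgroup (MvPolynomial (Fin n ⊕ ℕ) ℂ) :=
  sp (Mon D r δ ∩ Idl v i)

theorem wt_add (a b : (Fin n ⊕ ℕ) →₀ ℕ) : wt D (a + b) = wt D a + wt D b := map_add _ _ _

theorem wt_single (v : Fin n ⊕ ℕ) : wt D (Finsupp.single v 1) = W D v := by
  rw [wt, Finsupp.weight_single, one_smul]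

theorem wt_zero : wt D (0 : (Fin n ⊕ ℕ) →₀ ℕ) = 0 := map_zero _

theorem Mon_add {r : ℕ} {δ ε : ℤ × ℤ} {a b : (Fin n ⊕ ℕ) →₀ ℕ} (ha : a ∈ Mon D r δ)
    (hb : b ∈ Mon D r ε) : a + b ∈ Mon D r (δ + ε) := by
  refine ⟨by rw [wt_add, ha.1, hb.1], fun i hi => ?_⟩
  rw [Finsupp.add_apply, ha.2 i hi, hb.2 i hi]

theorem GG_mul {r : ℕ} {δ ε : ℤ × ℤ} {P Q : MvPolynomial (Fin n ⊕ ℕ) ℂ} (hP : P ∈ GG D n r δ)
    (hQ : Q ∈ GG D n r ε) : P * Q ∈ GG D n r (δ + ε) :=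
  sp_mul (fun _ ha _ hb => Mon_add D ha hb) hP hQ

theorem II_mul {r : ℕ} {v : ℕ → Fin n ⊕ ℕ} {i : ℕ} {δ ε : ℤ × ℤ}
    {P Q : MvPolynomial (Fin n ⊕ ℕ) ℂ} (hP : P ∈ II D r v i δ)
    (hQ : Q ∈ GG D n r ε) : P * Q ∈ II D r v i (δ + ε) := by
  refine sp_mul (S := Mon D r δ ∩ Idl v i) (T := Mon D r ε) (U := Mon D r (δ + ε) ∩ Idl v i)
    (fun a ha b hb => ⟨Mon_add D ha.1 hb, ?_⟩) hP hQ
  obtain ⟨j, hj, h⟩ := ha.2
  refine ⟨j, hj, ?_⟩
  rw [Finsupp.add_apply]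
  omega

theorem GG_one (r : ℕ) : (1 : MvPolynomial (Fin n ⊕ ℕ) ℂ) ∈ GG D n r 0 := by
  refine sp_mono ?_ sp_one
  rintro m rfl
  exact ⟨wt_zero D, fun _ _ => rfl⟩

theorem GG_C (r : ℕ) (c : ℂ) : (C c : MvPolynomial (Fin n ⊕ ℕ) ℂ) ∈ GG D n r 0 := by
  refine sp_mono ?_ (sp_C c)
  rintro m rfl
  exact ⟨wt_zero D, fun _ _ => rfl⟩

/-- the variables `x_j` and `y_i`, `i ≤ r` -/
def Good (r : ℕ) (v : Fin n ⊕ ℕ) : Prop := ∀ i, v = Sum.inr i → i ≤ r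

theorem single_Mon {r : ℕ} {v : Fin n ⊕ ℕ} (hv : Good r v) :
    Finsupp.single v 1 ∈ Mon D r (W D v) := by
  classical
  refine ⟨wt_single D v, fun i hi => ?_⟩
  rw [Finsupp.single_apply, if_neg]
  intro h
  exact absurd (hv i h) (by omega)

theorem GG_X {r : ℕ} {v : Fin n ⊕ ℕ} (hv : Good r v) : (X v : MvPolynomial (Fin n ⊕ ℕ) ℂ) ∈
    GG D n r (W D v) := by
  refine sp_mono ?_ (sp_X v)
  rintro m rfl
  exact single_Mon D hv

theorem GG_pow {r : ℕ} {δ : ℤ × ℤ} {P : MvPolynomial (Fin n ⊕ ℕ) ℂ} (hP : P ∈ GG D n r δ)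
    (m : ℕ) : P ^ m ∈ GG D n r (m • δ) := by
  induction m with
  | zero => rw [pow_zero, zero_smul]; exact GG_one D r
  | succ m ih => rw [pow_succ, succ_nsmul]; exact GG_mul D ih hP

theorem Mon_of_add {r : ℕ} {v : Fin n ⊕ ℕ} {δ : ℤ × ℤ} {m : (Fin n ⊕ ℕ) →₀ ℕ}
    (h : m + Finsupp.single v 1 ∈ Mon D r δ) : m ∈ Mon D r (δ - W D v) := by
  refine ⟨?_, fun i hi => ?_⟩
  · rw [← h.1, wt_add, wt_single, add_sub_cancel_right]
  · have h1 := h.2 i hi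
    rw [Finsupp.add_apply] at h1
    omega

theorem II_dec {r : ℕ} {v : ℕ → Fin n ⊕ ℕ} {i : ℕ} (δ : ℤ × ℤ)
    (z : MvPolynomial (Fin n ⊕ ℕ) ℂ) (hz : z ∈ II D r v (i + 1) δ) :
    ∃ ν ∈ II D r v i δ, ∃ a ∈ GG D n r (δ - W D (v i)), z = ν + mE (X (v i)) a := by
  obtain ⟨ν, hν, a, ha, e⟩ := sp_split (T := Idl v i) (v i) hz (by
    rintro m ⟨_, j, hj, h⟩ hm
    have hji : j = i := by
      by_contra hne
      exact hm ⟨j, by omega, h⟩
    rwa [hji] at h)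
  refine ⟨ν, sp_mono (T := Mon D r δ ∩ Idl v i) (fun m hm => ⟨hm.1.1, hm.2⟩) hν, a, sp_mono (fun m hm => ?_) ha, e⟩
  exact Mon_of_add D hm.1

theorem II_reg {r : ℕ} {v : ℕ → Fin n ⊕ ℕ} {i : ℕ} (hv : ∀ j, j < i → v j ≠ v i) (δ : ℤ × ℤ)
    (z : MvPolynomial (Fin n ⊕ ℕ) ℂ) (hz : mE (X (v i)) z ∈ II D r v i (δ + W D (v i))) :
    z ∈ II D r v i δ := by
  classical
  refine sp_mono (fun m hm => ?_) (sp_of_X_mul (v i) hz)
  obtain ⟨h1, j, hj, h2⟩ := hm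
  have h3 := Mon_of_add D h1
  rw [add_sub_cancel_right] at h3
  refine ⟨h3, j, hj, ?_⟩
  rw [Finsupp.add_apply, Finsupp.single_apply, if_neg (hv j hj).symm, add_zero] at h2
  exact h2

theorem II_X {r : ℕ} {v : ℕ → Fin n ⊕ ℕ} {i : ℕ} (hv : Good r (v i)) (δ : ℤ × ℤ)
    (z : MvPolynomial (Fin n ⊕ ℕ) ℂ) (hz : z ∈ GG D n r δ) :
    mE (X (v i)) z ∈ II D r v (i + 1) (δ + W D (v i)) := by
  classical
  rw [mE_apply, add_comm δ]
  have h1 : (X (v i) : MvPolynomial (Fin n ⊕ ℕ) ℂ) ∈ II D r v (i + 1) (W D (v i)) := by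
    refine sp_mono ?_ (sp_X (v i))
    rintro m rfl
    refine ⟨single_Mon D hv, i, Nat.lt_succ_self i, ?_⟩
    rw [Finsupp.single_apply, if_pos rfl]
    exact one_ne_zero
  exact II_mul D h1 hz

theorem II_zero {r : ℕ} {v : ℕ → Fin n ⊕ ℕ} (δ : ℤ × ℤ)
    (z : MvPolynomial (Fin n ⊕ ℕ) ℂ) (hz : z ∈ II D r v 0 δ) : z = 0 := by
  refine sp_empty (sp_mono ?_ hz)
  rintro m ⟨_, j, hj, _⟩
  omega

theorem II_le {r : ℕ} {v : ℕ → Fin n ⊕ ℕ} {i : ℕ} (δ : ℤ × ℤ)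
    (z : MvPolynomial (Fin n ⊕ ℕ) ℂ) (hz : z ∈ II D r v i δ) : z ∈ GG D n r δ :=
  sp_mono (fun _ hm => hm.1) hz

theorem II_mono {r : ℕ} {v : ℕ → Fin n ⊕ ℕ} {i : ℕ} (δ : ℤ × ℤ)
    (z : MvPolynomial (Fin n ⊕ ℕ) ℂ) (hz : z ∈ II D r v i δ) : z ∈ II D r v (i + 1) δ :=
  sp_mono (S := Mon D r δ ∩ Idl v i) (T := Mon D r δ ∩ Idl v (i + 1))
    (fun _ hm => ⟨hm.1, by obtain ⟨j, hj, h⟩ := hm.2; exact ⟨j, by omega, h⟩⟩) hz

/-- the weight in terms of the exponents -/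
theorem wt_eq (m : (Fin n ⊕ ℕ) →₀ ℕ) : wt D m = m.sum fun v c => c • W D v := by
  rw [wt, Finsupp.weight_apply]

theorem wt_snd_nonneg (m : (Fin n ⊕ ℕ) →₀ ℕ) : 0 ≤ (wt D m).2 := by
  rw [wt_eq, Finsupp.sum, Prod.snd_sum]
  refine Finset.sum_nonneg fun v _ => ?_
  rw [Prod.smul_snd]
  rcases v with j | i
  · simp [W]
  · simp [W]

/-- a monomial of positive degree in `y` contains some `y_i` -/
theorem exists_y {m : (Fin n ⊕ ℕ) →₀ ℕ} (h : 0 < (wt D m).2) : ∃ i, m (Sum.inr i) ≠ 0 := by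
  rw [wt_eq, Finsupp.sum, Prod.snd_sum] at h
  obtain ⟨v, hv, h1⟩ := Finset.exists_ne_zero_of_sum_ne_zero h.ne'
  rcases v with j | i
  · simp [W] at h1
  · exact ⟨i, Finsupp.mem_support_iff.1 hv⟩

/-- a monomial of positive weight contains some `x_j` -/
theorem exists_x {m : (Fin n ⊕ ℕ) →₀ ℕ} (h : 0 < (wt D m).1) : ∃ j, m (Sum.inl j) ≠ 0 := by
  rw [wt_eq, Finsupp.sum, Prod.fst_sum] at h
  by_contra hcon
  push Not at hcon
  refine absurd h (not_lt.2 (Finset.sum_nonpos fun v hv => ?_))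
  rcases v with j | i
  · exact absurd (hcon j) (Finsupp.mem_support_iff.1 hv)
  · rw [Prod.smul_fst]
    simp only [W, Sum.elim_inr, smul_neg, nsmul_eq_mul, Left.neg_nonpos_iff]
    positivity

end weights

end Pool.Agent.U841.SN
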