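import Pool.Agent.U841.SN.Nab

set_option autoImplicit false

/-! # The reduction of the order of the pole -/

namespace Pool.Agent.U841.SN

open MvPolynomial

variable {n : ℕ}

theorem mkK_zero_fun {R : Type} [AddCommGroup R] : ∀ (n : ℕ), mkK n (fun _ => (0 : R)) = 0
  | 0 => rfl
  | n + 1 => by rw [mkK_succ, mkK_zero_fun n, map_zero]; rfl

section

variable (f : ℕ → MvPolynomial (Fin n) ℂ) (D : ℕ → ℕ) (β : ℕ → ℂ)

theorem dl_Fil (r l : ℕ) (a K : ℤ) (P : MvPolynomial (Fin n ⊕ ℕ) ℂ)
    (hP : P ∈ sp (Fil D n r (a - (eF n l).1) K)) : dl n β l P ∈ sp (Fil D n r a K) := by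
  classical
  have hpd : ∀ v : Fin n ⊕ ℕ, pderiv v P ∈
      sp {m | m + Finsupp.single v 1 ∈ Fil D n r (a - (eF n l).1) K} := by
    intro v m hm
    rw [coeff_pderiv] at hm
    exact hP _ (left_ne_zero_of_mul hm)
  rw [dl_apply]
  by_cases h : l < n
  · rw [Dv, dif_pos h, bt, if_pos h, C_0, zero_mul, add_zero]
    refine sp_mono (fun m hm => ?_) (hpd (Sum.inl ⟨l, h⟩))
    obtain ⟨h1, h2, h3⟩ := hm
    rw [wt_add, wt_single, KD.W_inl, Prod.fst_add, eF_lt h] at h1
    rw [wt_add, wt_single, KD.W_inl, Prod.snd_add] at h2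
    refine ⟨by simpa using h1, by simpa using h2, fun i hi => ?_⟩
    have h4 := h3 i hi
    rw [Finsupp.add_apply] at h4
    omega
  · rw [eF_ge h] at hP hpd
    simp only [sub_zero] at hP hpd
    refine add_mem ?_ ?_
    · rw [Dv, dif_neg h, Derivation.smul_apply, smul_eq_mul]
      refine sp_mul (fun m hm m' hm' => ?_) (sp_X _) (hpd (Sum.inr (l - n + 1)))
      rw [Set.mem_singleton_iff] at hm
      rw [hm, add_comm]
      exact hm'
    · refine sp_mul (fun m hm m' hm' => ?_) (sp_C _) hP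
      rw [Set.mem_singleton_iff] at hm
      rw [hm, zero_add]
      exact hm'

theorem cmp_Fil (r : ℕ) (a K k : ℤ) (hk : K < k) (P : MvPolynomial (Fin n ⊕ ℕ) ℂ)
    (hP : P ∈ sp (Fil D n r a K)) : cmp D (a, k) P = 0 := by
  ext m
  rw [coeff_cmp, coeff_zero]
  by_cases h : coeff m P = 0
  · rw [h, ite_self]
  · rw [if_neg]
    intro h1
    have h2 := (hP m h).2.1
    rw [h1] at h2
    exact absurd hk (not_lt.2 h2)

variable (hf : ∀ i, (f i).IsHomogeneous (D i)) (hD : ∀ i, 0 < D i)

include hf hD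

/-- **The reduction of the order of the pole.** -/
theorem red (r : ℕ) (hNC : NC f r) (a : ℤ) (ha : -(n : ℤ) < a) (g : MvPolynomial (Fin n ⊕ ℕ) ℂ)
    (hg : g ∈ GG D n r (a, 0)) : ∀ (K : ℕ) (v : ℕ → MvPolynomial (Fin n ⊕ ℕ) ℂ),
    (∀ l, l < n + r → v l ∈ sp (Fil D n r (a - (eF n l).1) K)) →
    g = ∑ l ∈ Finset.range (n + r), nab f β r l (v l) →
    ∃ v' : ℕ → MvPolynomial (Fin n ⊕ ℕ) ℂ, (∀ l, l < n + r → v' l ∈ GG D n r (a - (eF n l).1, 0)) ∧
      g = ∑ l ∈ Finset.range (n + r), nab f β r l (v' l) := by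
  intro K
  induction K with
  | zero =>
    intro v hv h
    refine ⟨v, fun l hl m hm => ?_, h⟩
    obtain ⟨h1, h2, h3⟩ := hv l hl m hm
    refine ⟨Prod.ext h1 ?_, h3⟩
    have h4 := wt_snd_nonneg D m
    have h5 : (wt D m).2 ≤ 0 := by simpa using h2
    exact le_antisymm h5 h4
  | succ K ih =>
    intro v hv h
    let top : ℕ → MvPolynomial (Fin n ⊕ ℕ) ℂ := fun l => cmp D (a - (eF n l).1, (K : ℤ) + 1) (v l)
    have hYF : ∀ l, l < n + r → YF r (v l) := fun l hl m hm => (hv l hl m hm).2.2
    have he : ∀ l (k : ℤ), l < n + r → ((a, k + 1) : ℤ × ℤ) - eF n l = (a - (eF n l).1, k) := by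
      intro l k _
      have h2 : (eF n l).2 = 1 := by
        by_cases h : l < n
        · rw [eF_lt h]
        · rw [eF_ge h]
      refine Prod.ext rfl ?_
      rw [Prod.snd_sub, h2]
      simp
    have htop : ∀ l, l < n + r → top l ∈ GG D n r (((a, (K : ℤ) + 1 + 1) : ℤ × ℤ) - eF n l) := by
      intro l hl
      rw [he l _ hl]
      exact cmp_GG D r _ _ (hYF l hl)
    have hlow : ∀ l, l < n + r → v l - top l ∈ sp (Fil D n r (a - (eF n l).1) K) := by
      intro l hl m hm
      rw [coeff_sub, coeff_cmp] at hm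
      by_cases h1 : coeff m (v l) = 0
      · rw [h1, ite_self, sub_zero] at hm
        exact absurd rfl hm
      · obtain ⟨h2, h3, h4⟩ := hv l hl m h1
        refine ⟨h2, ?_, h4⟩
        by_contra h5
        apply hm
        rw [if_pos, sub_self]
        refine Prod.ext h2 ?_
        push_cast at h3
        push Not at h5
        exact le_antisymm h3 (by linarith [Int.add_one_le_iff.2 h5])
    -- the top components are a cycle
    have hcyc : ∑ l ∈ Finset.range (n + r), sF f r l * top l = 0 := by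
      have h1 := congrArg (cmp D (a, (K : ℤ) + 1 + 1)) h
      rw [map_sum] at h1
      have h2 : cmp D (a, (K : ℤ) + 1 + 1) g = 0 := by
        refine cmp_Fil D r a 0 _ (by positivity) g fun m hm => ?_
        have h3 := hg m hm
        exact ⟨by rw [h3.1], by rw [h3.1], h3.2⟩
      rw [h2] at h1
      rw [h1]
      refine Finset.sum_congr rfl fun l hl => ?_
      rw [Finset.mem_range] at hl
      have h4 : nab f β r l (v l) = sF f r l * v l + dl n β l (v l) := rfl
      rw [h4, map_add, cmp_mul D r _ _ _ _ (sF_GG f D hf hD r l), he l _ hl,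
        cmp_Fil D r a ((K + 1 : ℕ) : ℤ) _ (by push_cast; linarith) _ (dl_Fil D β r l a _ _ (hv l hl)),
        add_zero]
    obtain ⟨u, hu, e1⟩ := H1_NC f D hf hD r hNC a ((K : ℤ) + 1 + 1) (by linarith [Int.natCast_nonneg K])
      (Or.inl ha) (mkK (n + r) top) (mkK_gr _ _ _ htop) (by
        have h1 : dF f r (mkK (n + r) top) =
            iK (n + r) (∑ l ∈ Finset.range (n + r), sF f r l * top l) := d_mkK _ _ _
        rw [h1, hcyc, map_zero])
    have hdu := d_gr (G := GG D n r) (e := eF n) (dl n β) (0, -1) (n + r)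
      (fun i hi δ z hz => dl_GG D β r i hi δ z hz) 2 _ u hu
    have e2 : ((a, (K : ℤ) + 1 + 1) : ℤ × ℤ) + (0, -1) = (a, (K : ℤ) + 1) := by
      ext <;> simp
    rw [e2, show (2 : ℤ) - 1 = 1 by norm_num] at hdu
    obtain ⟨w, hw, e3⟩ := exists_mkK _ _ _ hdu
    have hmk : mkK (n + r) (fun l => v l - top l - w l) = mkK (n + r) v - dN f β r u := by
      have h1 : mkK (n + r) v = mkK (n + r) (fun l => (v l - top l - w l) + (top l + w l)) :=
        mkK_congr _ _ _ fun l _ => by abel
      rw [h1, mkK_add, mkK_add (n + r) top w, dN_eq, ← e1, e3]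
      abel
    refine ih (fun l => v l - top l - w l) (fun l hl => ?_) ?_
    · refine sub_mem (hlow l hl) fun m hm => ?_
      have h1 := hw l hl
      rw [he l _ hl] at h1
      have h2 := h1 m hm
      exact ⟨by rw [h2.1], by rw [h2.1], h2.2⟩
    · have h1 := congrArg (dN f β r) hmk
      rw [dN_mk, map_sub, dN_dN, sub_zero, dN_mk, ← h] at h1
      have h2 : iK (n + r) (g - ∑ l ∈ Finset.range (n + r), nab f β r l (v l - top l - w l)) = 0 := by
        rw [map_sub, h1, sub_self]
      exact sub_eq_zero.1 (iK_inj _ _ h2)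

end

theorem y_zero (D : ℕ → ℕ) {m : (Fin n ⊕ ℕ) →₀ ℕ} (h : (wt D m).2 = 0) (i : ℕ) :
    m (Sum.inr i) = 0 := by
  by_contra h1
  rw [wt_eq, Finsupp.sum, Prod.snd_sum] at h
  have h2 := (Finset.sum_eq_zero_iff_of_nonneg (fun v _ => by
    rw [Prod.smul_snd]
    rcases v with j | i
    · simp [W]
    · simp [W])).1 h (Sum.inr i) (Finsupp.mem_support_iff.2 h1)
  simp [W] at h2
  exact h1 h2

/-- the polynomials without `y` -/
theorem exists_inc (D : ℕ → ℕ) (r : ℕ) (a : ℤ) (P : MvPolynomial (Fin n ⊕ ℕ) ℂ)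
    (hP : P ∈ GG D n r (a, 0)) : ∃ q : MvPolynomial (Fin n) ℂ, inc q = P ∧
      ∀ m, coeff m q ≠ 0 → (m.degree : ℤ) = a := by
  classical
  obtain ⟨q, hq⟩ := exists_rename_eq_of_vars_subset_range P (Sum.inl : Fin n → Fin n ⊕ ℕ)
    Sum.inl_injective (by
      intro v hv
      obtain ⟨m, hm, hvm⟩ := (mem_vars_iff_mem_support v).1 hv
      rcases v with j | i
      · exact ⟨j, rfl⟩
      · have h1 := hP m (mem_support_iff.1 hm)
        have h2 : (wt D m).2 = 0 := by rw [h1.1]
        exact absurd (y_zero D h2 i) (Finsupp.mem_support_iff.1 hvm))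
  refine ⟨q, hq, fun m hm => ?_⟩
  have h1 : coeff (m.mapDomain Sum.inl) P ≠ 0 := by
    rw [← hq, coeff_rename_mapDomain _ Sum.inl_injective]
    exact hm
  have h2 := (hP _ h1).1
  rw [wt_inl] at h2
  exact (Prod.ext_iff.1 h2).1

theorem inc_inj : Function.Injective (inc : MvPolynomial (Fin n) ℂ → MvPolynomial (Fin n ⊕ ℕ) ℂ) :=
  rename_injective _ Sum.inl_injective

/-- **The end of the reduction.** -/
theorem reduce (f : ℕ → MvPolynomial (Fin n) ℂ) (D : ℕ → ℕ) (β : ℕ → ℂ)
    (hf : ∀ i, (f i).IsHomogeneous (D i)) (hD : ∀ i, 0 < D i) (r : ℕ) (hNC : NC f r) (a : ℤ)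
    (ha : -(n : ℤ) < a) (g : MvPolynomial (Fin n) ℂ) (hg : inc g ∈ GG D n r (a, 0)) (K : ℕ)
    (v : ℕ → MvPolynomial (Fin n ⊕ ℕ) ℂ)
    (hv : ∀ l, l < n + r → v l ∈ sp (Fil D n r (a - (eF n l).1) K))
    (h : inc g = ∑ l ∈ Finset.range (n + r), nab f β r l (v l)) :
    ∃ u : ℕ → MvPolynomial (Fin n) ℂ,
      (∀ l, l < n + r → ∀ m, coeff m (u l) ≠ 0 → (m.degree : ℤ) = a - (eF n l).1) ∧
      (∀ i, i ≤ r → ∑ l : Fin n, u l * pderiv l (f i) +
        (if 1 ≤ i then f i * u (n + (i - 1)) else 0) = 0) ∧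
      ∑ l : Fin n, pderiv l (u l) + ∑ i ∈ Finset.range r, C (β (i + 1)) * u (n + i) = g := by
  classical
  obtain ⟨v', hv', h'⟩ := red f D β hf hD r hNC a ha (inc g) hg K v hv h
  choose! u hu1 hu2 using fun l (hl : l < n + r) => exists_inc D r _ (v' l) (hv' l hl)
  have hsplit : ∑ l ∈ Finset.range (n + r), sF f r l * v' l = 0 ∧
      ∑ l ∈ Finset.range (n + r), dl n β l (v' l) = inc g := by
    have he : ∀ l, l < n + r → ((a, (0 : ℤ) + 1) : ℤ × ℤ) - eF n l = (a - (eF n l).1, 0) := by
      intro l _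
      have h2 : (eF n l).2 = 1 := by
        by_cases h : l < n
        · rw [eF_lt h]
        · rw [eF_ge h]
      refine Prod.ext rfl ?_
      rw [Prod.snd_sub, h2]
      simp
    have hA : ∑ l ∈ Finset.range (n + r), sF f r l * v' l ∈ GG D n r (a, 0 + 1) := by
      refine sum_mem fun l hl => ?_
      rw [Finset.mem_range] at hl
      have h1 := GG_mul D (sF_GG f D hf hD r l) (hv' l hl)
      rw [← he l hl] at h1
      convert h1 using 2
      abel
    have hB : ∑ l ∈ Finset.range (n + r), dl n β l (v' l) ∈ GG D n r (a, 0) := by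
      refine sum_mem fun l hl => ?_
      rw [Finset.mem_range] at hl
      have h1 := dl_GG D β r l hl _ _ (hv' l hl)
      rw [← he l hl] at h1
      convert h1 using 2
      refine Prod.ext ?_ ?_
      · simp
      · simp
        ring
    have hAB : inc g = ∑ l ∈ Finset.range (n + r), sF f r l * v' l +
        ∑ l ∈ Finset.range (n + r), dl n β l (v' l) := by
      rw [h', ← Finset.sum_add_distrib]
      rfl
    have h1 := congrArg (cmp D (a, 0 + 1)) hAB
    rw [map_add, cmp_self D r _ _ hA] at h1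
    have h0 : ∀ Q ∈ GG D n r (a, (0 : ℤ)), cmp D (a, 0 + 1) Q = 0 := by
      intro Q hQ
      refine cmp_Fil D r a 0 _ (by norm_num) Q fun m hm => ?_
      have h3 := hQ m hm
      exact ⟨by rw [h3.1], by rw [h3.1], h3.2⟩
    rw [h0 _ hg, h0 _ hB, add_zero] at h1
    refine ⟨h1.symm, ?_⟩
    rw [hAB, ← h1, zero_add]
  refine ⟨u, hu2, fun i hi => ?_, ?_⟩
  · apply inc_inj
    have h1 := congrArg (pderiv (Sum.inr i : Fin n ⊕ ℕ)) hsplit.1
    rw [map_sum, map_zero] at h1
    rw [map_zero, ← h1, Finset.sum_range_add, map_add, map_sum, Finset.sum_range]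
    congr 1
    · refine Finset.sum_congr rfl fun l _ => ?_
      rw [← hu1 l (by omega), Derivation.leibniz, pderiv_inr_inc, smul_zero, zero_add, smul_eq_mul,
        map_mul]
      congr 1
      rw [sF, dif_pos l.2, map_sum, Finset.sum_eq_single i]
      · rw [Derivation.leibniz, pderiv_inr_inc, pderiv_X_self, smul_zero, zero_add, smul_eq_mul,
          mul_one]
      · intro i' _ hi'
        rw [Derivation.leibniz, pderiv_inr_inc, pderiv_X_of_ne (by simpa using hi'), smul_zero,
          smul_zero, add_zero]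
      · intro h2
        rw [Finset.mem_range] at h2
        omega
    · have h2 : ∀ x, x ∈ Finset.range r → pderiv (Sum.inr i : Fin n ⊕ ℕ)
          (sF f r (n + x) * v' (n + x)) =
          if x + 1 = i then inc (f i) * inc (u (n + x)) else 0 := by
        intro x hx
        rw [Finset.mem_range] at hx
        rw [← hu1 (n + x) (by omega), Derivation.leibniz, pderiv_inr_inc, smul_zero, zero_add,
          smul_eq_mul, sF, dif_neg (by omega), if_pos (by omega),
          show n + x - n + 1 = x + 1 by omega, Derivation.leibniz, pderiv_inr_inc, smul_zero,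
          zero_add, smul_eq_mul]
        by_cases h3 : x + 1 = i
        · rw [if_pos h3, h3, pderiv_X_self, mul_one, mul_comm]
        · rw [if_neg h3, pderiv_X_of_ne (by simpa using h3), mul_zero, mul_zero]
      rw [Finset.sum_congr rfl h2]
      by_cases h4 : 1 ≤ i
      · rw [if_pos h4, Finset.sum_eq_single (i - 1), if_pos (by omega), map_mul]
        · intro x _ hx
          rw [if_neg (by omega)]
        · intro h5
          rw [Finset.mem_range] at h5
          omega
      · rw [if_neg h4, map_zero]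
        symm
        refine Finset.sum_eq_zero fun x _ => ?_
        rw [if_neg (by omega)]
  · apply inc_inj
    have e0 : ∑ x ∈ Finset.range n, dl n β x (v' x) = ∑ x : Fin n, dl n β x (v' x) :=
      Finset.sum_range _
    rw [← hsplit.2, Finset.sum_range_add, map_add, map_sum, map_sum, e0]
    congr 1
    · refine Finset.sum_congr rfl fun l _ => ?_
      rw [← hu1 l (by omega), dl_apply, Dv, dif_pos l.2, bt, if_pos l.2, C_0, zero_mul, add_zero,
        pderiv_inc]
    · refine Finset.sum_congr rfl fun x hx => ?_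
      rw [Finset.mem_range] at hx
      rw [← hu1 (n + x) (by omega), dl_apply, Dv, dif_neg (by omega), bt, if_neg (by omega),
        Derivation.smul_apply, pderiv_inr_inc, smul_zero, zero_add, map_mul,
        show n + x - n + 1 = x + 1 by omega]
      congr 1
      exact rename_C _ _

end Pool.Agent.U841.SN
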