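import Pool.Agent.U841.SN.Fun
import Pool.Agent.U841.SN.Core2
import Pool.Agent.U841.SN.Cay2

set_option autoImplicit false

/-! # The roots `-(n+k)/d` of the `b`-function of a cone with normal crossings -/

namespace Pool.Agent.U841.SN

open MvPolynomial Pool.Agent.H628R4.TP Pool.Agent.N127.PB

variable {n : ℕ}

/-- **The roots of the `b`-function.** -/
theorem root (f : ℕ → MvPolynomial (Fin n) ℂ) (D : ℕ → ℕ) (hf : ∀ i, (f i).IsHomogeneous (D i))
    (hD : ∀ i, 0 < D i) (r : ℕ) (hNC : NC f r) (hn : 2 ≤ n) (k : ℕ)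
    (hk : (k = 0 ∧ 2 ≤ D 0) ∨ k + 3 ≤ D 0) (m : ℕ → ℕ) (hm : ∀ i, i ≤ r → 1 ≤ m i)
    (F : MvPolynomial (Fin n) ℂ) (hF : F = ∏ i ∈ Finset.range (r + 1), f i ^ m i)
    (d : ℕ) (hd : d = ∑ i ∈ Finset.range (r + 1), m i * D i)
    (b : Polynomial ℂ) (hb : IsBFunction F b) :
    b.eval (-(((n : ℂ) + k) / d)) = 0 := by
  classical
  by_contra hb0
  have hd0 : D 0 ≤ d := by
    rw [hd]
    have h1 : m 0 * D 0 ≤ ∑ i ∈ Finset.range (r + 1), m i * D i :=
      Finset.single_le_sum (f := fun i => m i * D i) (fun _ _ => Nat.zero_le _)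
      (Finset.mem_range.2 (Nat.succ_pos r))
    have h2 : 1 * D 0 ≤ m 0 * D 0 := Nat.mul_le_mul_right _ (hm 0 (Nat.zero_le _))
    rw [one_mul] at h2
    exact h2.trans h1
  have hkd : k < d := by omega
  have hdpos : 0 < d := by omega
  have hdC : (d : ℂ) ≠ 0 := Nat.cast_ne_zero.2 hdpos.ne'
  set α : ℂ := -(((n : ℂ) + k) / d) with hα
  have hFh : F.IsHomogeneous d := by
    rw [hF, hd]
    refine IsHomogeneous.prod _ _ _ fun i _ => ?_
    rw [mul_comm]
    exact (hf i).pow _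
  have hF0 : F ≠ 0 := by
    rw [hF]
    exact Finset.prod_ne_zero_iff.2 fun i hi => pow_ne_zero _
      (hNC.ne (by omega) i (by rw [Finset.mem_range] at hi; omega))
  -- the form in the numerator
  set g : MvPolynomial (Fin n) ℂ := X ⟨0, by omega⟩ ^ k with hg
  have hgh : g.IsHomogeneous k := by
    have := (isHomogeneous_X ℂ (⟨0, by omega⟩ : Fin n)).pow k
    rwa [one_mul] at this
  have hg0 : g ≠ 0 := pow_ne_zero _ (X_ne_zero _)
  obtain ⟨N, V, hV, hid⟩ := ext_point F d hFh hF0 b hb g k hgh hkd α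
  set β : ℕ → ℂ := fun i => -α * m i with hβ
  have hβe : ∀ i, β i = (((n : ℝ) + k) / d * m i : ℝ) := by
    intro i
    simp only [hβ, hα]
    push_cast
    ring
  have hβ0 : ∀ i, i ≤ r → ∀ j : ℕ, (j : ℂ) + β i ≠ 0 := by
    intro i hi j h0
    rw [hβe] at h0
    have h1 : (j : ℝ) + ((n : ℝ) + k) / d * m i = 0 := by exact_mod_cast h0
    have h2 : (0 : ℝ) < ((n : ℝ) + k) / d * m i := by
      have h3 : (0 : ℝ) < m i := by exact_mod_cast hm i hi
      have h4 : (0 : ℝ) < d := by exact_mod_cast hdpos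
      have h5 : (0 : ℝ) < (n : ℝ) + k := by
        have : (0 : ℝ) < n := by exact_mod_cast (by omega : 0 < n)
        positivity
      positivity
    have h3 : (0 : ℝ) ≤ j := Nat.cast_nonneg j
    linarith
  have hsum : (n : ℂ) + k = ∑ i ∈ Finset.range (r + 1), (D i : ℂ) * β i := by
    have h1 : ∀ i, (D i : ℂ) * β i = -α * ((m i * D i : ℕ) : ℂ) := by
      intro i
      simp only [hβ]
      push_cast
      ring
    rw [Finset.sum_congr rfl fun i _ => h1 i, ← Finset.mul_sum, ← Nat.cast_sum, ← hd, hα, neg_neg,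
      div_mul_cancel₀ _ hdC]
  have hgh' : (C (b.eval α) * g).IsHomogeneous k := by
    have := (isHomogeneous_C (Fin n) (b.eval α)).mul hgh
    rwa [zero_add] at this
  have hJ := cay1 f D β r hf hD hβ0 m hm α (fun i _ => rfl) N k V d hd hV (C (b.eval α) * g) hgh'
    F hF hid
  have hA : ∀ l, br β r (fun i => N * m i) (V l) ∈ sp (Wg n D r ((k : ℤ) + 1)) := by
    intro l
    refine br_Wg D β r _ (d * N + k + 1) _ (hV l) _ ?_
    rw [hd]
    push_cast
    rw [Finset.sum_mul]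
    have : ∑ i ∈ Finset.range (r + 1), (N : ℤ) * (m i) * (D i) =
        ∑ i ∈ Finset.range (r + 1), (m i : ℤ) * (D i) * N :=
      Finset.sum_congr rfl fun i _ => by ring
    rw [this]
    ring
  obtain ⟨K, v, hv, hgv⟩ := cay2 f D β r hf hD k hsum _ _ hA hJ
  obtain ⟨u, hu, h1, h2⟩ := reduce f D β hf hD r hNC (k : ℤ) (by omega) _
    (inc_GG D r k _ hgh') K v hv hgv
  have h3 := alg f D hf hD r hNC hn k hk β _ u hu h1 h2
  rcases mul_eq_zero.1 h3 with h4 | h4
  · exact hb0 (C_injective (Fin n) ℂ (by rw [h4, C_0]))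
  · exact hg0 h4

end Pool.Agent.U841.SN
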