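import Pool.Agent.U841.SN.Root
import Pool.Agent.U841.SN.Exp

set_option autoImplicit false

/-! # The root `-n/d` from an identity for the initial form -/

namespace Pool.Agent.U841.SN

open MvPolynomial Pool.Agent.H628R4.TP Pool.Agent.N127.PB

variable {n : ℕ}

/-- hyperplanes in general position -/
theorem star (f : ℕ → MvPolynomial (Fin n) ℂ) (r : ℕ) (hf : ∀ i, i ≤ r → (f i).IsHomogeneous 1)
    (hNC : NC f r) (S : Finset ℕ) (hS : ∀ t ∈ S, t ≤ r) (hc : S.card = n) (x : Fin n → ℂ)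
    (hx : ∀ t ∈ S, eval x (f t) = 0) : x = 0 := by
  classical
  by_contra hx0
  have h0 : ∀ t : S, ∃ a : Fin n → ℂ, (∀ l, pderiv l (f t) = C (a l)) ∧
      ∀ x, eval x (f t) = ∑ l, x l * a l := fun t => hom_one (hf t (hS t t.2))
  choose a ha1 ha2 using h0
  have hli : LinearIndependent ℂ a := by
    rw [Fintype.linearIndependent_iff]
    intro y hy t
    have h1 := hNC x hx0 (fun i => if h : i ∈ S then y ⟨i, h⟩ else 0) (fun i _ => by
      by_cases h : i ∈ S
      · rw [hx i h, mul_zero]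
      · rw [dif_neg h, zero_mul]) (fun j => by
      have h2 : ∀ i ∈ Finset.range (r + 1), i ∉ S →
          (if h : i ∈ S then y ⟨i, h⟩ else 0) * eval x (pderiv j (f i)) = 0 := fun i _ hi => by
        rw [dif_neg hi, zero_mul]
      rw [← Finset.sum_subset (fun i hi => Finset.mem_range.2 (Nat.lt_succ_iff.2 (hS i hi))) h2,
        ← Finset.sum_coe_sort]
      have h3 := congrFun hy j
      rw [Finset.sum_apply, Pi.zero_apply] at h3
      rw [← h3]
      refine Finset.sum_congr rfl fun i _ => ?_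
      rw [dif_pos i.2, ha1, eval_C, Pi.smul_apply, smul_eq_mul]) t (hS t t.2)
    rwa [dif_pos t.2] at h1
  have hspan : Submodule.span ℂ (Set.range a) = ⊤ :=
    hli.span_eq_top_of_card_eq_finrank' (by
      rw [Fintype.card_coe, hc, Module.finrank_fintype_fun_eq_card, Fintype.card_fin])
  apply hx0
  let φ : (Fin n → ℂ) →ₗ[ℂ] ℂ :=
    { toFun := fun v => ∑ l, x l * v l
      map_add' := fun v w => by
        simp only [Pi.add_apply, mul_add, Finset.sum_add_distrib]
      map_smul' := fun c v => by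
        simp only [Pi.smul_apply, smul_eq_mul, RingHom.id_apply, Finset.mul_sum]
        exact Finset.sum_congr rfl fun l _ => by ring }
  have hφ : Submodule.span ℂ (Set.range a) ≤ LinearMap.ker φ := by
    rw [Submodule.span_le]
    rintro _ ⟨t, rfl⟩
    change ∑ l, x l * a t l = 0
    rw [← ha2]
    exact hx t t.2
  funext l
  have h2 : (Pi.single l 1 : Fin n → ℂ) ∈ LinearMap.ker φ := hφ (by rw [hspan]; trivial)
  have h3 : ∑ m, x m * (Pi.single l 1 : Fin n → ℂ) m = 0 := h2
  rw [Finset.sum_eq_single l] at h3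
  · rwa [Pi.single_eq_same, mul_one] at h3
  · intro m _ hm
    rw [Pi.single_eq_of_ne hm, mul_zero]
  · intro h
    exact absurd (Finset.mem_univ _) h

/-- a point on `n - 1` hyperplanes -/
theorem exists_pt (f : ℕ → MvPolynomial (Fin n) ℂ) (r : ℕ)
    (hf : ∀ i, i ≤ r → (f i).IsHomogeneous 1) (S : Finset ℕ) (hS : ∀ t ∈ S, t ≤ r)
    (hc : S.card < n) : ∃ x : Fin n → ℂ, x ≠ 0 ∧ ∀ t ∈ S, eval x (f t) = 0 := by
  classical
  have h0 : ∀ t : S, ∃ a : Fin n → ℂ, (∀ l, pderiv l (f t) = C (a l)) ∧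
      ∀ x, eval x (f t) = ∑ l, x l * a l := fun t => hom_one (hf t (hS t t.2))
  choose a _ ha2 using h0
  let φ : (Fin n → ℂ) →ₗ[ℂ] (S → ℂ) :=
    { toFun := fun v t => ∑ l, v l * a t l
      map_add' := fun v w => by
        funext t
        simp only [Pi.add_apply, add_mul, Finset.sum_add_distrib]
      map_smul' := fun c v => by
        funext t
        simp only [Pi.smul_apply, smul_eq_mul, RingHom.id_apply, Finset.mul_sum, mul_assoc] }
  have h1 : LinearMap.ker φ ≠ ⊥ := LinearMap.ker_ne_bot_of_finrank_lt (by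
    rw [Module.finrank_fintype_fun_eq_card, Module.finrank_fintype_fun_eq_card, Fintype.card_fin,
      Fintype.card_coe]
    exact hc)
  obtain ⟨x, hx, hx0⟩ := (Submodule.ne_bot_iff _).1 h1
  refine ⟨x, hx0, fun t ht => ?_⟩
  have h2 := congrFun (LinearMap.mem_ker.1 hx) ⟨t, ht⟩
  rw [ha2 ⟨t, ht⟩]
  exact h2

/-- **The reduced equations for hyperplanes in general position.** -/
theorem alg2 (f : ℕ → MvPolynomial (Fin n) ℂ) (D : ℕ → ℕ) (hf : ∀ i, (f i).IsHomogeneous (D i))
    (r : ℕ) (hNC : NC f r) (hn : 2 ≤ n) (h1D : ∀ i, i ≤ r → D i = 1)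
    (hr : n ≤ r) (β : ℕ → ℂ) (g : MvPolynomial (Fin n) ℂ) (u : ℕ → MvPolynomial (Fin n) ℂ)
    (hu : ∀ l, l < n + r → ∀ m, coeff m (u l) ≠ 0 → (m.degree : ℤ) = ((0 : ℕ) : ℤ) - (eF n l).1)
    (h1 : ∀ i, i ≤ r → ∑ l : Fin n, u l * pderiv l (f i) +
        (if 1 ≤ i then f i * u (n + (i - 1)) else 0) = 0)
    (h2 : ∑ l : Fin n, pderiv l (u l) + ∑ i ∈ Finset.range r, C (β (i + 1)) * u (n + i) = g) :
    g = 0 := by
  classical
  have hf1 : ∀ i, i ≤ r → (f i).IsHomogeneous 1 := fun i hi => by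
    have h := hf i
    rwa [h1D i hi] at h
  have hu2 : ∀ j, j < r → (u (n + j)).IsHomogeneous 0 := by
    intro j hj m hm
    have h3 := hu (n + j) (by omega) m hm
    rw [eF_ge (by omega)] at h3
    have h4 : (m.degree : ℤ) = ((0 : ℕ) : ℤ) - 0 := h3
    have h5 : m.degree = 0 := by omega
    rw [Finsupp.degree_eq_weight_one] at h5
    exact h5
  have hMx : ∀ (x : Fin n → ℂ) (i : ℕ), i ≤ r → eval (fun l : Fin n => eval x (u l)) (f i) =
      -(if 1 ≤ i then eval x (f i) * eval x (u (n + (i - 1))) else 0) := by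
    intro x i hi
    obtain ⟨a, ha1, ha2⟩ := hom_one (hf1 i hi)
    have h3 := congrArg (eval x) (h1 i hi)
    rw [map_add, map_sum, map_zero] at h3
    rw [ha2]
    have h4 : ∑ l : Fin n, eval x (u l * pderiv l (f i)) = ∑ l : Fin n, eval x (u l) * a l :=
      Finset.sum_congr rfl fun l _ => by rw [map_mul, ha1, eval_C]
    rw [h4] at h3
    rw [eq_neg_of_add_eq_zero_left h3]
    congr 1
    split_ifs
    · rw [map_mul]
    · rw [map_zero]
  have hc : ∀ j, j < r → u (n + j) = 0 := by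
    intro j hj
    obtain ⟨c, hc⟩ := hom_zero (hu2 j hj)
    rw [hc]
    suffices hc0 : c = 0 by rw [hc0, C_0]
    obtain ⟨S, hS, hSc⟩ := Finset.exists_subset_card_eq
      (s := (Finset.range (r + 1)).erase 0 |>.erase (j + 1)) (n := n - 1) (by
        rw [Finset.card_erase_of_mem (Finset.mem_erase.2 ⟨by omega, Finset.mem_range.2 (by omega)⟩),
          Finset.card_erase_of_mem (Finset.mem_range.2 (by omega)), Finset.card_range]
        omega)
    have hS1 : ∀ t ∈ S, t ≤ r ∧ t ≠ 0 ∧ t ≠ j + 1 := by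
      intro t ht
      have h := hS ht
      rw [Finset.mem_erase, Finset.mem_erase, Finset.mem_range] at h
      exact ⟨by omega, h.2.1, h.1⟩
    obtain ⟨x, hx0, hx⟩ := exists_pt f r hf1 S (fun t ht => (hS1 t ht).1) (by omega)
    have hy : (fun l : Fin n => eval x (u l)) = 0 := by
      refine star f r hf1 hNC (insert 0 S) (fun t ht => ?_) ?_ _ fun t ht => ?_
      · rcases Finset.mem_insert.1 ht with h | h
        · omega
        · exact (hS1 t h).1
      · rw [Finset.card_insert_of_notMem (fun h => (hS1 0 h).2.1 rfl), hSc]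
        omega
      · rcases Finset.mem_insert.1 ht with h | h
        · rw [h, hMx x 0 (Nat.zero_le _), if_neg (by norm_num), neg_zero]
        · rw [hMx x t (hS1 t h).1, hx t h, zero_mul]
          split_ifs <;> exact neg_zero
    have h3 := hMx x (j + 1) (by omega)
    rw [hy, if_pos (by omega), Nat.add_sub_cancel, hc, eval_C] at h3
    obtain ⟨a, -, ha2⟩ := hom_one (hf1 (j + 1) (by omega))
    have h4 : eval (0 : Fin n → ℂ) (f (j + 1)) = 0 := by
      rw [ha2]
      simp
    rw [h4, eq_comm, neg_eq_zero] at h3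
    refine (mul_eq_zero.1 h3).resolve_left fun h5 => hx0 ?_
    refine star f r hf1 hNC (insert (j + 1) S) (fun t ht => ?_) ?_ _ fun t ht => ?_
    · rcases Finset.mem_insert.1 ht with h | h
      · omega
      · exact (hS1 t h).1
    · rw [Finset.card_insert_of_notMem (fun h => (hS1 _ h).2.2 rfl), hSc]
      omega
    · rcases Finset.mem_insert.1 ht with h | h
      · rw [h, h5]
      · exact hx t h
  have hul : ∀ l : Fin n, u l = 0 := by
    intro l
    refine MvPolynomial.funext fun x => ?_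
    rw [map_zero]
    have hy : (fun l : Fin n => eval x (u l)) = 0 := by
      refine star f r hf1 hNC (Finset.range n) (fun t ht => ?_) (Finset.card_range n) _
        fun t ht => ?_
      · rw [Finset.mem_range] at ht
        omega
      · rw [Finset.mem_range] at ht
        rw [hMx x t (by omega)]
        split_ifs with h
        · rw [hc (t - 1) (by omega), map_zero, mul_zero, neg_zero]
        · exact neg_zero
    exact congrFun hy l
  rw [← h2]
  have h3 : ∑ l : Fin n, pderiv l (u l) = 0 :=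
    Finset.sum_eq_zero fun l _ => by rw [hul, map_zero]
  have h4 : ∑ i ∈ Finset.range r, C (β (i + 1)) * u (n + i) = 0 :=
    Finset.sum_eq_zero fun i hi => by rw [hc i (Finset.mem_range.1 hi), mul_zero]
  rw [h3, h4, add_zero]

/-- **From the identity at `s = -n/d` to a contradiction.** -/
theorem root_id (f : ℕ → MvPolynomial (Fin n) ℂ) (D : ℕ → ℕ)
    (hf : ∀ i, (f i).IsHomogeneous (D i)) (hD : ∀ i, 0 < D i) (r : ℕ) (hNC : NC f r) (hn : 2 ≤ n)
    (hk : 2 ≤ D 0 ∨ ((∀ i, i ≤ r → D i = 1) ∧ n ≤ r)) (m : ℕ → ℕ) (hm : ∀ i, i ≤ r → 1 ≤ m i)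
    (G : MvPolynomial (Fin n) ℂ) (hG : G = ∏ i ∈ Finset.range (r + 1), f i ^ m i)
    (d : ℕ) (hd : d = ∑ i ∈ Finset.range (r + 1), m i * D i) (c : ℂ) (N : ℕ)
    (V : Fin n → MvPolynomial (Fin n) ℂ) (hV : ∀ l, (V l).IsHomogeneous (d * N + 1))
    (hid : G * ∑ l, pderiv l (V l) + C (-((n : ℂ) / d) - N) * ∑ l, V l * pderiv l G =
      G ^ (N + 1) * C c) : c = 0 := by
  classical
  have hdpos : 0 < d := by
    rw [hd]
    refine Finset.sum_pos (fun i hi => ?_) ⟨0, Finset.mem_range.2 (Nat.succ_pos r)⟩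
    rw [Finset.mem_range] at hi
    exact Nat.mul_pos (hm i (by omega)) (hD i)
  have hdC : (d : ℂ) ≠ 0 := Nat.cast_ne_zero.2 hdpos.ne'
  set α : ℂ := -((n : ℂ) / d) with hα
  set β : ℕ → ℂ := fun i => -α * m i with hβ
  have hβe : ∀ i, β i = ((n : ℝ) / d * m i : ℝ) := by
    intro i
    simp only [hβ, hα]
    push_cast
    ring
  have hβ0 : ∀ i, i ≤ r → ∀ j : ℕ, (j : ℂ) + β i ≠ 0 := by
    intro i hi j h0
    rw [hβe] at h0
    have h1 : (j : ℝ) + (n : ℝ) / d * m i = 0 := by exact_mod_cast h0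
    have h2 : (0 : ℝ) < (n : ℝ) / d * m i := by
      have h3 : (0 : ℝ) < m i := by exact_mod_cast hm i hi
      have h4 : (0 : ℝ) < d := by exact_mod_cast hdpos
      have h5 : (0 : ℝ) < n := by exact_mod_cast (by omega : 0 < n)
      positivity
    have h3 : (0 : ℝ) ≤ j := Nat.cast_nonneg j
    linarith
  have hsum : (n : ℂ) + (0 : ℕ) = ∑ i ∈ Finset.range (r + 1), (D i : ℂ) * β i := by
    have h1 : ∀ i, (D i : ℂ) * β i = -α * ((m i * D i : ℕ) : ℂ) := by
      intro i
      simp only [hβ]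
      push_cast
      ring
    rw [Finset.sum_congr rfl fun i _ => h1 i, ← Finset.mul_sum, ← Nat.cast_sum, ← hd, hα, neg_neg,
      div_mul_cancel₀ _ hdC, Nat.cast_zero, add_zero]
  have hgh' : (C c : MvPolynomial (Fin n) ℂ).IsHomogeneous 0 := isHomogeneous_C _ _
  have hJ := cay1 f D β r hf hD hβ0 m hm α (fun i _ => rfl) N 0 V d hd hV (C c) hgh'
    G hG hid
  have hA : ∀ l, br β r (fun i => N * m i) (V l) ∈ sp (Wg n D r (((0 : ℕ) : ℤ) + 1)) := by
    intro l
    refine br_Wg D β r _ (d * N + 0 + 1) _ (hV l) _ ?_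
    rw [hd]
    push_cast
    rw [Finset.sum_mul]
    have : ∑ i ∈ Finset.range (r + 1), (N : ℤ) * (m i) * (D i) =
        ∑ i ∈ Finset.range (r + 1), (m i : ℤ) * (D i) * N :=
      Finset.sum_congr rfl fun i _ => by ring
    rw [this]
    ring
  obtain ⟨K, v, hv, hgv⟩ := cay2 f D β r hf hD 0 hsum _ _ hA hJ
  obtain ⟨u, hu, h1, h2⟩ := reduce f D β hf hD r hNC ((0 : ℕ) : ℤ) (by omega) _
    (inc_GG D r 0 _ hgh') K v hv hgv
  have h4 : (C c : MvPolynomial (Fin n) ℂ) = 0 := by
    rcases hk with hk | ⟨hk, hr⟩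
    · exact alg f D hf hD r hNC hn 0 (Or.inl ⟨rfl, hk⟩) β _ u hu h1 h2
    · exact alg2 f D hf r hNC hn hk hr β _ u hu h1 h2
  exact C_injective (Fin n) ℂ (by rw [h4, C_0])

end Pool.Agent.U841.SN
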