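import Pool.Agent.U841.SN.Strict2
import Pool.Agent.U841.SN.Defs2

set_option autoImplicit false

/-! # Points with normal crossings of the tangent cones -/

namespace Pool.Agent.U841.SN

open MvPolynomial Pool.Agent.H628R4.TP

section

variable {σ : Type}

theorem shiftP_X (p : σ → ℂ) (i : σ) : shiftP p (X i) = X i + C (p i) := by
  rw [shiftP, aeval_X]

theorem shiftP_C (p : σ → ℂ) (c : ℂ) : shiftP p (C c) = C c := by
  rw [shiftP, aeval_C]
  rfl

theorem shiftP_shiftP (p q : σ → ℂ) (F : MvPolynomial σ ℂ) :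
    shiftP p (shiftP q F) = shiftP (p + q) F := by
  have h : (shiftP p).comp (shiftP q) = shiftP (p + q) := by
    refine algHom_ext fun i => ?_
    rw [AlgHom.comp_apply, shiftP_X, map_add, shiftP_X, shiftP_C, shiftP_X, Pi.add_apply, C_add]
    ring
  exact congrArg (fun φ => φ F) h

theorem shiftP_zero (F : MvPolynomial σ ℂ) : shiftP 0 F = F := by
  have h : shiftP (0 : σ → ℂ) = AlgHom.id ℂ (MvPolynomial σ ℂ) := by
    refine algHom_ext fun i => ?_
    rw [shiftP_X, Pi.zero_apply, C_0, add_zero]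
    rfl
  rw [h]
  rfl

theorem shiftP_neg (p : σ → ℂ) (F : MvPolynomial σ ℂ) : shiftP (-p) (shiftP p F) = F := by
  rw [shiftP_shiftP, neg_add_cancel, shiftP_zero]

theorem shiftP_inj (p : σ → ℂ) : Function.Injective (shiftP p) := by
  intro F G h
  rw [← shiftP_neg p F, h, shiftP_neg]

theorem eval_shiftP (p x : σ → ℂ) (F : MvPolynomial σ ℂ) :
    eval x (shiftP p F) = eval (x + p) F := by
  have h : (eval x).comp (shiftP p : MvPolynomial σ ℂ →+* MvPolynomial σ ℂ) = eval (x + p) := by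
    refine ringHom_ext (fun c => ?_) fun i => ?_
    · change eval x (shiftP p (C c)) = _
      rw [shiftP_C, eval_C, eval_C]
    · change eval x (shiftP p (X i)) = _
      rw [shiftP_X, map_add, eval_X, eval_C, eval_X, Pi.add_apply]
  exact congrArg (fun φ => φ F) h

theorem cc_shiftP (p : σ → ℂ) (F : MvPolynomial σ ℂ) : constantCoeff (shiftP p F) = eval p F := by
  have h := eval_shiftP p 0 F
  rw [zero_add, eval_zero] at h
  exact h

theorem pderiv_shiftP (p : σ → ℂ) (i : σ) (F : MvPolynomial σ ℂ) :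
    pderiv i (shiftP p F) = shiftP p (pderiv i F) := by
  classical
  induction F using MvPolynomial.induction_on with
  | C c => rw [shiftP_C, pderiv_C, map_zero]
  | add F G hF hG => rw [map_add, map_add, hF, hG, map_add, map_add]
  | mul_X F j hF =>
    rw [map_mul, shiftP_X, Derivation.leibniz, Derivation.leibniz, hF, map_add, map_add, pderiv_C,
      pderiv_X, smul_eq_mul, smul_eq_mul, smul_eq_mul, smul_eq_mul, map_mul, map_mul, shiftP_X,
      add_zero]
    congr 2
    rw [Pi.single_apply, apply_ite (shiftP p), map_one, map_zero]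

/-- the operator in the coordinates `x + p` -/
noncomputable def conjP (p : σ → ℂ) (u : Module.End ℂ (MvPolynomial σ ℂ)) :
    Module.End ℂ (MvPolynomial σ ℂ) :=
  (shiftP p).toLinearMap ∘ₗ u ∘ₗ (shiftP (-p)).toLinearMap

theorem conjP_def (p : σ → ℂ) (u : Module.End ℂ (MvPolynomial σ ℂ)) (F : MvPolynomial σ ℂ) :
    conjP p u F = shiftP p (u (shiftP (-p) F)) := rfl

theorem conjP_apply (p : σ → ℂ) (u : Module.End ℂ (MvPolynomial σ ℂ)) (F : MvPolynomial σ ℂ) :
    conjP p u (shiftP p F) = shiftP p (u F) := by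
  rw [conjP_def, shiftP_neg]

theorem conjP_X (p : σ → ℂ) (i : σ) : conjP p (LinearMap.mulLeft ℂ (X i : MvPolynomial σ ℂ)) =
    LinearMap.mulLeft ℂ (X i : MvPolynomial σ ℂ) +
      algebraMap ℂ (Module.End ℂ (MvPolynomial σ ℂ)) (p i) := by
  refine LinearMap.ext fun F => ?_
  rw [conjP_def, LinearMap.mulLeft_apply, LinearMap.add_apply, LinearMap.mulLeft_apply,
    Module.algebraMap_end_apply, map_mul, shiftP_X, shiftP_shiftP, add_neg_cancel, shiftP_zero,
    smul_eq_C_mul, add_mul]

theorem conjP_d (p : σ → ℂ) (i : σ) :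
    conjP p ((pderiv i : Derivation ℂ (MvPolynomial σ ℂ) (MvPolynomial σ ℂ)) :
          MvPolynomial σ ℂ →ₗ[ℂ] MvPolynomial σ ℂ) =
          ((pderiv i : Derivation ℂ (MvPolynomial σ ℂ) (MvPolynomial σ ℂ)) :
          MvPolynomial σ ℂ →ₗ[ℂ] MvPolynomial σ ℂ) := by
  refine LinearMap.ext fun F => ?_
  rw [conjP_def]
  have h : pderiv i (shiftP (-p) F) = shiftP (-p) (pderiv i F) := pderiv_shiftP _ _ _
  refine Eq.trans (congrArg (shiftP p) h) ?_
  rw [shiftP_shiftP, add_neg_cancel, shiftP_zero]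
  rfl

theorem conjP_c (p : σ → ℂ) (c : ℂ) :
    conjP p (algebraMap ℂ (Module.End ℂ (MvPolynomial σ ℂ)) c) =
      algebraMap ℂ (Module.End ℂ (MvPolynomial σ ℂ)) c := by
  refine LinearMap.ext fun F => ?_
  rw [conjP_def, Module.algebraMap_end_apply, Module.algebraMap_end_apply, map_smul,
    shiftP_shiftP, add_neg_cancel, shiftP_zero]

theorem conjP_add (p : σ → ℂ) (u v : Module.End ℂ (MvPolynomial σ ℂ)) :
    conjP p (u + v) = conjP p u + conjP p v := by
  refine LinearMap.ext fun F => ?_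
  rw [conjP_def, LinearMap.add_apply, LinearMap.add_apply, conjP_def, conjP_def, map_add]

theorem conjP_mul (p : σ → ℂ) (u v : Module.End ℂ (MvPolynomial σ ℂ)) :
    conjP p (u * v) = conjP p u * conjP p v := by
  refine LinearMap.ext fun F => ?_
  rw [conjP_def, Module.End.mul_apply, Module.End.mul_apply, conjP_def, conjP_def, shiftP_neg]

theorem conjP_mem (p : σ → ℂ) (u : Module.End ℂ (MvPolynomial σ ℂ)) (hu : u ∈ weylS σ) :
    conjP p u ∈ weylS σ := by
  induction hu using Algebra.adjoin_induction with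
  | mem u hu =>
    rcases hu with ⟨i, rfl⟩ | ⟨i, rfl⟩
    · rw [conjP_X]
      exact Subalgebra.add_mem _ (Algebra.subset_adjoin (Or.inl ⟨i, rfl⟩))
        (Subalgebra.algebraMap_mem _ _)
    · have h := conjP_d p i
      rw [h]
      exact Algebra.subset_adjoin (Or.inr ⟨i, rfl⟩)
  | algebraMap c =>
    rw [conjP_c]
    exact Subalgebra.algebraMap_mem _ _
  | add u v _ _ hu hv =>
    rw [conjP_add]
    exact Subalgebra.add_mem _ hu hv
  | mul u v _ _ hu hv =>
    rw [conjP_mul]
    exact Subalgebra.mul_mem _ hu hv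

/-- **Functional equations in the coordinates `x + p`.** -/
theorem bfun_shift (p : σ → ℂ) (F : MvPolynomial σ ℂ) (b : Polynomial ℂ) (hb : IsBFunction F b) :
    IsBFunction (shiftP p F) b := by
  classical
  obtain ⟨P, hP⟩ := hb
  refine ⟨P.sum fun m Q => Finsupp.single m ⟨conjP p Q.1, conjP_mem p Q.1 Q.2⟩, fun s => ?_⟩
  have h0 : conjP p (0 : Module.End ℂ (MvPolynomial σ ℂ)) = 0 := by
    refine LinearMap.ext fun F => ?_
    rw [conjP_def, LinearMap.zero_apply, LinearMap.zero_apply, map_zero]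
  let Φ : ℕ → weylS σ → MvPolynomial σ ℂ := fun m Q =>
    ((s : ℂ) ^ m) • (Q : Module.End ℂ (MvPolynomial σ ℂ)) (shiftP p F ^ (s + 1))
  have hz : ∀ m : ℕ, Φ m 0 = 0 := fun m => by
    simp only [Φ, ZeroMemClass.coe_zero, LinearMap.zero_apply, smul_zero]
  have hadd : ∀ (m : ℕ) (Q1 Q2 : weylS σ), Φ m (Q1 + Q2) = Φ m Q1 + Φ m Q2 := fun m Q1 Q2 => by
    simp only [Φ, AddMemClass.coe_add, LinearMap.add_apply, smul_add]
  have h1 := congrArg (shiftP p) (hP s)
  rw [map_mul, shiftP_C, map_pow, Finsupp.sum, map_sum] at h1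
  rw [h1]
  refine Eq.trans ?_ (Finsupp.sum_finsetSum_index (h := Φ) hz hadd)
  refine Finset.sum_congr rfl fun m _ => ?_
  rw [Finsupp.sum_single_index (hz m)]
  simp only [Φ]
  rw [map_smul, ← map_pow, conjP_apply]

/-- the multiplicity and the initial form -/
theorem ordGe_multAt (p : σ → ℂ) (F : MvPolynomial σ ℂ) : OrdGe (multAt p F) (shiftP p F) := by
  intro i hi
  by_contra h
  exact absurd (Nat.sInf_le (show i ∈ {i | homogeneousComponent i (shiftP p F) ≠ 0} from h))
    (by rw [multAt] at hi; omega)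

theorem multAt_pos (p : σ → ℂ) (F : MvPolynomial σ ℂ) (h : initAt p F ≠ 0) (h0 : eval p F = 0) :
    0 < multAt p F :=
  ord_pos h (by rw [cc_shiftP, h0])

theorem multAt_zero (p : σ → ℂ) (F : MvPolynomial σ ℂ) (h0 : eval p F ≠ 0) : multAt p F = 0 := by
  have h : homogeneousComponent 0 (shiftP p F) ≠ 0 := by
    rw [homogeneousComponent_zero, ← constantCoeff_eq, cc_shiftP]
    intro h
    rw [← C_0 (R := ℂ) (σ := σ)] at h
    exact h0 (C_injective _ _ h)
  have := Nat.sInf_le (show 0 ∈ {i | homogeneousComponent i (shiftP p F) ≠ 0} from h)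
  rw [multAt]
  omega

end

end Pool.Agent.U841.SN
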