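import Pool.Agent.U841.SN.Local

set_option autoImplicit false

/-! # The roots of the components, locally at the origin -/

namespace Pool.Agent.U841.SN

open MvPolynomial Pool.Agent.W574.SM Pool.Agent.W574.LM Pool.Agent.H628R4.TP
  Pool.Agent.TH192.DT Pool.Agent.Y231.RF Pool.Agent.R852.SC

section

variable {σ : Type} [Fintype σ] [DecidableEq σ]

omit [Fintype σ] [DecidableEq σ] in
/-- a functional equation for one function -/
theorem locEq_unique {ι : Type} [Fintype ι] [DecidableEq ι] [Unique ι]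
    (f H : MvPolynomial σ ℂ) (b : Polynomial ℂ) (P : ℕ →₀ weylS σ)
    (hP' : ∀ s : ℕ, H * (C (b.eval (s : ℂ)) * f ^ s) = P.sum fun m Q => ((s : ℂ) ^ m) •
      (Q : Module.End ℂ (MvPolynomial σ ℂ)) (f ^ (s + 1))) :
    IsLocEq H (fun _ : ι => f) b := by
  classical
  have hb' : ∃ P : ℕ →₀ weyl σ, ∀ s : ℕ, H * (C (b.eval (s : ℂ)) * f ^ s) =
    P.sum fun m Q => ((s : ℂ) ^ m) • (Q : Module.End ℂ (MvPolynomial σ ℂ)) (f ^ (s + 1)) :=
    ⟨P, hP'⟩
  obtain ⟨P, hP⟩ := hb'
  refine ⟨{fun _ => 1}, fun _ => P.mapDomain (fun m => Finsupp.single default m), ?_, ?_⟩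
  · intro c hc
    rw [Finset.mem_singleton] at hc
    subst hc
    simp
  · intro s
    rw [Finset.sum_singleton]
    simp only [Finset.univ_unique, Finset.sum_singleton, Finset.prod_singleton]
    rw [hP (s default)]
    have h1 : ((if (1 : ℤ) < 0 then (s default).choose (-1 : ℤ).toNat else 1 : ℕ) : ℂ) = 1 := by
      norm_num
    have h2 : ((s default : ℤ) + 1).toNat = s default + 1 := by omega
    rw [h1, h2, map_one, one_mul, applyAt]
    rw [Finsupp.sum_mapDomain_index]
    · refine Finsupp.sum_congr fun m _ => ?_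
      simp only [Finset.univ_unique, Finset.prod_singleton, Finsupp.single_eq_same]
    · intro β
      simp
    · intro β Q1 Q2
      simp [smul_add]

/-- **The roots at a smooth point of a component.** -/
theorem smooth_rootH (F q v H : MvPolynomial σ ℂ) (M : ℕ) (hF : F = q ^ M * v) (p : σ → ℂ)
    (hq : eval p q = 0) (s : σ) (hs : eval p (pderiv s q) ≠ 0) (hv : eval p v ≠ 0)
    (hH : eval p H ≠ 0) (b : Polynomial ℂ) (P : ℕ →₀ weylS σ)
    (hP : ∀ s : ℕ, H * (C (b.eval (s : ℂ)) * F ^ s) = P.sum fun m Q => ((s : ℂ) ^ m) •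
      (Q : Module.End ℂ (MvPolynomial σ ℂ)) (F ^ (s + 1))) (l : ℕ) (hl : l < M) :
    b.eval (-((l : ℂ) + 1) / M) = 0 := by
  classical
  have hM : 0 < M := by omega
  set a : Bool → ℕ := fun t => if t then 0 else 1 with ha
  have hPS := powersOfSmooth_two F q v M hF p hq s hs hv
  obtain ⟨E, hk, hm, hR, hc⟩ := smooth_chart (two q F) 1 (fun t => if t then 1 else M) p
    hPS (fun t => a t ≠ 0) ⟨false, one_ne_zero, hM⟩
  have hk0 : E.k = 0 := by omega
  have hmul : E.mul a = M := by
    rw [Chart.mul, hm, Fintype.sum_bool]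
    simp [ha]
  have hb' : IsLocEq H (prodFam fun q' : Σ t, Fin (a t) => two q F q'.1) b := by
    have h1 : (prodFam fun q' : Σ t, Fin (a t) => two q F q'.1) = fun _ => F := by
      funext j
      rw [prodFam]
      have h2 : ∀ q' : Σ t, Fin (a t), two q F q'.1 (j q') = two q F q'.1 () := fun _ => rfl
      rw [Finset.prod_congr rfl fun q' _ => h2 q', Fintype.prod_sigma, Fintype.prod_bool]
      simp [ha, two]
    rw [h1]
    exact locEq_unique F H b P hP
  obtain ⟨w, hwU, hw⟩ := E.attained true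
  rw [hm] at hw
  change aeval E.ξ q = MvPowerSeries.X E.z ^ 1 * w at hw
  rw [pow_one] at hw
  have h := rees_prod a (two q F) b H hb' E hR
    (hc H hH) l (by rw [hmul]; exact hl) (q ^ l)
    ⟨w ^ l, by rw [map_pow]; exact pow_ne_zero _ hwU, by rw [map_pow, hw, mul_pow]⟩
  rw [hmul, hk0, Nat.cast_zero, zero_add, add_comm (1 : ℂ)] at h
  exact h

end

section

variable {σ : Type}

/-- the order of a polynomial at the origin -/
theorem exists_ord (q : MvPolynomial σ ℂ) (hq : q ≠ 0) :
    ∃ e, OrdGe e q ∧ homogeneousComponent e q ≠ 0 := by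
  classical
  have h : ∃ e, homogeneousComponent e q ≠ 0 := by
    by_contra h
    push Not at h
    apply hq
    rw [← sum_homogeneousComponent q]
    exact Finset.sum_eq_zero fun i _ => h i
  exact ⟨Nat.find h, fun i hi => not_not.1 (Nat.find_min h hi), Nat.find_spec h⟩

theorem ord_unique {q : MvPolynomial σ ℂ} {e e' : ℕ} (h1 : OrdGe e q)
    (h2 : homogeneousComponent e q ≠ 0) (h1' : OrdGe e' q) (h2' : homogeneousComponent e' q ≠ 0) :
    e = e' := by
  rcases lt_trichotomy e e' with h | h | h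
  · exact absurd (h1' e h) h2
  · exact h
  · exact absurd (h1 e' h) h2'

theorem ord_pos {q : MvPolynomial σ ℂ} {e : ℕ} (h2 : homogeneousComponent e q ≠ 0)
    (h0 : constantCoeff q = 0) : 0 < e := by
  rcases Nat.eq_zero_or_pos e with h | h
  · exfalso
    apply h2
    rw [h, homogeneousComponent_zero]
    rw [constantCoeff_eq] at h0
    rw [h0, C_0]
  · exact h

theorem ordGe_dvd {q r : MvPolynomial σ ℂ} {e : ℕ} (h : OrdGe e q) (hd : q ∣ r) : OrdGe e r := by
  obtain ⟨s, rfl⟩ := hd
  have := (h.mul (q := s) (e := 0) (fun i hi => absurd hi (Nat.not_lt_zero i))).1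
  rwa [add_zero] at this

/-- a polynomial which vanishes at the origin does not divide all its derivatives -/
theorem exists_not_dvd [Fintype σ] (q : MvPolynomial σ ℂ) (hq : q ≠ 0)
    (h0 : constantCoeff q = 0) : ∃ j, ¬ q ∣ pderiv j q := by
  classical
  obtain ⟨e, h1, h2⟩ := exists_ord q hq
  have he := ord_pos h2 h0
  by_contra hcon
  push Not at hcon
  have h3 : ∀ j, pderiv j (homogeneousComponent e q) = 0 := by
    intro j
    have h4 := ordGe_dvd h1 (hcon j) (e - 1) (by omega)
    rw [Pool.Agent.U184.hc_pderiv, show e - 1 + 1 = e by omega] at h4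
    exact h4
  have h5 := (homogeneousComponent_isHomogeneous e q).sum_X_mul_pderiv
  rw [Finset.sum_eq_zero fun j _ => by rw [h3, mul_zero], eq_comm, nsmul_eq_mul] at h5
  rcases mul_eq_zero.1 h5 with h6 | h6
  · have : (e : MvPolynomial σ ℂ) ≠ 0 := Nat.cast_ne_zero.2 he.ne'
    exact this h6
  · exact h2 h6

end

variable {n : ℕ}

/-- **The roots of a prime factor through the origin.** -/
theorem prime_root (F q v : MvPolynomial (Fin n) ℂ) (M : ℕ) (hF : F = q ^ M * v)
    (hq : Prime q) (h0 : constantCoeff q = 0) (hv : ¬ q ∣ v) (b : Polynomial ℂ)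
    (hb : AlgLoc F b) (l : ℕ) (hl : l < M) : b.eval (-((l : ℂ) + 1) / M) = 0 := by
  classical
  obtain ⟨H, P, hH, hP⟩ := hb
  obtain ⟨j, hj⟩ := exists_not_dvd q hq.ne_zero h0
  have hqH : ¬ q ∣ H := by
    rintro ⟨r, hr⟩
    apply hH
    rw [hr, map_mul, h0, zero_mul]
  have h1 : ¬ q ∣ H * v * pderiv j q := by
    intro h
    rcases hq.dvd_or_dvd h with h | h
    · rcases hq.dvd_or_dvd h with h | h
      · exact hqH h
      · exact hv h
    · exact hj h
  obtain ⟨p, hp, hp2⟩ : ∃ p, eval p q = 0 ∧ eval p (H * v * pderiv j q) ≠ 0 := by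
    by_contra hcon
    push Not at hcon
    exact h1 (null q _ hq hcon)
  rw [map_mul, map_mul] at hp2
  have hp3 := mul_ne_zero_iff.1 hp2
  have hp4 := mul_ne_zero_iff.1 hp3.1
  exact smooth_rootH F q v H M hF p hp j hp3.2 hp4.2 hp4.1 b P hP l hl

/-- a prime polynomial in at least two variables has a zero away from the origin -/
theorem exists_zero (hn : 2 ≤ n) (q : MvPolynomial (Fin n) ℂ) (hq : Prime q) :
    ∃ p : Fin n → ℂ, p ≠ 0 ∧ eval p q = 0 := by
  by_contra h3
  push Not at h3
  refine dvd_vars hn q hq fun i => null q _ hq fun x hx => ?_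
  have hx0 : x = 0 := by
    by_contra h4
    exact h3 x h4 hx
  rw [eval_X, hx0, Pi.zero_apply]

/-- a form of positive degree in at least two variables has a zero away from the origin -/
theorem exists_zero_form (hn : 2 ≤ n) (q : MvPolynomial (Fin n) ℂ) (e : ℕ)
    (hq : q.IsHomogeneous e) (he : 0 < e) (hq0 : q ≠ 0) :
    ∃ p : Fin n → ℂ, p ≠ 0 ∧ eval p q = 0 := by
  have hfu : ¬ IsUnit q := by
    intro h
    have h1 := h.map (eval (0 : Fin n → ℂ))
    have h2 : eval (0 : Fin n → ℂ) q = 0 := by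
      rw [eval_zero, constantCoeff_eq]
      by_contra h3
      have h4 := hq h3
      rw [map_zero] at h4
      omega
    rw [h2] at h1
    exact not_isUnit_zero h1
  obtain ⟨q', hqi, r, hr⟩ := WfDvdMonoid.exists_irreducible_factor hfu hq0
  obtain ⟨p, hp0, hp⟩ := exists_zero hn q' hqi.prime
  exact ⟨p, hp0, by rw [hr, map_mul, hp, zero_mul]⟩

section

variable {T : Type} [Fintype T]

/-- a common factor of two of the forms has no zero away from the origin -/
theorem no_common {g : T → MvPolynomial (Fin n) ℂ} (hNC : NormalCrossings g) (t s : T)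
    (hst : s ≠ t) (q : MvPolynomial (Fin n) ℂ) (ht : q ∣ g t) (hs : q ∣ g s) (p : Fin n → ℂ)
    (hp0 : p ≠ 0) (hp : eval p q = 0) : False := by
  classical
  obtain ⟨h, hh⟩ := ht
  obtain ⟨h', hh'⟩ := hs
  have ht0 : eval p (g t) = 0 := by rw [hh, map_mul, hp, zero_mul]
  have hs0 : eval p (g s) = 0 := by rw [hh', map_mul, hp, zero_mul]
  have hgt : ∀ j, eval p (pderiv j (g t)) = eval p h * eval p (pderiv j q) := by
    intro j
    rw [hh, Derivation.leibniz, map_add, smul_eq_mul, smul_eq_mul, map_mul, map_mul, hp,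
      zero_mul, zero_add]
  have hgs : ∀ j, eval p (pderiv j (g s)) = eval p h' * eval p (pderiv j q) := by
    intro j
    rw [hh', Derivation.leibniz, map_add, smul_eq_mul, smul_eq_mul, map_mul, map_mul, hp,
      zero_mul, zero_add]
  have h5 := Fintype.linearIndependent_iff.1 (hNC p hp0)
    (fun r => if r = ⟨t, ht0⟩ then eval p h' else if r = ⟨s, hs0⟩ then -eval p h else 0) (by
      rw [Finset.sum_eq_add_of_mem ⟨t, ht0⟩ ⟨s, hs0⟩ (Finset.mem_univ _) (Finset.mem_univ _)
        (fun h => hst (Subtype.ext_iff.1 h).symm)]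
      · funext j
        rw [if_pos rfl, if_neg (fun h => hst (Subtype.ext_iff.1 h)), if_pos rfl]
        change eval p h' * eval p (pderiv j (g t)) + -eval p h * eval p (pderiv j (g s)) = 0
        rw [hgt, hgs]
        ring
      · intro r _ hr
        rw [if_neg hr.1, if_neg hr.2, zero_smul]) ⟨s, hs0⟩
  rw [if_neg (fun h => hst (Subtype.ext_iff.1 h)), if_pos rfl, neg_eq_zero] at h5
  obtain ⟨j, hj⟩ := hNC.grad_ne p hp0 t ht0
  rw [hgt, h5, zero_mul] at hj
  exact hj rfl

/-- a multiple factor of one of the forms has no zero away from the origin -/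
theorem no_multiple {g : T → MvPolynomial (Fin n) ℂ} (hNC : NormalCrossings g) (t : T)
    (q : MvPolynomial (Fin n) ℂ) (ht : q * q ∣ g t) (p : Fin n → ℂ)
    (hp0 : p ≠ 0) (hp : eval p q = 0) : False := by
  obtain ⟨h, hh⟩ := ht
  obtain ⟨j, hj⟩ := hNC.grad_ne p hp0 t (by rw [hh, map_mul, map_mul, hp, zero_mul, zero_mul])
  apply hj
  have h1 : pderiv j (g t) = q * (pderiv j (q * h) + h * pderiv j q) := by
    rw [hh, mul_assoc, Derivation.leibniz, smul_eq_mul, smul_eq_mul]
    ring
  rw [h1, map_mul, hp, zero_mul]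

variable (f : T → MvPolynomial (Fin n) ℂ) (δ : T → ℕ)
  (ho : ∀ t, OrdGe (δ t) (f t)) (hδ : ∀ t, 0 < δ t)
  (hNC : NormalCrossings fun t => homogeneousComponent (δ t) (f t))
  (hn : 2 ≤ n)

include ho hδ hNC hn in
/-- **A prime factor of one of the functions only.** -/
theorem cone_prime (t : T) : ∃ q h : MvPolynomial (Fin n) ℂ, f t = q * h ∧ Prime q ∧
    constantCoeff q = 0 ∧ ¬ q ∣ h ∧ ∀ s, s ≠ t → ¬ q ∣ f s := by
  classical
  have hg0 : ∀ t, homogeneousComponent (δ t) (f t) ≠ 0 := fun t => hNC.ne hn t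
  have hf0 : f t ≠ 0 := by
    intro h
    apply hg0 t
    rw [h, map_zero]
  have hfc : ∀ t, constantCoeff (f t) = 0 := by
    intro t
    have h1 := ho t 0 (hδ t)
    rw [homogeneousComponent_zero] at h1
    have h2 : (C (coeff 0 (f t)) : MvPolynomial (Fin n) ℂ) = C 0 := by rw [h1, C_0]
    exact C_injective _ _ h2
  -- an irreducible factor which vanishes at the origin
  obtain ⟨q, hq, hq0, hqt⟩ : ∃ q, Irreducible q ∧ constantCoeff q = 0 ∧ q ∣ f t := by
    have key : ∀ F : MvPolynomial (Fin n) ℂ, F ≠ 0 → constantCoeff F = 0 →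
        ∃ q, Irreducible q ∧ constantCoeff q = 0 ∧ q ∣ F := by
      intro F
      induction F using WfDvdMonoid.induction_on_irreducible with
      | zero => exact fun h => absurd rfl h
      | unit u hu =>
        intro _ h
        have h1 := hu.map (constantCoeff : MvPolynomial (Fin n) ℂ →+* ℂ)
        rw [h] at h1
        exact absurd h1 not_isUnit_zero
      | mul a i ha hi ih =>
        intro _ h
        rw [map_mul] at h
        rcases mul_eq_zero.1 h with h1 | h1
        · exact ⟨i, hi, h1, dvd_mul_right _ _⟩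
        · obtain ⟨q, hq, hq0, hqa⟩ := ih ha h1
          exact ⟨q, hq, hq0, hqa.mul_left _⟩
    exact key (f t) hf0 (hfc t)
  obtain ⟨h, hh⟩ := hqt
  obtain ⟨e, he1, he2⟩ := exists_ord q hq.ne_zero
  have he := ord_pos he2 hq0
  obtain ⟨p, hp0, hp⟩ := exists_zero_form hn (homogeneousComponent e q) e
    (homogeneousComponent_isHomogeneous e q) he he2
  -- the initial forms of multiples
  have hin : ∀ (s : T) (r : MvPolynomial (Fin n) ℂ), f s = q * r → ∃ k, OrdGe k r ∧
      homogeneousComponent (δ s) (f s) =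
        homogeneousComponent e q * homogeneousComponent k r := by
    intro s r hr
    have hr0 : r ≠ 0 := by
      intro h0
      apply hg0 s
      rw [hr, h0, mul_zero, map_zero]
    obtain ⟨k, hk1, hk2⟩ := exists_ord r hr0
    have h1 := he1.mul hk1
    rw [← hr] at h1
    have h2 : δ s = e + k := ord_unique (ho s) (hg0 s) h1.1 (by
      rw [h1.2]
      exact mul_ne_zero he2 hk2)
    exact ⟨k, hk1, by rw [h2, h1.2]⟩
  refine ⟨q, h, hh, hq.prime, hq0, ?_, ?_⟩
  · rintro ⟨h', hh'⟩
    obtain ⟨k, hk1, hk2⟩ := hin t h hh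
    have hh'0 : h' ≠ 0 := by
      intro h0
      apply hf0
      rw [hh, hh', h0, mul_zero, mul_zero]
    obtain ⟨k', hk1', hk2'⟩ := exists_ord h' hh'0
    have h1 := he1.mul hk1'
    rw [← hh'] at h1
    have hk0 : homogeneousComponent k h ≠ 0 := by
      intro h0
      apply hg0 t
      rw [hk2, h0, mul_zero]
    have h2 : k = e + k' := ord_unique hk1 hk0 h1.1 (by
      rw [h1.2]
      exact mul_ne_zero he2 hk2')
    refine no_multiple hNC t (homogeneousComponent e q) ?_ p hp0 hp
    rw [hk2, h2, h1.2]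
    exact ⟨homogeneousComponent k' h', by ring⟩
  · rintro s hs ⟨h', hh'⟩
    obtain ⟨k, _, hk2⟩ := hin t h hh
    obtain ⟨k', _, hk2'⟩ := hin s h' hh'
    exact no_common hNC t s hs (homogeneousComponent e q) ⟨_, hk2⟩ ⟨_, hk2'⟩ p hp0 hp

include ho hδ hNC hn in
/-- **The roots from the components.** -/
theorem loc_str (a : T → ℕ) (U : MvPolynomial (Fin n) ℂ) (hU : constantCoeff U ≠ 0)
    (b : Polynomial ℂ) (hb : AlgLoc (U * prodPow f a) b) (t : T) (l : ℕ)
    (hl : l < a t) : b.eval (-((l : ℂ) + 1) / a t) = 0 := by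
  classical
  obtain ⟨q, h, hh, hq, hq0, hqh, hqs⟩ := cone_prime f δ ho hδ hNC hn t
  have hqU : ¬ q ∣ U := by
    rintro ⟨r, hr⟩
    apply hU
    rw [hr, map_mul, hq0, zero_mul]
  refine prime_root (U * prodPow f a) q (U * (h ^ a t * ∏ r ∈ Finset.univ.erase t, f r ^ a r))
    (a t) ?_ hq hq0 ?_ b hb l hl
  · rw [prodPow, ← Finset.mul_prod_erase _ (fun t => f t ^ a t) (Finset.mem_univ t), hh, mul_pow]
    ring
  · intro hd
    rcases hq.dvd_or_dvd hd with h1 | h1
    · exact hqU h1
    rcases hq.dvd_or_dvd h1 with h2 | h2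
    · exact hqh (hq.dvd_of_dvd_pow h2)
    · obtain ⟨r, hr, h3⟩ := (hq.dvd_finsetProd_iff _).1 h2
      exact hqs r (Finset.mem_erase.1 hr).1 (hq.dvd_of_dvd_pow h3)

end

end Pool.Agent.U841.SN
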