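import Pool.Agent.U841.SN.Pol

set_option autoImplicit false

/-! # Vanishing of the homology of Koszul complexes over `ℂ[x, y]` -/

namespace Pool.Agent.U841.SN

open MvPolynomial

/-- Koszul complexes of homogeneous polynomials `s 0, …, s (N - 1)` in `x` and `y_0, …, y_r`, of
degree `1` in `y`. -/
structure KD (n : ℕ) where
  D : ℕ → ℕ
  r : ℕ
  N : ℕ
  s : ℕ → MvPolynomial (Fin n ⊕ ℕ) ℂ
  e : ℕ → ℤ × ℤ
  hs : ∀ i, i < N → s i ∈ GG D n r (e i)
  he2 : ∀ i, i < N → (e i).2 = 1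
  he1 : ∀ i, i < N → (e i).1 ≤ 0

namespace KD

variable {n : ℕ} (K : KD n)

/-- the differential -/
noncomputable def d : AddMonoid.End (Kos (MvPolynomial (Fin n ⊕ ℕ) ℂ) K.N) :=
  dK (fun i => mE (K.s i)) K.N

/-- the grading -/
noncomputable def F (p : ℤ) (δ : ℤ × ℤ) : AddSubgroup (Kos (MvPolynomial (Fin n ⊕ ℕ) ℂ) K.N) :=
  gr (GG K.D n K.r) K.e K.N p δ

/-- some powers of the `x_j y_i` are in the ideal of the `s l` -/
def BT : Prop := ∀ (j : Fin n) (i : ℕ), i ≤ K.r → ∃ (M : ℕ) (g : ℕ → MvPolynomial (Fin n ⊕ ℕ) ℂ),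
  (∀ l, l < K.N → g l ∈ GG K.D n K.r (M • (W K.D (Sum.inl j : Fin n ⊕ ℕ) + W K.D (Sum.inr i : Fin n ⊕ ℕ)) - K.e l)) ∧
  (X (Sum.inl j) * X (Sum.inr i)) ^ M = ∑ l ∈ Finset.range K.N, K.s l * g l

theorem act_mulE {R : Type} [AddCommGroup R] (n : ℕ) (φ ψ : AddMonoid.End R) :
    act n (φ * ψ) = act n φ * act n ψ := by
  ext1 z
  exact act_mul φ ψ n z

theorem mE_comm (P Q z : MvPolynomial (Fin n ⊕ ℕ) ℂ) : mE P (mE Q z) = mE Q (mE P z) := by
  rw [mE_apply, mE_apply, mE_apply, mE_apply]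
  ring

theorem mE_mul (P Q : MvPolynomial (Fin n ⊕ ℕ) ℂ) : mE (P * Q) = mE P * mE Q := by
  ext1 z
  rw [emul, mE_apply, mE_apply, mE_apply, mul_assoc]

theorem mE_sum {ι : Type} (s : Finset ι) (P : ι → MvPolynomial (Fin n ⊕ ℕ) ℂ) :
    mE (∑ l ∈ s, P l) = ∑ l ∈ s, mE (P l) := by
  classical
  induction s using Finset.induction_on with
  | empty =>
    ext1 z
    rw [Finset.sum_empty, Finset.sum_empty, mE_apply, zero_mul]
    rfl
  | insert a s ha ih =>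
    rw [Finset.sum_insert ha, Finset.sum_insert ha, ← ih]
    ext1 z
    rw [mE_apply, add_mul]
    rfl

theorem mE_pow (P : MvPolynomial (Fin n ⊕ ℕ) ℂ) (m : ℕ) : mE (P ^ m) = mE P ^ m := by
  induction m with
  | zero =>
    ext1 z
    rw [pow_zero, pow_zero, mE_apply, one_mul]
    rfl
  | succ m ih => rw [pow_succ, pow_succ, mE_mul, ih]

theorem d_comm (P : MvPolynomial (Fin n ⊕ ℕ) ℂ) (z : Kos (MvPolynomial (Fin n ⊕ ℕ) ℂ) K.N) :
    K.d (act K.N (mE P) z) = act K.N (mE P) (K.d z) :=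
  d_act _ _ _ (fun _ _ _ => mE_comm _ _ _) z

theorem act_F (P : MvPolynomial (Fin n ⊕ ℕ) ℂ) (ε : ℤ × ℤ) (hP : P ∈ GG K.D n K.r ε) (p : ℤ)
    (δ : ℤ × ℤ) (z : Kos (MvPolynomial (Fin n ⊕ ℕ) ℂ) K.N) (hz : z ∈ K.F p δ) :
    act K.N (mE P) z ∈ K.F p (δ + ε) :=
  act_gr _ _ (fun δ z hz => by
    rw [mE_apply, mul_comm]
    exact GG_mul _ hz hP) _ _ _ _ hz

theorem d_F (p : ℤ) (δ : ℤ × ℤ) (z : Kos (MvPolynomial (Fin n ⊕ ℕ) ℂ) K.N) (hz : z ∈ K.F p δ) :
    K.d z ∈ K.F (p - 1) δ :=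
  d_gr' _ _ (fun i hi δ z hz => by
    rw [mE_apply, mul_comm]
    exact GG_mul _ hz (K.hs i hi)) _ _ _ hz

theorem bt_bound (g : ℕ → MvPolynomial (Fin n ⊕ ℕ) ℂ) (ε : ℤ × ℤ)
    (hg : ∀ l, l < K.N → g l ∈ GG K.D n K.r (ε - K.e l)) (q : ℤ) (δ : ℤ × ℤ)
    (z : Kos (MvPolynomial (Fin n ⊕ ℕ) ℂ) K.N) (hz : z ∈ K.F q δ) (hd : K.d z = 0) :
    ∃ v ∈ K.F (q + 1) (δ + ε), act K.N (mE (∑ l ∈ Finset.range K.N, K.s l * g l)) z = K.d v := by
  refine ⟨∑ l ∈ Finset.range K.N, hK l K.N (act K.N (mE (g l)) z), ?_, ?_⟩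
  · refine sum_mem fun l hl => ?_
    rw [Finset.mem_range] at hl
    have h1 := hK_gr (G := GG K.D n K.r) (e := K.e) l K.N hl q _ _ (K.act_F (g l) _ (hg l hl) q δ z hz)
    have e1 : δ + ε = δ + (ε - K.e l) + K.e l := by abel
    rw [e1]
    exact h1
  · have h1 : mE (∑ l ∈ Finset.range K.N, K.s l * g l) =
        ∑ l ∈ Finset.range K.N, mE (K.s l) * mE (g l) := by
      rw [mE_sum]
      exact Finset.sum_congr rfl fun l _ => mE_mul _ _
    rw [h1, act_sum, map_sum]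
    refine Finset.sum_congr rfl fun l hl => ?_
    rw [Finset.mem_range] at hl
    rw [act_mul, ← homotopy (fun i => mE (K.s i)) l K.N hl]
    have h2 : dK (fun i => mE (K.s i)) K.N (act K.N (mE (g l)) z) = 0 := by
      have h3 := K.d_comm (g l) z
      rw [hd, map_zero] at h3
      exact h3
    rw [h2, map_zero, add_zero]
    rfl

/-- the system for the vanishing lemma -/
noncomputable def sys (n' : ℕ) (v : ℕ → Fin n ⊕ ℕ) (hv : ∀ i, i < n' → Good K.r (v i))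
    (hinj : ∀ i, i < n' → ∀ j, j < i → v j ≠ v i) (u : MvPolynomial (Fin n ⊕ ℕ) ℂ) (εu : ℤ × ℤ)
    (hu : u ∈ GG K.D n K.r εu) (T : Set (ℤ × ℤ))
    (Tadd : ∀ i, i < n' → ∀ δ, δ ∈ T → δ + W K.D (v i) ∈ T)
    (Tsub : ∀ i, i < n' → ∀ δ, δ ∈ T → δ - W K.D (v i) ∈ T)
    (Tu : ∀ δ, δ ∈ T → δ + εu ∈ T)
    (tors : ∀ q δ z, δ ∈ T → z ∈ K.F q δ → K.d z = 0 → ∀ i, i < n' →
      ∃ m : ℕ, ∃ w ∈ K.F (q + 1) (δ + m • (W K.D (v i) + εu)),
        ((act K.N (mE (X (v i))) * act K.N (mE u)) ^ m) z = K.d w) :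
    LSys (Kos (MvPolynomial (Fin n ⊕ ℕ) ℂ) K.N) (ℤ × ℤ) n' where
  d := K.d
  F := K.F
  I := fun i p δ => gr (II K.D K.r v i) K.e K.N p δ
  x := fun i => act K.N (mE (X (v i)))
  u := act K.N (mE u)
  ε := fun i => W K.D (v i)
  εu := εu
  T := T
  dd := fun z => dd _ _ (fun _ _ _ _ _ => mE_comm _ _ _) z
  dF := K.d_F
  dI := fun i p δ z hz => d_gr' _ _ (fun l hl δ z hz => by
    rw [mE_apply, mul_comm]
    exact II_mul _ hz (K.hs l hl)) _ _ _ hz
  xF := fun i hi p δ z hz => K.act_F _ _ (GG_X _ (hv i hi)) _ _ _ hz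
  uF := fun p δ z hz => K.act_F _ _ hu _ _ _ hz
  xI := fun j hj i p δ z hz => act_gr _ _ (fun δ z hz => by
    rw [mE_apply, mul_comm]
    exact II_mul _ hz (GG_X _ (hv j hj))) _ _ _ _ hz
  uI := fun i p δ z hz => act_gr _ _ (fun δ z hz => by
    rw [mE_apply, mul_comm]
    exact II_mul _ hz hu) _ _ _ _ hz
  dx := fun i _ z => K.d_comm _ z
  du := fun z => K.d_comm _ z
  xx := fun i _ j _ z => act_comm _ _ (fun _ => mE_comm _ _ _) _ _
  ux := fun i _ z => act_comm _ _ (fun _ => mE_comm _ _ _) _ _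
  I0 := fun p δ z hz => gr_vanish (G := II K.D K.r v 0) (fun _ _ => True) _ (fun _ _ _ _ _ => trivial)
    (fun δ _ z hz => II_zero _ δ z hz) p δ trivial z hz
  Imono := fun i p δ z hz => gr_le (fun _ _ => True) _ (fun _ _ _ _ _ => trivial)
    (fun δ _ z hz => II_mono _ δ z hz) p δ trivial z hz
  Ix := fun i hi p δ z hz => act_gr _ _ (fun δ z hz => II_X _ (hv i hi) δ z hz) _ _ _ _ hz
  dec := fun i hi p δ z hz => gr_dec _ _ _ _ (fun δ z hz => II_dec _ δ z hz) _ _ _ _ hz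
  reg := fun i hi p δ a ha => gr_reg _ _ _ (fun z hz => by
    rw [mE_apply] at hz
    exact (mul_eq_zero.1 hz).resolve_left (X_ne_zero _))
    (fun δ z hz => II_reg _ (hinj i hi) δ z hz) _ _ _ _ ha
  Tadd := Tadd
  Tsub := Tsub
  Tu := Tu
  tors := tors

theorem W_inl (D : ℕ → ℕ) (j : Fin n) : W D (Sum.inl j : Fin n ⊕ ℕ) = (1, 0) := rfl

theorem W_inr (D : ℕ → ℕ) (i : ℕ) : W D (Sum.inr i : Fin n ⊕ ℕ) = (-(D i : ℤ), 1) := rfl

/-- **the homology is torsion with respect to `x`** in many degrees -/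
theorem xtors (hN : K.N ≤ n + K.r) (hBT : K.BT) (q : ℤ) (δ : ℤ × ℤ)
    (z : Kos (MvPolynomial (Fin n ⊕ ℕ) ℂ) K.N) (hz : z ∈ K.F q δ) (hd : K.d z = 0)
    (hq : q < δ.2 ∨ (n : ℤ) ≤ q) (j : Fin n) :
    ∃ m : ℕ, ∃ v ∈ K.F (q + 1) (δ + m • ((1, 0) : ℤ × ℤ)),
      act K.N (mE (X (Sum.inl j) ^ m)) z = K.d v := by
  have hv : ∀ i, i < K.r + 1 → Good K.r (Sum.inr i : Fin n ⊕ ℕ) := by
    intro i hi l hl
    injection hl with hl
    omega
  let S := K.sys (K.r + 1) (fun i => Sum.inr i) hv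
    (fun i _ l hl h => by injection h with h; omega) (X (Sum.inl j)) (1, 0)
    (by
      have h := GG_X K.D (r := K.r) (v := (Sum.inl j : Fin n ⊕ ℕ)) (fun i h => by cases h)
      exact h)
    Set.univ (fun _ _ _ _ => trivial) (fun _ _ _ _ => trivial) (fun _ _ => trivial)
    (fun q δ z _ hz hd i hi => by
      obtain ⟨M, g, hg, e1⟩ := hBT j i (by omega)
      obtain ⟨w, hw, e2⟩ := K.bt_bound g _ hg q δ z hz hd
      refine ⟨M, w, ?_, ?_⟩
      · rw [add_comm (W K.D (Sum.inr i : Fin n ⊕ ℕ))]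
        exact hw
      · rw [← e2, ← e1]
        have h2 : (act K.N (mE (X (Sum.inr i))) * act K.N (mE (X (Sum.inl j)))) =
            act K.N (mE (X (Sum.inl j) * X (Sum.inr i))) := by
          rw [mul_comm (X (Sum.inl j)), mE_mul]
          exact (act_mulE _ _ _).symm
        rw [h2, mE_pow, act_pow])
  have hmain : ∀ Q : ℕ → Set (ℤ × ℤ),
      (∀ i, i < K.r + 1 → ∀ δ, δ ∈ Q i → δ + S.ε i ∈ Q (i + 1)) →
      (∀ i, i < K.r + 1 → ∀ δ, δ ∈ Q (i + 1) → δ + S.ε i ∈ Q (i + 1)) →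
      (∀ i, i ≤ K.r + 1 → ∀ δ, δ ∈ Q i → δ + S.εu ∈ Q i) →
      (∀ δ, δ ∈ Q (K.r + 1) → ∀ z ∈ S.F (q + (K.r + 1 : ℕ)) δ, z ∈ S.I (K.r + 1) (q + (K.r + 1 : ℕ)) δ) →
      δ ∈ Q 0 → ∃ m : ℕ, ∃ v ∈ K.F (q + 1) (δ + m • ((1, 0) : ℤ × ℤ)),
      act K.N (mE (X (Sum.inl j) ^ m)) z = K.d v := by
    intro Q h1 h2 h3 h4 h5
    obtain ⟨m, v, hv, e⟩ := S.main q Q h1 h2 h3 h4 δ h5 trivial z hz hd
    refine ⟨m, v, hv, ?_⟩
    rw [mE_pow, act_pow]
    exact e
  rcases hq with hq | hq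
  · refine hmain (fun i => {δ | q + i < δ.2}) ?_ ?_ ?_ ?_ ?_
    · intro i _ δ hδ
      change q + ((i + 1 : ℕ) : ℤ) < (δ + (-(K.D i : ℤ), 1)).2
      have : q + i < δ.2 := hδ
      rw [Prod.snd_add]
      push_cast
      linarith
    · intro i _ δ hδ
      change q + ((i + 1 : ℕ) : ℤ) < (δ + (-(K.D i : ℤ), 1)).2
      have : q + ((i + 1 : ℕ) : ℤ) < δ.2 := hδ
      rw [Prod.snd_add]
      linarith
    · intro i _ δ hδ
      change q + (i : ℤ) < (δ + (1, 0)).2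
      have : q + (i : ℤ) < δ.2 := hδ
      rw [Prod.snd_add]
      simpa using this
    · intro δ hδ z hz
      refine gr_le (fun p δ => p < δ.2) _ (fun i hi p δ h => ?_) (fun δ h z hz => ?_) _ _ hδ z hz
      · rw [Prod.snd_sub, K.he2 i hi]
        linarith
      · intro m hm
        have h1 := hz m hm
        refine ⟨h1, ?_⟩
        have h2 : 0 < (wt K.D m).2 := by rw [h1.1]; exact h
        obtain ⟨i, hi⟩ := exists_y K.D h2
        refine ⟨i, ?_, hi⟩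
        by_contra h3
        exact hi (h1.2 i (by omega))
    · change q + ((0 : ℕ) : ℤ) < δ.2
      simpa using hq
  · refine hmain (fun _ => Set.univ) (fun _ _ _ _ => trivial) (fun _ _ _ _ => trivial)
      (fun _ _ _ _ => trivial) ?_ trivial
    intro δ _ z hz
    have h1 : z = 0 := gr_gt K.N _ δ (by push_cast; omega) z hz
    rw [h1]
    exact zero_mem _

/-- **the vanishing in the degrees `k ≥ n`** -/
theorem xvan (hN : K.N ≤ n + K.r) (hBT : K.BT) (p : ℤ) (δ : ℤ × ℤ) (hk : (n : ℤ) ≤ δ.2)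
    (hp : -(n : ℤ) < δ.1 ∨ (δ.2 = n ∧ 1 ≤ p))
    (z : Kos (MvPolynomial (Fin n ⊕ ℕ) ℂ) K.N) (hz : z ∈ K.F p δ) (hd : K.d z = 0) :
    ∃ v ∈ K.F (p + 1) δ, z = K.d v := by
  classical
  let w : ℕ → Fin n ⊕ ℕ := fun i => if h : i < n then Sum.inl ⟨i, h⟩ else Sum.inr 0
  have hw : ∀ i (hi : i < n), w i = Sum.inl ⟨i, hi⟩ := fun i hi => dif_pos hi
  have hWw : ∀ i, i < n → W K.D (w i) = (1, 0) := fun i hi => by rw [hw i hi]; rfl
  let S := K.sys n w (fun i hi l hl => by rw [hw i hi] at hl; cases hl)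
    (fun i hi j hj h => by
      rw [hw i hi, hw j (by omega)] at h
      injection h with h
      injection h with h
      omega) 1 0 (GG_one _ _)
    {δ' | δ'.2 = δ.2} (fun i hi δ' h => by
      rw [hWw i hi]
      change (δ' + (1, 0)).2 = δ.2
      rw [Prod.snd_add]
      simpa using h)
    (fun i hi δ' h => by
      rw [hWw i hi]
      change (δ' - (1, 0)).2 = δ.2
      rw [Prod.snd_sub]
      simpa using h)
    (fun δ' h => by rw [add_zero]; exact h)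
    (fun q δ' z hδ' hz hd i hi => by
      have hδ2 : δ'.2 = δ.2 := hδ'
      have hq : q < δ'.2 ∨ (n : ℤ) ≤ q := by
        rw [hδ2]
        by_contra h
        push Not at h
        omega
      obtain ⟨m, v, hv, e⟩ := K.xtors hN hBT q δ' z hz hd hq ⟨i, hi⟩
      refine ⟨m, v, ?_, ?_⟩
      · rw [hWw i hi, add_zero]
        exact hv
      · have h1 : act K.N (mE (X (w i))) * act K.N (mE (1 : MvPolynomial (Fin n ⊕ ℕ) ℂ)) =
            act K.N (mE (X (Sum.inl ⟨i, hi⟩))) := by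
          rw [← act_mulE, ← mE_mul, mul_one, hw i hi]
        rw [h1, ← act_pow, ← mE_pow]
        exact e)
  have hmain : ∀ Q : ℕ → Set (ℤ × ℤ),
      (∀ i, i < n → ∀ δ, δ ∈ Q i → δ + S.ε i ∈ Q (i + 1)) →
      (∀ i, i < n → ∀ δ, δ ∈ Q (i + 1) → δ + S.ε i ∈ Q (i + 1)) →
      (∀ δ, δ ∈ Q n → ∀ z ∈ S.F (p + (n : ℕ)) δ, z ∈ S.I n (p + (n : ℕ)) δ) →
      δ ∈ Q 0 → ∃ v ∈ K.F (p + 1) δ, z = K.d v := by
    intro Q h1 h2 h4 h5
    obtain ⟨m, v, hv, e⟩ := S.main p Q h1 h2 (fun i _ δ h => by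
      change δ + 0 ∈ Q i
      rwa [add_zero]) h4 δ h5 rfl z hz hd
    refine ⟨v, ?_, ?_⟩
    · have h6 : δ + m • S.εu = δ := by
        change δ + m • (0 : ℤ × ℤ) = δ
        rw [smul_zero, add_zero]
      rw [h6] at hv
      exact hv
    · have h7 : (S.u ^ m) z = z := by
        change (act K.N (mE (1 : MvPolynomial (Fin n ⊕ ℕ) ℂ)) ^ m) z = z
        rw [← act_pow, ← mE_pow, one_pow]
        have h8 : mE (1 : MvPolynomial (Fin n ⊕ ℕ) ℂ) = 1 := by
          ext1 y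
          rw [mE_apply, one_mul]
          rfl
        rw [h8, act_one]
      rw [h7] at e
      exact e
  rcases hp with hp | ⟨hk2, hp⟩
  · refine hmain (fun i => {δ' | -((n : ℤ) - i) < δ'.1}) ?_ ?_ ?_ ?_
    · intro i hi δ' h
      have h' : -((n : ℤ) - i) < δ'.1 := h
      change -((n : ℤ) - ((i + 1 : ℕ) : ℤ)) < (δ' + W K.D (w i)).1
      rw [hWw i hi, Prod.fst_add]
      push_cast
      linarith
    · intro i hi δ' h
      have h' : -((n : ℤ) - ((i + 1 : ℕ) : ℤ)) < δ'.1 := h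
      change -((n : ℤ) - ((i + 1 : ℕ) : ℤ)) < (δ' + W K.D (w i)).1
      rw [hWw i hi, Prod.fst_add]
      push_cast at h' ⊢
      linarith
    · intro δ' h z hz
      have h' : -((n : ℤ) - n) < δ'.1 := h
      rw [sub_self, neg_zero] at h'
      refine gr_le (fun _ δ => 0 < δ.1) _ (fun i hi p δ h => ?_) (fun δ h z hz => ?_) _ _ h' z hz
      · rw [Prod.fst_sub]
        have := K.he1 i hi
        linarith
      · intro m hm
        have h1 := hz m hm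
        refine ⟨h1, ?_⟩
        have h2 : 0 < (wt K.D m).1 := by rw [h1.1]; exact h
        obtain ⟨j, hj⟩ := exists_x K.D h2
        exact ⟨j, j.2, by rw [hw j j.2]; exact hj⟩
    · change -((n : ℤ) - ((0 : ℕ) : ℤ)) < δ.1
      simpa using hp
  · refine hmain (fun _ => {δ' | δ'.2 = n}) ?_ ?_ ?_ hk2
    · intro i hi δ' h
      change (δ' + W K.D (w i)).2 = n
      rw [hWw i hi, Prod.snd_add]
      simpa using h
    · intro i hi δ' h
      change (δ' + W K.D (w i)).2 = n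
      rw [hWw i hi, Prod.snd_add]
      simpa using h
    · intro δ' h z hz
      have h' : δ'.2 = n := h
      have h1 : z = 0 := gr_vanish (G := GG K.D n K.r) (e := K.e) (fun p δ => δ.2 < p) K.N
        (fun i hi p δ h => by
          rw [Prod.snd_sub, K.he2 i hi]
          linarith)
        (fun δ h z hz => by
          refine sp_empty fun m hm => ?_
          have h1 := hz m hm
          have h2 := wt_snd_nonneg K.D m
          rw [h1.1] at h2
          exact absurd h (not_lt.2 h2)) _ δ' (by rw [h']; linarith) z hz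
      rw [h1]
      exact zero_mem _

end KD

end Pool.Agent.U841.SN
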